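import Pool.Agent.Work.MP_4112db_an.CounterD

/-!
# MP_4112db_an : counterexample, modulus of continuity, Cantor set, conclusion
-/

open MeasureTheory Set Metric Filter
open scoped ENNReal Topology

namespace Pool.Lusin

variable {n : ℕ}

/-- the map -/
noncomputable def FF (n : ℕ) (R : ℕ → ℝ) (x : En n) : En n := WithLp.toLp 2 (fun j => ff n R j x)

section
variable {R : ℕ → ℝ} (hR : Radii n R)
include hR

theorem FF_continuous : Continuous (FF n R) :=
  (PiLp.continuous_toLp 2 _).comp (continuous_pi fun j => ff_continuous hR j)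

theorem FF_memW1n (hE : Summable fun k => 1 / (lam n R k) ^ (n - 1)) : MemW1n n univ (FF n R) :=
  ⟨fun j => ff_memLp hR j, fun i j => ⟨gg n R i j, gg_memLp hR hE i j, weak_partial hR hE i j⟩⟩

theorem diff_summable (j : Fin n) (x y : En n) :
    Summable fun k => PP n R k j x - PP n R k j y :=
  (PP_summable hR j x).sub (PP_summable hR j y)

theorem ff_sub (j : Fin n) (x y : En n) :
    ff n R j x - ff n R j y = ∑' k, (PP n R k j x - PP n R k j y) := by
  unfold ff
  rw [(PP_summable hR j x).tsum_sub (PP_summable hR j y)]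

theorem ff_diff_le_one (j : Fin n) (x y : En n) : |ff n R j x - ff n R j y| ≤ 1 := by
  rw [ff_sub hR, ← tsum_geo]
  have h := tsum_of_norm_bounded (summable_geo.hasSum) (fun k => by
    rw [Real.norm_eq_abs]; exact PP_abs_sub_le hR k j x y)
  rwa [Real.norm_eq_abs] at h

theorem ff_diff_le (j : Fin n) (x y : En n) (m : ℕ) (hxy : ‖x - y‖ ≤ R m) :
    |ff n R j x - ff n R j y| ≤ (1 + 2 * CS) * (1 / 2 : ℝ) ^ m := by
  have hCS : 0 ≤ CS := zero_le_one.trans one_le_CS
  rw [ff_sub hR, ← (diff_summable hR j x y).sum_add_tsum_nat_add m]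
  have h1 : |∑ k ∈ Finset.range m, (PP n R k j x - PP n R k j y)| ≤
      2 * CS * (1 / 2 : ℝ) ^ m := by
    refine (Finset.abs_sum_le_sum_abs _ _).trans ?_
    have h2 : ∀ k ∈ Finset.range m, |PP n R k j x - PP n R k j y| ≤
        CS * (1 / 2 : ℝ) ^ m * (1 / 2 : ℝ) ^ (m - 1 - k) := by
      intro k hk
      have hk' := Finset.mem_range.1 hk
      refine (PP_lip hR k j x y).trans ?_
      have h3 := hR.decay (show k + 1 ≤ m by omega)
      have h4 := hR.pos (k + 1)
      have h5 : ‖x - y‖ / R (k + 1) ≤ (1 / 4 : ℝ) ^ (m - (k + 1)) := by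
        rw [div_le_iff₀ h4]
        have h6 : (1 / 4 : ℝ) ^ (m - (k + 1)) * ((4 : ℝ) ^ (m - (k + 1)) * R m) = R m := by
          rw [← mul_assoc, ← mul_pow]; norm_num
        have h7 : (0 : ℝ) < (1 / 4) ^ (m - (k + 1)) := by positivity
        nlinarith
      have e1 : m - 1 - k = m - (k + 1) := by omega
      have e2 : (1 / 2 : ℝ) ^ m = (1 / 2) ^ (k + 1) * (1 / 2) ^ (m - (k + 1)) := by
        rw [← pow_add]; congr 1; omega
      have e3 : (1 / 4 : ℝ) ^ (m - (k + 1)) = (1 / 2) ^ (m - (k + 1)) * (1 / 2) ^ (m - (k + 1)) := by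
        rw [← mul_pow]; norm_num
      rw [e1, e2]
      calc (1 / 2 : ℝ) ^ (k + 1) * (CS / R (k + 1)) * ‖x - y‖
          = CS * (1 / 2) ^ (k + 1) * (‖x - y‖ / R (k + 1)) := by ring
        _ ≤ CS * (1 / 2) ^ (k + 1) * (1 / 4 : ℝ) ^ (m - (k + 1)) := by gcongr
        _ = _ := by rw [e3]; ring
    refine (Finset.sum_le_sum h2).trans ?_
    rw [← Finset.mul_sum, Finset.sum_range_reflect (fun k => (1 / 2 : ℝ) ^ k) m]
    have h3 : ∑ k ∈ Finset.range m, (1 / 2 : ℝ) ^ k ≤ 2 := by
      have := (summable_geometric_of_lt_one (r := (1 / 2 : ℝ)) (by norm_num)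
        (by norm_num)).sum_le_tsum (Finset.range m) (fun k _ => by positivity)
      rw [tsum_geometric_of_lt_one (by norm_num) (by norm_num)] at this
      norm_num at this ⊢
      exact this
    have h4 : 0 ≤ CS * (1 / 2 : ℝ) ^ m := by positivity
    nlinarith
  have h2 : |∑' k, (PP n R (k + m) j x - PP n R (k + m) j y)| ≤ (1 / 2 : ℝ) ^ m := by
    have h3 : HasSum (fun k : ℕ => (1 / 2 : ℝ) ^ m * (1 / 2 : ℝ) ^ (k + 1)) ((1 / 2 : ℝ) ^ m) := by
      have := summable_geo.hasSum.mul_left ((1 / 2 : ℝ) ^ m)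
      rwa [tsum_geo, mul_one] at this
    have h := tsum_of_norm_bounded h3 (f := fun k => PP n R (k + m) j x - PP n R (k + m) j y)
      (fun k => by
        rw [Real.norm_eq_abs]
        refine (PP_abs_sub_le hR (k + m) j x y).trans (le_of_eq ?_)
        rw [← pow_add]; congr 1; omega)
    rwa [Real.norm_eq_abs] at h
  calc _ ≤ |∑ k ∈ Finset.range m, (PP n R k j x - PP n R k j y)| +
        |∑' k, (PP n R (k + m) j x - PP n R (k + m) j y)| := abs_add_le _ _
    _ ≤ _ := by linarith

theorem R_tendsto (ρ : ℝ) (hρ : 0 < ρ) : ∃ m, R m ≤ ρ := by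
  have h0 := hR.pos 0
  obtain ⟨m, hm⟩ := exists_pow_lt_of_lt_one (show 0 < ρ / R 0 by positivity)
    (show (1 / 4 : ℝ) < 1 by norm_num)
  refine ⟨m, ?_⟩
  have h1 := hR.decay (Nat.zero_le m)
  rw [Nat.sub_zero] at h1
  rw [lt_div_iff₀ h0] at hm
  have h2 : (1 / 4 : ℝ) ^ m * ((4 : ℝ) ^ m * R m) = R m := by
    rw [← mul_assoc, ← mul_pow]; norm_num
  have h3 : (0 : ℝ) < (1 / 4) ^ m := by positivity
  nlinarith

theorem FF_modulus {ω : ℝ → ℝ} (hω : IsModulus ω) {c : ℝ} (hc : 0 < c)
    (hcR : ∀ k : ℕ, c / 2 ^ k ≤ ω (R k)) (x y : En n) :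
    ‖FF n R x - FF n R y‖ ≤ n * ((1 + 2 * CS) * (2 / c)) * ω ‖x - y‖ := by
  have hCS := one_le_CS
  have hωnn : ∀ t, 0 ≤ t → 0 ≤ ω t := by
    intro t ht
    rcases ht.eq_or_lt with h | h
    · rw [← h, hω.zero]
    · exact (hω.pos t h).le
  have hcoord : ∀ j, |ff n R j x - ff n R j y| ≤ ((1 + 2 * CS) * (2 / c)) * ω ‖x - y‖ := by
    intro j
    by_cases hxy : x = y
    · rw [hxy, sub_self, abs_zero, sub_self, norm_zero, hω.zero, mul_zero]
    have hρ : 0 < ‖x - y‖ := norm_pos_iff.2 (sub_ne_zero.2 hxy)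
    classical
    have hex := R_tendsto hR ‖x - y‖ hρ
    have hspec := Nat.find_spec hex
    rcases Nat.eq_zero_or_pos (Nat.find hex) with h0 | hpos
    · rw [h0] at hspec
      have h1 : ω (R 0) ≤ ω ‖x - y‖ := hω.mono (hR.pos 0).le hρ.le hspec
      have h2 := hcR 0
      rw [pow_zero, div_one] at h2
      refine (ff_diff_le_one hR j x y).trans ?_
      have h3 : 1 ≤ (1 / c) * ω ‖x - y‖ := by
        rw [one_div, ← div_eq_inv_mul, le_div_iff₀ hc]; linarith
      refine h3.trans (mul_le_mul_of_nonneg_right ?_ (hωnn _ hρ.le))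
      rw [div_eq_mul_inv, div_eq_mul_inv]
      have : 0 < c⁻¹ := inv_pos.2 hc
      nlinarith
    · obtain ⟨m, hm⟩ : ∃ m, Nat.find hex = m + 1 := ⟨Nat.find hex - 1, by omega⟩
      have hlt : ‖x - y‖ < R m := by
        have := Nat.find_min hex (show m < Nat.find hex by omega)
        exact not_le.1 this
      rw [hm] at hspec
      have h1 : ω (R (m + 1)) ≤ ω ‖x - y‖ := hω.mono (hR.pos (m + 1)).le hρ.le hspec
      have h2 := hcR (m + 1)
      refine (ff_diff_le hR j x y m hlt.le).trans ?_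
      rw [mul_assoc]
      refine mul_le_mul_of_nonneg_left ?_ (by linarith)
      have h3 : c / 2 ^ (m + 1) ≤ ω ‖x - y‖ := h2.trans h1
      calc (1 / 2 : ℝ) ^ m = (2 / c) * (c / 2 ^ (m + 1)) := by
            rw [pow_succ, one_div_pow]; field_simp
        _ ≤ _ := by gcongr
  calc ‖FF n R x - FF n R y‖ ≤ ∑ j, |(FF n R x - FF n R y) j| := norm_le_sum_coord _
    _ ≤ ∑ _j : Fin n, ((1 + 2 * CS) * (2 / c)) * ω ‖x - y‖ :=
        Finset.sum_le_sum fun j _ => hcoord j
    _ = _ := by rw [Finset.sum_const, Finset.card_univ, Fintype.card_fin, nsmul_eq_mul]; ring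

/-- the Cantor set -/
def cantor (n : ℕ) (R : ℕ → ℝ) : Set (En n) :=
  ⋂ m : ℕ, ⋃ w : Word n m, closedBall (ctr (tt n R) w) (R m / 2)

theorem cantor_null : volume (cantor n R) = 0 := by
  have hn := hR.hn
  have hfin : Module.finrank ℝ (En n) = n := by simp [En]
  have h1 : ∀ m : ℕ, volume (cantor n R) ≤
      ENNReal.ofReal (((1 / 2 : ℝ) ^ m * R 0) ^ n) * volume (ball (0 : En n) 1) := by
    intro m
    have hRm := hR.pos m
    calc volume (cantor n R) ≤ volume (⋃ w : Word n m, closedBall (ctr (tt n R) w) (R m / 2)) :=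
          measure_mono (iInter_subset _ m)
      _ ≤ ∑ w : Word n m, volume (closedBall (ctr (tt n R) w) (R m / 2)) := by
          have := measure_iUnion_le (μ := (volume : Measure (En n)))
            (fun w : Word n m => closedBall (ctr (tt n R) w) (R m / 2))
          rwa [tsum_fintype] at this
      _ = ∑ _w : Word n m, ENNReal.ofReal ((R m / 2) ^ n) * volume (ball (0 : En n) 1) := by
          refine Finset.sum_congr rfl fun w _ => ?_
          rw [Measure.addHaar_closedBall _ _ (by positivity), hfin]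
      _ = ENNReal.ofReal ((2 ^ m * (R m / 2)) ^ n) * volume (ball (0 : En n) 1) := by
          rw [Finset.sum_const, Finset.card_univ, nsmul_eq_mul, ← mul_assoc]
          congr 1
          have e2 : Fintype.card (Word n m) = (2 ^ n) ^ m := by simp [Word, Letter]
          rw [e2, ← ENNReal.ofReal_natCast, ← ENNReal.ofReal_mul (by positivity)]
          congr 1
          push_cast
          rw [mul_pow (2 ^ m), ← pow_mul, ← pow_mul, mul_comm n m]
      _ ≤ _ := by
          refine mul_le_mul' (ENNReal.ofReal_le_ofReal (pow_le_pow_left₀ (by positivity) ?_ n))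
            le_rfl
          have h3 := hR.decay (Nat.zero_le m)
          rw [Nat.sub_zero] at h3
          have e : (4 : ℝ) ^ m = 2 ^ m * 2 ^ m := by rw [← mul_pow]; norm_num
          rw [e] at h3
          have h4 : (1 / 2 : ℝ) ^ m * (2 ^ m * 2 ^ m * R m) = 2 ^ m * R m := by
            rw [← mul_assoc, ← mul_assoc, ← mul_pow]; norm_num
          have h5 : (0 : ℝ) < (1 / 2) ^ m := by positivity
          have h6 : (0 : ℝ) < 2 ^ m := by positivity
          nlinarith [mul_pos h6 hRm]
  have h2 : Tendsto (fun m : ℕ => ENNReal.ofReal (((1 / 2 : ℝ) ^ m * R 0) ^ n) *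
      volume (ball (0 : En n) 1)) atTop (𝓝 (ENNReal.ofReal ((0 * R 0) ^ n) *
      volume (ball (0 : En n) 1))) := by
    refine ENNReal.Tendsto.mul_const (ENNReal.tendsto_ofReal ?_) (Or.inr measure_ball_lt_top.ne)
    exact ((tendsto_pow_atTop_nhds_zero_of_lt_one (by norm_num) (by norm_num)).mul_const _).pow n
  rw [zero_mul, zero_pow (by omega), ENNReal.ofReal_zero, zero_mul] at h2
  exact le_antisymm (ge_of_tendsto' h2 h1) zero_le

theorem image_contains {y : En n} (hy : ∀ i, y i ∈ Ico (0 : ℝ) 1) :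
    y ∈ FF n R '' cantor n R := by
  -- digits
  set b : ℕ → Letter n := fun k i => Real.digits (y i) 2 k with hb
  set pw : ∀ m, Word n m := fun m j => b j with hpw
  have hctr : ∀ m, ctr (tt n R) (pw m) = ∑ k ∈ Finset.range m, tt n R k • vec (b k) := by
    intro m
    unfold ctr
    rw [Finset.sum_range]
  have hsum : Summable fun k => tt n R k • vec (b k) := by
    refine Summable.of_norm_bounded (g := fun k => (n * tt n R 0) * (1 / 4 : ℝ) ^ k)
      ((summable_geometric_of_lt_one (by norm_num) (by norm_num)).mul_left _) fun k => ?_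
    rw [norm_smul, Real.norm_eq_abs, abs_of_pos (hR.tt_pos k)]
    have h1 : tt n R k ≤ tt n R 0 * (1 / 4 : ℝ) ^ k := by
      induction k with
      | zero => simp
      | succ k ih =>
        have := hR.tt4 k
        rw [pow_succ]
        linarith
    have h2 := norm_vec_le (b k)
    have h3 := hR.tt_pos k
    have h4 : (0 : ℝ) ≤ n := Nat.cast_nonneg n
    calc tt n R k * ‖vec (b k)‖ ≤ tt n R k * n := by gcongr
      _ ≤ (tt n R 0 * (1 / 4 : ℝ) ^ k) * n := by gcongr
      _ = _ := by ring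
  set x : En n := ∑' k, tt n R k • vec (b k) with hx
  have htend : Tendsto (fun m => ctr (tt n R) (pw m)) atTop (𝓝 x) := by
    simp only [hctr]
    exact hsum.hasSum.tendsto_sum_nat
  have hclose : ∀ m, ‖x - ctr (tt n R) (pw m)‖ ≤ R m / 2 := by
    intro m
    have h1 : Tendsto (fun m' => ‖ctr (tt n R) (pw m') - ctr (tt n R) (pw m)‖) atTop
        (𝓝 ‖x - ctr (tt n R) (pw m)‖) := (htend.sub_const _).norm
    refine le_of_tendsto h1 ?_
    filter_upwards [eventually_ge_atTop m] with m' hm'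
    have h2 := ctr_pre hR.tt_pos hR.tt4 hm' (pw m')
    have h3 : pre hm' (pw m') = pw m := rfl
    rw [h3] at h2
    refine h2.trans ?_
    have h3 := hR.tt_pos m'
    have h4 := hR.n_pos
    have h5 : 2 * n * tt n R m = R m / 2 := by
      unfold tt; field_simp; ring
    nlinarith
  refine ⟨x, ?_, ?_⟩
  · unfold cantor
    rw [mem_iInter]
    intro m
    rw [mem_iUnion]
    refine ⟨pw m, ?_⟩
    rw [mem_closedBall, dist_eq_norm]
    exact hclose m
  · ext j
    change ff n R j x = y j
    have h1 : ∀ k, PP n R k j x = Real.ofDigitsTerm (Real.digits (y j) 2) k := by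
      intro k
      have hRk := hR.pos (k + 1)
      have h2 : ‖x - ctr (tt n R) (pw (k + 1))‖ ≤ R (k + 1) :=
        (hclose (k + 1)).trans (by linarith)
      rw [PP_active hR j (h2.trans (hR.R_lt_aa k).le), prof_eq_one hRk (hR.R_lt_aa k) h2, mul_one]
      have h3 : pw (k + 1) (Fin.last k) j = Real.digits (y j) 2 k := rfl
      rw [h3]
      unfold Real.ofDigitsTerm
      rw [mul_comm, one_div, inv_pow]
      norm_num
    unfold ff
    simp only [h1]
    exact (Real.hasSum_ofDigitsTerm_digits (y j) (by norm_num) (hy j)).tsum_eq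

theorem image_pos : volume (FF n R '' cantor n R) ≠ 0 := by
  have h1 : {y : En n | ∀ i, y i ∈ Ioo (0 : ℝ) 1} ⊆ FF n R '' cantor n R := by
    intro y hy
    exact image_contains hR fun i => ⟨(hy i).1.le, (hy i).2⟩
  have h2 : IsOpen {y : En n | ∀ i, y i ∈ Ioo (0 : ℝ) 1} := by
    have : {y : En n | ∀ i, y i ∈ Ioo (0 : ℝ) 1} = ⋂ i, {y : En n | y i ∈ Ioo (0 : ℝ) 1} := by
      ext y; simp
    rw [this]
    refine isOpen_iInter_of_finite fun i => ?_
    exact isOpen_Ioo.preimage (PiLp.continuous_apply 2 _ i)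
  have h3 : {y : En n | ∀ i, y i ∈ Ioo (0 : ℝ) 1}.Nonempty :=
    ⟨WithLp.toLp 2 fun _ => 1 / 2, fun i => by
      simp only [mem_Ioo]; norm_num⟩
  have h4 := h2.measure_pos volume h3
  exact (h4.trans_le (measure_mono h1)).ne'

theorem not_propertyP_of_radii (hE : Summable fun k => 1 / (lam n R k) ^ (n - 1))
    {ω : ℝ → ℝ} (hω : IsModulus ω) {c : ℝ} (hc : 0 < c)
    (hcR : ∀ k : ℕ, c / 2 ^ k ≤ ω (R k)) : ¬ PropertyP n ω := by
  intro hP
  have h := hP univ isOpen_univ (FF n R) (FF_continuous hR).continuousOn (FF_memW1n hR hE)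
    (fun K _ _ => ⟨_, fun x _ y _ => FF_modulus hR hω hc hcR x y⟩)
  exact image_pos hR (h (cantor n R) (subset_univ _) (cantor_null hR))

end

/-- **The counterexample direction.** -/
theorem counter {n : ℕ} (hn : 2 ≤ n) {ω : ℝ → ℝ} (hω : IsModulus ω) (h : SeqCrit n ω) :
    ¬ PropertyP n ω := by
  obtain ⟨L, hL, hsum, c, hc, hcω⟩ := h
  have hn1 : (1 : ℝ) ≤ n := by exact_mod_cast (show 1 ≤ n by omega)
  set B : ℝ := 2 * Real.log (64 * n) with hB
  have hlog : 0 < Real.log (64 * n) := Real.log_pos (by linarith)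
  have hB0 : 0 < B := by rw [hB]; linarith
  -- the steps are eventually large
  obtain ⟨k0, hk0⟩ : ∃ k0, ∀ k ≥ k0, B ≤ L k := by
    have h1 := hsum.tendsto_atTop_zero
    have h2 : ∀ᶠ k in atTop, 1 / L k ^ (n - 1) < 1 / B ^ (n - 1) :=
      h1.eventually_lt_const (by positivity)
    obtain ⟨k0, hk0⟩ := eventually_atTop.1 h2
    refine ⟨k0, fun k hk => ?_⟩
    by_contra hc
    push Not at hc
    have h3 := hk0 k hk
    have h4 : L k ^ (n - 1) ≤ B ^ (n - 1) := pow_le_pow_left₀ (hL k).le hc.le _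
    have h5 : 1 / B ^ (n - 1) ≤ 1 / L k ^ (n - 1) :=
      one_div_le_one_div_of_le (pow_pos (hL k) _) h4
    linarith
  set R : ℕ → ℝ := fun k => Real.exp (- ∑ j ∈ Finset.range (k + k0), L j) with hRdef
  have hstep : ∀ k, R (k + 1) = R k * Real.exp (- L (k + k0)) := by
    intro k
    simp only [hRdef]
    rw [← Real.exp_add]
    congr 1
    have : k + 1 + k0 = (k + k0) + 1 := by ring
    rw [this, Finset.sum_range_succ]
    ring
  have hRpos : ∀ k, 0 < R k := fun k => Real.exp_pos _
  have hRad : Radii n R := by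
    refine ⟨by omega, hRpos, fun k => ?_⟩
    have h1 := hk0 (k + k0) (by omega)
    have h2 : 64 * n ≤ Real.exp (L (k + k0)) := by
      calc (64 * n : ℝ) = Real.exp (Real.log (64 * n)) := (Real.exp_log (by linarith)).symm
        _ ≤ _ := Real.exp_le_exp.2 (by linarith)
    rw [hstep, Real.exp_neg]
    have h3 := Real.exp_pos (L (k + k0))
    have h4 := hRpos k
    calc 64 * n * (R k * (Real.exp (L (k + k0)))⁻¹)
        ≤ Real.exp (L (k + k0)) * (R k * (Real.exp (L (k + k0)))⁻¹) := by gcongr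
      _ = R k := by field_simp
  have hlam : ∀ k, L (k + k0) / 2 ≤ lam n R k := by
    intro k
    have h1 := hk0 (k + k0) (by omega)
    unfold lam aa
    have hR1 := (hRpos k).ne'
    rw [hstep, Real.log_div hR1 (by positivity), Real.log_mul hR1 (Real.exp_pos _).ne']
    have h3 : Real.log (Real.exp (-L (k + k0))) = -L (k + k0) := Real.log_exp _
    rw [h3]
    have h2 : Real.log (16 * n) ≤ Real.log (64 * n) :=
      Real.log_le_log (by linarith) (by linarith)
    linarith
  refine not_propertyP_of_radii hRad ?_ hω (c := c / 2 ^ k0) (by positivity) ?_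
  · have h1 : Summable fun k => 2 ^ (n - 1) * (1 / L (k + k0) ^ (n - 1)) :=
      ((summable_nat_add_iff k0).2 hsum).mul_left _
    refine Summable.of_nonneg_of_le (fun k => ?_) (fun k => ?_) h1
    · have := hRad.one_le_lam k
      positivity
    · have h2 := hlam k
      have h3 := hL (k + k0)
      have h4 : (L (k + k0) / 2) ^ (n - 1) ≤ lam n R k ^ (n - 1) :=
        pow_le_pow_left₀ (by positivity) h2 _
      calc 1 / lam n R k ^ (n - 1) ≤ 1 / (L (k + k0) / 2) ^ (n - 1) :=
            one_div_le_one_div_of_le (by positivity) h4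
        _ = _ := by rw [div_pow]; field_simp
  · intro k
    have h1 := hcω (k + k0)
    calc c / 2 ^ k0 / 2 ^ k = c / 2 ^ (k + k0) := by rw [div_div, ← pow_add, add_comm]
      _ ≤ _ := h1

end Pool.Lusin
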