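import Pool.Agent.Work.MP_4112db_an.Crit3

/-!
# MP_4112db_an : sum form and integral form are equivalent
-/

open MeasureTheory Set

namespace Pool.Lusin

/-- The dyadic piece `[2^{-(k+2)}, 2^{-(k+1)})`. -/
def piece (k : ℕ) : Set ℝ := Ico ((1 / 2 : ℝ) ^ (k + 2)) ((1 / 2 : ℝ) ^ (k + 1))

lemma measurableSet_piece (k : ℕ) : MeasurableSet (piece k) := measurableSet_Ico

lemma volume_piece (k : ℕ) : volume (piece k) = ENNReal.ofReal ((1 / 2 : ℝ) ^ (k + 2)) := by
  rw [piece, Real.volume_Ico]
  congr 1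
  rw [pow_succ (1 / 2 : ℝ) (k + 1)]
  ring

lemma piece_disjoint : Pairwise (Function.onFun Disjoint piece) := by
  intro i j hij
  simp only [Function.onFun]
  rw [Set.disjoint_left]
  intro x hx hy
  rcases lt_or_gt_of_ne hij with h | h
  · have h1 : (1 / 2 : ℝ) ^ (j + 1) ≤ (1 / 2 : ℝ) ^ (i + 2) :=
      pow_le_pow_of_le_one (by norm_num) (by norm_num) (by omega)
    have := hx.1
    have := hy.2
    linarith
  · have h1 : (1 / 2 : ℝ) ^ (i + 1) ≤ (1 / 2 : ℝ) ^ (j + 2) :=
      pow_le_pow_of_le_one (by norm_num) (by norm_num) (by omega)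
    have := hy.1
    have := hx.2
    linarith

lemma iUnion_piece : (⋃ k, piece k) = Ioo (0 : ℝ) (1 / 2) := by
  ext x
  simp only [mem_iUnion, piece, mem_Ico, mem_Ioo]
  constructor
  · rintro ⟨k, h1, h2⟩
    have h3 : (0 : ℝ) < (1 / 2 : ℝ) ^ (k + 2) := by positivity
    have h4 : (1 / 2 : ℝ) ^ (k + 1) ≤ (1 / 2 : ℝ) ^ 1 :=
      pow_le_pow_of_le_one (by norm_num) (by norm_num) (by omega)
    rw [pow_one] at h4
    constructor <;> linarith
  · rintro ⟨h0, h1⟩
    obtain ⟨k, hk⟩ : ∃ k : ℕ, (1 / 2 : ℝ) ^ k < x :=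
      exists_pow_lt_of_lt_one h0 (by norm_num)
    classical
    have hex : ∃ k : ℕ, (1 / 2 : ℝ) ^ k ≤ x := ⟨k, hk.le⟩
    have hm := Nat.find_spec hex
    have hm0 : 2 ≤ Nat.find hex := by
      by_contra hcon
      have h2 : (1 / 2 : ℝ) ^ 1 ≤ (1 / 2 : ℝ) ^ (Nat.find hex) :=
        pow_le_pow_of_le_one (by norm_num) (by norm_num) (by omega)
      rw [pow_one] at h2
      linarith
    refine ⟨Nat.find hex - 2, ?_, ?_⟩
    · have : Nat.find hex - 2 + 2 = Nat.find hex := by omega
      rw [this]
      exact hm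
    · have h2 : ¬ ((1 / 2 : ℝ) ^ (Nat.find hex - 1) ≤ x) :=
        Nat.find_min hex (by omega)
      have : Nat.find hex - 2 + 1 = Nat.find hex - 1 := by omega
      rw [this]
      exact not_le.1 h2

lemma critInt_eq (n : ℕ) (ω : ℝ → ℝ) : critInt n ω =
    ∑' k, ∫⁻ t in piece k, ENNReal.ofReal ((|Real.log (ω t)| / |Real.log t|) ^ n / t) := by
  rw [critInt, ← iUnion_piece, lintegral_iUnion measurableSet_piece piece_disjoint]

lemma log_half_pow (k : ℕ) : Real.log ((1 / 2 : ℝ) ^ k) = - (k * Real.log 2) := by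
  rw [Real.log_pow, one_div, Real.log_inv]
  ring

/-- Finiteness of the integral implies the sum form. -/
theorem sumCrit_of_critInt {n : ℕ} {ω : ℝ → ℝ} (hω : IsModulus ω)
    (h : critInt n ω < ⊤) : SumCrit n ω := by
  have hl2 : 0 < Real.log 2 := Real.log_pos (by norm_num)
  set H : ℕ → ℝ := fun k => max (Real.log (1 / ω ((1 / 2 : ℝ) ^ k))) 0 with hH
  have hH0 : ∀ k, 0 ≤ H k := fun k => le_max_right _ _
  have hpiece : ∀ k, ENNReal.ofReal ((H (k + 1) / ((k + 2) * Real.log 2)) ^ n / 2) ≤
      ∫⁻ t in piece k, ENNReal.ofReal ((|Real.log (ω t)| / |Real.log t|) ^ n / t) := by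
    intro k
    have h1 : ∀ t ∈ piece k, ENNReal.ofReal ((H (k + 1) / ((k + 2) * Real.log 2)) ^ n /
        (1 / 2 : ℝ) ^ (k + 1)) ≤
        ENNReal.ofReal ((|Real.log (ω t)| / |Real.log t|) ^ n / t) := by
      intro t ht
      apply ENNReal.ofReal_le_ofReal
      have ht0 : 0 < t := lt_of_lt_of_le (by positivity) ht.1
      have ht1 : t < 1 := lt_of_lt_of_le ht.2 (pow_le_one₀ (by norm_num) (by norm_num))
      have e1 : H (k + 1) ≤ |Real.log (ω t)| := by
        apply max_le _ (abs_nonneg _)
        rw [one_div, Real.log_inv]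
        have : Real.log (ω t) ≤ Real.log (ω ((1 / 2 : ℝ) ^ (k + 1))) :=
          Real.log_le_log (hω.pos _ ht0) (hω.mono (by simp only [mem_Ici]; exact ht0.le)
            (by simp only [mem_Ici]; positivity) ht.2.le)
        have h2 := neg_abs_le (Real.log (ω t))
        linarith
      have hlt : Real.log t < 0 := Real.log_neg ht0 ht1
      have e2 : |Real.log t| ≤ (k + 2) * Real.log 2 := by
        rw [abs_of_neg hlt]
        have := Real.log_le_log (by positivity) ht.1
        rw [log_half_pow] at this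
        push_cast at this
        linarith
      have e3 : 0 < |Real.log t| := abs_pos.2 hlt.ne
      have e4 : H (k + 1) / ((k + 2) * Real.log 2) ≤ |Real.log (ω t)| / |Real.log t| :=
        div_le_div₀ (abs_nonneg _) e1 e3 e2
      apply div_le_div₀
      · positivity
      · apply pow_le_pow_left₀ _ e4
        have := hH0 (k + 1)
        positivity
      · exact ht0
      · exact ht.2.le
    calc ENNReal.ofReal ((H (k + 1) / ((k + 2) * Real.log 2)) ^ n / 2)
        = ENNReal.ofReal ((H (k + 1) / ((k + 2) * Real.log 2)) ^ n / (1 / 2 : ℝ) ^ (k + 1)) *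
          volume (piece k) := by
          rw [volume_piece, ← ENNReal.ofReal_mul]
          · congr 1
            rw [pow_succ (1 / 2 : ℝ) (k + 1)]
            have : (1 / 2 : ℝ) ^ (k + 1) ≠ 0 := by positivity
            field_simp
          · have := hH0 (k + 1)
            positivity
      _ = ∫⁻ t in piece k, ENNReal.ofReal ((H (k + 1) / ((k + 2) * Real.log 2)) ^ n /
            (1 / 2 : ℝ) ^ (k + 1)) := by
          rw [lintegral_const, Measure.restrict_apply_univ]
      _ ≤ _ := setLIntegral_mono' (measurableSet_piece k) h1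
  have hsum : Summable (fun k : ℕ => (H (k + 1) / ((k + 2) * Real.log 2)) ^ n / 2) := by
    have h1 : ∑' k : ℕ, ENNReal.ofReal ((H (k + 1) / ((k + 2) * Real.log 2)) ^ n / 2) ≤
        critInt n ω := by
      rw [critInt_eq]
      exact ENNReal.tsum_le_tsum hpiece
    have h2 := (h1.trans_lt h).ne
    have h3 : ∀ k : ℕ, 0 ≤ (H (k + 1) / ((k + 2) * Real.log 2)) ^ n / 2 := by
      intro k
      have := hH0 (k + 1)
      positivity
    have h4 := ENNReal.summable_toReal h2
    refine h4.congr (fun k => ?_)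
    exact ENNReal.toReal_ofReal (h3 k)
  have h5 : Summable (fun k : ℕ => (H (k + 1) / ((k + 1 : ℕ) + 1)) ^ n) := by
    have h6 := hsum.mul_left (2 * Real.log 2 ^ n)
    refine h6.congr (fun k => ?_)
    rw [div_pow, div_pow, mul_pow]
    have e1 : ((k : ℝ) + 2) ≠ 0 := by positivity
    have e2 : Real.log 2 ≠ 0 := hl2.ne'
    have e3 : (((k + 1 : ℕ) : ℝ) + 1) = (k : ℝ) + 2 := by push_cast; ring
    rw [e3]
    field_simp
  exact (summable_nat_add_iff (f := fun k : ℕ => (H k / ((k : ℝ) + 1)) ^ n) 1).1 h5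

/-- The sum form implies finiteness of the integral. -/
theorem critInt_of_sumCrit {n : ℕ} (hn : 2 ≤ n) {ω : ℝ → ℝ} (hω : IsModulus ω)
    (h : SumCrit n ω) : critInt n ω < ⊤ := by
  have hl2 : 0 < Real.log 2 := Real.log_pos (by norm_num)
  set H : ℕ → ℝ := fun k => max (Real.log (1 / ω ((1 / 2 : ℝ) ^ k))) 0 with hH
  have hH0 : ∀ k, 0 ≤ H k := fun k => le_max_right _ _
  set D : ℝ := |Real.log (ω (1 / 2))| with hD
  have hpiece : ∀ k, ∫⁻ t in piece k,
      ENNReal.ofReal ((|Real.log (ω t)| / |Real.log t|) ^ n / t) ≤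
      ENNReal.ofReal (((D + H (k + 2)) / ((k + 1) * Real.log 2)) ^ n) := by
    intro k
    have h1 : ∀ t ∈ piece k, ENNReal.ofReal ((|Real.log (ω t)| / |Real.log t|) ^ n / t) ≤
        ENNReal.ofReal (((D + H (k + 2)) / ((k + 1) * Real.log 2)) ^ n / (1 / 2 : ℝ) ^ (k + 2)) := by
      intro t ht
      apply ENNReal.ofReal_le_ofReal
      have ht0 : 0 < t := lt_of_lt_of_le (by positivity) ht.1
      have ht1 : t < 1 := lt_of_lt_of_le ht.2 (pow_le_one₀ (by norm_num) (by norm_num))
      have hth : t ≤ 1 / 2 := by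
        have h4 : (1 / 2 : ℝ) ^ (k + 1) ≤ (1 / 2 : ℝ) ^ 1 :=
          pow_le_pow_of_le_one (by norm_num) (by norm_num) (by omega)
        rw [pow_one] at h4
        linarith [ht.2]
      have e1 : |Real.log (ω t)| ≤ D + H (k + 2) := by
        rw [abs_le]
        constructor
        · have : Real.log (ω ((1 / 2 : ℝ) ^ (k + 2))) ≤ Real.log (ω t) :=
            Real.log_le_log (hω.pos_half _) (hω.mono (by simp only [mem_Ici]; positivity)
              (by simp only [mem_Ici]; exact ht0.le) ht.1)
          have h2 : Real.log (1 / ω ((1 / 2 : ℝ) ^ (k + 2))) ≤ H (k + 2) := le_max_left _ _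
          rw [one_div, Real.log_inv] at h2
          have : 0 ≤ D := abs_nonneg _
          linarith
        · have : Real.log (ω t) ≤ Real.log (ω (1 / 2)) :=
            Real.log_le_log (hω.pos _ ht0) (hω.mono (by simp only [mem_Ici]; exact ht0.le)
              (by simp only [mem_Ici]; norm_num) hth)
          have h2 : Real.log (ω (1 / 2)) ≤ D := le_abs_self _
          linarith [hH0 (k + 2)]
      have hlt : Real.log t < 0 := Real.log_neg ht0 ht1
      have e2 : (k + 1) * Real.log 2 ≤ |Real.log t| := by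
        rw [abs_of_neg hlt]
        have := Real.log_le_log ht0 ht.2.le
        rw [log_half_pow] at this
        push_cast at this
        linarith
      have e3 : 0 < |Real.log t| := abs_pos.2 hlt.ne
      have e5 : (0 : ℝ) < (k + 1) * Real.log 2 := by positivity
      have e6 : 0 ≤ D + H (k + 2) := add_nonneg (abs_nonneg _) (hH0 _)
      have e4 : |Real.log (ω t)| / |Real.log t| ≤ (D + H (k + 2)) / ((k + 1) * Real.log 2) :=
        div_le_div₀ e6 e1 e5 e2
      apply div_le_div₀
      · positivity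
      · exact pow_le_pow_left₀ (by positivity) e4 _
      · positivity
      · exact ht.1
    calc _ ≤ ∫⁻ t in piece k, ENNReal.ofReal (((D + H (k + 2)) / ((k + 1) * Real.log 2)) ^ n /
            (1 / 2 : ℝ) ^ (k + 2)) := setLIntegral_mono' (measurableSet_piece k) h1
      _ = ENNReal.ofReal (((D + H (k + 2)) / ((k + 1) * Real.log 2)) ^ n /
            (1 / 2 : ℝ) ^ (k + 2)) * volume (piece k) := by
          rw [lintegral_const, Measure.restrict_apply_univ]
      _ = _ := by
          have e6 : 0 ≤ D + H (k + 2) := add_nonneg (abs_nonneg _) (hH0 _)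
          rw [volume_piece, ← ENNReal.ofReal_mul (by positivity)]
          congr 1
          have : (1 / 2 : ℝ) ^ (k + 2) ≠ 0 := by positivity
          field_simp
  have hsum : Summable (fun k : ℕ => ((D + H (k + 2)) / ((k + 1) * Real.log 2)) ^ n) := by
    have h1 : Summable (fun k : ℕ => (H (k + 2) / ((k + 2 : ℕ) + 1)) ^ n) :=
      (summable_nat_add_iff (f := fun k : ℕ => (H k / ((k : ℝ) + 1)) ^ n) 2).2 h
    have h2 : Summable (fun k : ℕ => 1 / ((k : ℝ) + 1) ^ n) := by
      have h4 := (summable_nat_add_iff (f := fun k : ℕ => 1 / ((k : ℝ)) ^ n) 1).2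
        (Real.summable_one_div_nat_pow.2 (by omega))
      simpa using h4
    have h3 := ((h2.mul_left (D ^ n)).add (h1.mul_left (3 ^ n))).mul_left
      (2 ^ (n - 1) / Real.log 2 ^ n)
    apply Summable.of_nonneg_of_le _ _ h3
    · intro k
      have := hH0 (k + 2)
      positivity
    · intro k
      have hk : (0 : ℝ) < (k : ℝ) + 1 := by positivity
      have hHk := hH0 (k + 2)
      have hD0 : 0 ≤ D := abs_nonneg _
      have e1 : (D + H (k + 2)) / ((k + 1) * Real.log 2) =
          (D / (k + 1) + H (k + 2) / (k + 1)) / Real.log 2 := by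
        field_simp
      rw [e1, div_pow]
      have e2 : H (k + 2) / ((k : ℝ) + 1) ≤ 3 * (H (k + 2) / ((k + 2 : ℕ) + 1)) := by
        rw [mul_div_assoc', div_le_div_iff₀ hk (by positivity)]
        push_cast
        nlinarith
      have e3 : (H (k + 2) / ((k : ℝ) + 1)) ^ n ≤
          3 ^ n * (H (k + 2) / ((k + 2 : ℕ) + 1)) ^ n := by
        rw [← mul_pow]
        exact pow_le_pow_left₀ (by positivity) e2 n
      have e4 := add_pow_le (a := D / ((k : ℝ) + 1)) (b := H (k + 2) / (k + 1))
        (by positivity) (by positivity) n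
      have e5 : (D / ((k : ℝ) + 1)) ^ n = D ^ n * (1 / ((k : ℝ) + 1) ^ n) := by
        rw [div_pow]
        ring
      have e6 : (0 : ℝ) < Real.log 2 ^ n := by positivity
      calc _ ≤ (2 ^ (n - 1) * ((D / ((k : ℝ) + 1)) ^ n + (H (k + 2) / (k + 1)) ^ n)) /
            Real.log 2 ^ n := div_le_div_of_nonneg_right e4 e6.le
        _ ≤ (2 ^ (n - 1) * (D ^ n * (1 / ((k : ℝ) + 1) ^ n) +
            3 ^ n * (H (k + 2) / ((k + 2 : ℕ) + 1)) ^ n)) / Real.log 2 ^ n := by
            apply div_le_div_of_nonneg_right _ e6.le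
            apply mul_le_mul_of_nonneg_left _ (by positivity)
            rw [e5]
            linarith
        _ = _ := by ring
  rw [critInt_eq]
  calc _ ≤ ∑' k : ℕ, ENNReal.ofReal (((D + H (k + 2)) / ((k + 1) * Real.log 2)) ^ n) :=
        ENNReal.tsum_le_tsum hpiece
    _ < ⊤ := by
        rw [← ENNReal.ofReal_tsum_of_nonneg _ hsum]
        · exact ENNReal.ofReal_lt_top
        · intro k
          have := hH0 (k + 2)
          have : 0 ≤ D := abs_nonneg _
          positivity

end Pool.Lusin
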