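import Pool.Agent.Work.MP_4112db_an.Defs

/-!
# MP_4112db_an : counterexample, the radial profile
-/

open MeasureTheory Set Metric Filter
open scoped ENNReal Topology

namespace Pool.Lusin

/-- the derivative of the smooth step function is bounded -/
theorem exists_bound_deriv_step : ∃ C : ℝ, 1 ≤ C ∧ ∀ x, |deriv Real.smoothTransition x| ≤ C := by
  have hc : Continuous (deriv Real.smoothTransition) :=
    (Real.smoothTransition.contDiff (n := 1)).continuous_deriv le_rfl
  obtain ⟨C, hC⟩ := (isCompact_Icc (a := (0 : ℝ)) (b := 1)).exists_bound_of_continuousOn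
    hc.continuousOn
  refine ⟨max C 1, le_max_right _ _, fun x => ?_⟩
  by_cases hx : x ∈ Icc (0 : ℝ) 1
  · exact (hC x hx).trans (le_max_left _ _)
  · have h0 : deriv Real.smoothTransition x = 0 := by
      rw [mem_Icc, not_and_or, not_le, not_le] at hx
      rcases hx with hx | hx
      · have : Real.smoothTransition =ᶠ[𝓝 x] fun _ => (0 : ℝ) := by
          filter_upwards [Iio_mem_nhds hx] with y hy
          exact Real.smoothTransition.zero_of_nonpos (le_of_lt hy)
        rw [this.deriv_eq, deriv_const]
      · have : Real.smoothTransition =ᶠ[𝓝 x] fun _ => (1 : ℝ) := by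
          filter_upwards [Ioi_mem_nhds hx] with y hy
          exact Real.smoothTransition.one_of_one_le (le_of_lt hy)
        rw [this.deriv_eq, deriv_const]
    rw [h0, abs_zero]
    exact zero_le_one.trans (le_max_right _ _)

/-- a bound for the derivative of the smooth step function -/
noncomputable def CS : ℝ := exists_bound_deriv_step.choose
theorem one_le_CS : 1 ≤ CS := exists_bound_deriv_step.choose_spec.1
theorem deriv_step_le (x : ℝ) : |deriv Real.smoothTransition x| ≤ CS :=
  exists_bound_deriv_step.choose_spec.2 x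

variable {n : ℕ}

/-- radial logarithmic cut-off: `1` on the ball of radius `R`, `0` off the ball of radius `a`. -/
noncomputable def prof (R a : ℝ) (z : En n) : ℝ :=
  if ‖z‖ < R then 1 else
    Real.smoothTransition ((Real.log a - Real.log ‖z‖) / (Real.log a - Real.log R))

section prof
variable {R a : ℝ}

theorem prof_nonneg (z : En n) : 0 ≤ prof R a z := by
  unfold prof
  split_ifs
  · exact zero_le_one
  · exact Real.smoothTransition.nonneg _

theorem prof_le_one (z : En n) : prof R a z ≤ 1 := by
  unfold prof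
  split_ifs
  · exact le_rfl
  · exact Real.smoothTransition.le_one _

theorem prof_formula (hR : 0 < R) (hRa : R < a) {z : En n} (hz : z ≠ 0) :
    prof R a z =
      Real.smoothTransition ((Real.log a - Real.log ‖z‖) / (Real.log a - Real.log R)) := by
  unfold prof
  split_ifs with h
  · symm
    apply Real.smoothTransition.one_of_one_le
    have h1 : 0 < Real.log a - Real.log R := sub_pos.2 (Real.log_lt_log hR hRa)
    rw [le_div_iff₀ h1]
    have := Real.log_le_log (norm_pos_iff.2 hz) h.le
    linarith
  · rfl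

theorem prof_eq_one (hR : 0 < R) (hRa : R < a) {z : En n} (hz : ‖z‖ ≤ R) : prof R a z = 1 := by
  rcases hz.lt_or_eq with h | h
  · unfold prof; rw [if_pos h]
  · have hz0 : z ≠ 0 := by
      rintro rfl
      rw [norm_zero] at h
      linarith
    rw [prof_formula hR hRa hz0, h]
    apply Real.smoothTransition.one_of_one_le
    have h1 : 0 < Real.log a - Real.log R := sub_pos.2 (Real.log_lt_log hR hRa)
    rw [div_self h1.ne']

theorem prof_eq_zero (hR : 0 < R) (hRa : R < a) {z : En n} (hz : a ≤ ‖z‖) : prof R a z = 0 := by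
  have hz0 : z ≠ 0 := by
    rintro rfl
    rw [norm_zero] at hz
    linarith
  rw [prof_formula hR hRa hz0]
  apply Real.smoothTransition.zero_of_nonpos
  have h1 : 0 < Real.log a - Real.log R := sub_pos.2 (Real.log_lt_log hR hRa)
  have h2 := Real.log_le_log (hR.trans hRa) hz
  exact div_nonpos_of_nonpos_of_nonneg (by linarith) h1.le

theorem prof_contDiff (hR : 0 < R) (hRa : R < a) :
    ContDiff ℝ (⊤ : ℕ∞) (prof R a : En n → ℝ) := by
  rw [contDiff_iff_contDiffAt]
  intro z
  by_cases hz : z = 0
  · have : (prof R a : En n → ℝ) =ᶠ[𝓝 z] fun _ => (1 : ℝ) := by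
      have hb : ball (0 : En n) R ∈ 𝓝 z := by rw [hz]; exact ball_mem_nhds _ hR
      filter_upwards [hb] with y hy
      rw [mem_ball_zero_iff] at hy
      exact prof_eq_one hR hRa hy.le
    exact contDiffAt_const.congr_of_eventuallyEq this
  · have : (prof R a : En n → ℝ) =ᶠ[𝓝 z] fun y => Real.smoothTransition
        ((Real.log a - Real.log ‖y‖) / (Real.log a - Real.log R)) := by
      filter_upwards [isOpen_ne.mem_nhds hz] with y hy
      exact prof_formula hR hRa hy
    refine ContDiffAt.congr_of_eventuallyEq ?_ this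
    refine Real.smoothTransition.contDiffAt.comp z ?_
    refine ContDiffAt.div_const ?_ _
    refine contDiffAt_const.sub ?_
    exact (contDiffAt_norm ℝ hz).log (norm_ne_zero_iff.2 hz)

theorem prof_fderiv_eq_zero_inner (hR : 0 < R) (hRa : R < a) {z : En n} (hz : ‖z‖ < R) :
    fderiv ℝ (prof R a : En n → ℝ) z = 0 := by
  have : (prof R a : En n → ℝ) =ᶠ[𝓝 z] fun _ => (1 : ℝ) := by
    have hb : ball (0 : En n) R ∈ 𝓝 z := isOpen_ball.mem_nhds (by rwa [mem_ball_zero_iff])
    filter_upwards [hb] with y hy
    rw [mem_ball_zero_iff] at hy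
    exact prof_eq_one hR hRa hy.le
  rw [this.fderiv_eq, fderiv_fun_const]; rfl

theorem prof_fderiv_eq_zero_outer (hR : 0 < R) (hRa : R < a) {z : En n} (hz : a < ‖z‖) :
    fderiv ℝ (prof R a : En n → ℝ) z = 0 := by
  have : (prof R a : En n → ℝ) =ᶠ[𝓝 z] fun _ => (0 : ℝ) := by
    have hb : {y : En n | a < ‖y‖} ∈ 𝓝 z := (isOpen_lt continuous_const continuous_norm).mem_nhds hz
    filter_upwards [hb] with y hy
    exact prof_eq_zero hR hRa (le_of_lt hy)
  rw [this.fderiv_eq, fderiv_fun_const]; rfl

theorem prof_fderiv_le (hR : 0 < R) (hRa : R < a) (z : En n) :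
    ‖fderiv ℝ (prof R a : En n → ℝ) z‖ ≤ CS / ((Real.log a - Real.log R) * ‖z‖) := by
  have hl : 0 < Real.log a - Real.log R := sub_pos.2 (Real.log_lt_log hR hRa)
  by_cases hz : z = 0
  · rw [prof_fderiv_eq_zero_inner hR hRa (by rw [hz, norm_zero]; exact hR), hz]
    simp
  have hz' : 0 < ‖z‖ := norm_pos_iff.2 hz
  have heq : (prof R a : En n → ℝ) =ᶠ[𝓝 z] fun y => Real.smoothTransition
        ((Real.log a - Real.log ‖y‖) / (Real.log a - Real.log R)) := by
    filter_upwards [isOpen_ne.mem_nhds hz] with y hy
    exact prof_formula hR hRa hy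
  rw [heq.fderiv_eq]
  have hn : DifferentiableAt ℝ (fun y : En n => ‖y‖) z :=
    (contDiffAt_norm ℝ hz (n := 1)).differentiableAt one_ne_zero
  have h1 : HasFDerivAt (fun y : En n => (Real.log a - Real.log ‖y‖) /
      (Real.log a - Real.log R))
      ((Real.log a - Real.log R)⁻¹ • (-(‖z‖⁻¹ • fderiv ℝ (fun y : En n => ‖y‖) z))) z := by
    have h2 := (hn.hasFDerivAt.log hz'.ne').const_sub (Real.log a)
    have h3 := h2.mul_const (Real.log a - Real.log R)⁻¹
    simpa only [div_eq_mul_inv] using h3
  have h2 : HasDerivAt Real.smoothTransition (deriv Real.smoothTransition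
      ((Real.log a - Real.log ‖z‖) / (Real.log a - Real.log R)))
      ((Real.log a - Real.log ‖z‖) / (Real.log a - Real.log R)) :=
    ((Real.smoothTransition.contDiff (n := 1)).differentiable one_ne_zero _).hasDerivAt
  have h3 := h2.comp_hasFDerivAt z h1
  have h4 : (fun y : En n => Real.smoothTransition
        ((Real.log a - Real.log ‖y‖) / (Real.log a - Real.log R))) =
      Real.smoothTransition ∘ fun y : En n => (Real.log a - Real.log ‖y‖) /
        (Real.log a - Real.log R) := rfl
  rw [h4, h3.fderiv, norm_smul, norm_smul, norm_neg, norm_smul, Real.norm_eq_abs, Real.norm_eq_abs,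
    Real.norm_eq_abs, abs_of_pos (inv_pos.2 hl), abs_of_pos (inv_pos.2 hz')]
  have h5 : ‖fderiv ℝ (fun y : En n => ‖y‖) z‖ ≤ 1 := by
    have : LipschitzWith 1 (fun y : En n => ‖y‖) := lipschitzWith_one_norm
    simpa using norm_fderiv_le_of_lipschitz ℝ this (x₀ := z)
  have h6 := deriv_step_le ((Real.log a - Real.log ‖z‖) / (Real.log a - Real.log R))
  have hCS : 0 ≤ CS := zero_le_one.trans one_le_CS
  calc _ ≤ CS * ((Real.log a - Real.log R)⁻¹ * (‖z‖⁻¹ * 1)) := by
        gcongr
    _ = CS / ((Real.log a - Real.log R) * ‖z‖) := by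
        field_simp

end prof

end Pool.Lusin
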