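import Pool.Agent.Work.MP_4112db_an.CounterA

/-!
# MP_4112db_an : counterexample, the energy of the radial profile
-/

open MeasureTheory Set Metric Filter
open scoped ENNReal Topology

namespace Pool.Lusin

variable {n : ℕ}

/-- the constant of the energy estimate -/
noncomputable def KE (n : ℕ) : ℝ := n * volume.real (ball (0 : En n) 1) * CS ^ n

theorem KE_nonneg (n : ℕ) : 0 ≤ KE n := by
  have hCS : 0 ≤ CS := zero_le_one.trans one_le_CS
  have := measureReal_nonneg (μ := volume) (s := ball (0 : En n) 1)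
  unfold KE; positivity

theorem prof_energy (hn : 1 ≤ n) {R a : ℝ} (hR : 0 < R) (hRa : R < a) :
    ∫⁻ z, ‖fderiv ℝ (prof R a : En n → ℝ) z‖ₑ ^ n ≤
      ENNReal.ofReal (KE n / (Real.log a - Real.log R) ^ (n - 1)) := by
  have hl : 0 < Real.log a - Real.log R := sub_pos.2 (Real.log_lt_log hR hRa)
  set Λ := Real.log a - Real.log R with hΛ
  have hCS : 0 ≤ CS := zero_le_one.trans one_le_CS
  have hfin : Module.finrank ℝ (En n) = n := by simp [En]
  have : Nontrivial (En n) := by
    apply Module.nontrivial_of_finrank_pos (R := ℝ)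
    rw [hfin]; omega
  set G : ℝ → ℝ := (Icc R a).indicator (fun r => (CS / (Λ * r)) ^ n) with hG
  have hGnn : ∀ r, 0 ≤ G r := by
    intro r
    rw [hG]
    refine indicator_nonneg (fun r hr => ?_) r
    have : 0 < r := hR.trans_le hr.1
    positivity
  have hpt : ∀ z : En n, ‖fderiv ℝ (prof R a : En n → ℝ) z‖ₑ ^ n ≤ ENNReal.ofReal (G ‖z‖) := by
    intro z
    by_cases hz : ‖z‖ ∈ Icc R a
    · rw [hG, indicator_of_mem hz, ← ofReal_norm, ← ENNReal.ofReal_pow (norm_nonneg _)]
      apply ENNReal.ofReal_le_ofReal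
      exact pow_le_pow_left₀ (norm_nonneg _) (prof_fderiv_le hR hRa z) n
    · have h0 : fderiv ℝ (prof R a : En n → ℝ) z = 0 := by
        rw [mem_Icc, not_and_or, not_le, not_le] at hz
        rcases hz with hz | hz
        · exact prof_fderiv_eq_zero_inner hR hRa hz
        · exact prof_fderiv_eq_zero_outer hR hRa hz
      have h1 : ‖fderiv ℝ (prof R a : En n → ℝ) z‖ₑ = 0 := by
        rw [← ofReal_norm, h0, norm_zero, ENNReal.ofReal_zero]
      rw [h1, zero_pow (by omega)]
      exact zero_le
  have hker : ∀ y ∈ Icc R a, y ^ (n - 1) • (CS / (Λ * y)) ^ n = (CS / Λ) ^ n * (1 / y) := by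
    intro y hy
    have hy0 : 0 < y := hR.trans_le hy.1
    have e : y ^ n = y ^ (n - 1) * y := by rw [← pow_succ]; congr 1; omega
    rw [smul_eq_mul, div_pow, div_pow, mul_pow, e]
    field_simp
  have hcont : IntegrableOn (fun y => (CS / Λ) ^ n * (1 / y)) (Icc R a) := by
    apply ContinuousOn.integrableOn_Icc
    apply ContinuousOn.mul continuousOn_const
    apply ContinuousOn.div continuousOn_const continuousOn_id
    intro y hy
    exact (hR.trans_le hy.1).ne'
  have hsub : Icc R a ⊆ Ioi (0 : ℝ) := fun y hy => hR.trans_le hy.1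
  have hfun : (fun y : ℝ => y ^ (Module.finrank ℝ (En n) - 1) • G y) =
      (Icc R a).indicator (fun y => (CS / Λ) ^ n * (1 / y)) := by
    funext y
    rw [hfin]
    by_cases hy : y ∈ Icc R a
    · rw [hG, indicator_of_mem hy, indicator_of_mem hy, hker y hy]
    · rw [hG, indicator_of_notMem hy, indicator_of_notMem hy, smul_zero]
  have hint : Integrable (fun z : En n => G ‖z‖) volume := by
    rw [integrable_fun_norm_addHaar (μ := (volume : Measure (En n))) (f := G), hfun]
    exact (hcont.integrable_indicator measurableSet_Icc).integrableOn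
  have hval : ∫ z : En n, G ‖z‖ = KE n / Λ ^ (n - 1) := by
    rw [integral_fun_norm_addHaar (volume : Measure (En n)) G, hfun, hfin,
      setIntegral_indicator measurableSet_Icc, inter_eq_right.2 hsub,
      integral_const_mul]
    have h1 : ∫ y in Icc R a, 1 / y = Λ := by
      rw [integral_Icc_eq_integral_Ioc, ← intervalIntegral.integral_of_le hRa.le,
        integral_one_div_of_pos hR (hR.trans hRa), Real.log_div (hR.trans hRa).ne' hR.ne']
    rw [h1]
    have e : Λ ^ n = Λ ^ (n - 1) * Λ := by rw [← pow_succ]; congr 1; omega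
    unfold KE
    rw [nsmul_eq_mul, smul_eq_mul, div_pow, e]
    field_simp
  calc ∫⁻ z, ‖fderiv ℝ (prof R a : En n → ℝ) z‖ₑ ^ n ≤ ∫⁻ z : En n, ENNReal.ofReal (G ‖z‖) :=
        lintegral_mono hpt
    _ = ENNReal.ofReal (∫ z : En n, G ‖z‖) :=
        (ofReal_integral_eq_lintegral_ofReal hint (Filter.Eventually.of_forall fun z =>
          hGnn _)).symm
    _ = _ := by rw [hval]

end Pool.Lusin
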