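import Pool.Agent.Work.MP_4112db_an.CounterA2

/-!
# MP_4112db_an : counterexample, the centres
-/

open MeasureTheory Set Metric Filter
open scoped ENNReal Topology

namespace Pool.Lusin

/-- letters: vertices of the unit cube -/
abbrev Letter (n : ℕ) : Type := Fin n → Fin 2

/-- words of length `m` -/
abbrev Word (n m : ℕ) : Type := Fin m → Letter n

variable {n : ℕ}

/-- the vector of a letter -/
noncomputable def vec (b : Letter n) : En n := WithLp.toLp 2 (fun i => ((b i : ℕ) : ℝ))

@[simp] theorem vec_apply (b : Letter n) (i : Fin n) : vec b i = ((b i : ℕ) : ℝ) := rfl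

theorem letter_cases (b : Letter n) (i : Fin n) : ((b i : ℕ) : ℝ) = 0 ∨ ((b i : ℕ) : ℝ) = 1 := by
  have := (b i).isLt
  rcases Nat.lt_or_ge (b i : ℕ) 1 with h | h
  · left; exact_mod_cast (show (b i : ℕ) = 0 by omega)
  · right; exact_mod_cast (show (b i : ℕ) = 1 by omega)

theorem letter_nonneg (b : Letter n) (i : Fin n) : 0 ≤ ((b i : ℕ) : ℝ) := Nat.cast_nonneg _

theorem letter_le_one (b : Letter n) (i : Fin n) : ((b i : ℕ) : ℝ) ≤ 1 := by
  rcases letter_cases b i with h | h <;> rw [h]; exact zero_le_one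

theorem norm_le_sum_coord (v : En n) : ‖v‖ ≤ ∑ i, |v i| := by
  have h : v = ∑ i, EuclideanSpace.single i (v i) := by
    ext j
    simp [Finset.sum_apply]
  conv_lhs => rw [h]
  refine (norm_sum_le _ _).trans ?_
  refine Finset.sum_le_sum fun i _ => ?_
  rw [PiLp.norm_single, Real.norm_eq_abs]

theorem coord_le_norm (v : En n) (i : Fin n) : |v i| ≤ ‖v‖ := by
  rw [← Real.norm_eq_abs]; exact PiLp.norm_apply_le v i

theorem norm_vec_le (b : Letter n) : ‖vec b‖ ≤ n := by
  refine (norm_le_sum_coord _).trans ?_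
  calc ∑ i, |vec b i| ≤ ∑ _i : Fin n, (1 : ℝ) := by
        refine Finset.sum_le_sum fun i _ => ?_
        rw [vec_apply, abs_of_nonneg (letter_nonneg b i)]
        exact letter_le_one b i
    _ = n := by simp

/-- the centre of a word -/
noncomputable def ctr (t : ℕ → ℝ) {m : ℕ} (w : Word n m) : En n := ∑ j : Fin m, t j • vec (w j)

theorem ctr_succ (t : ℕ → ℝ) {m : ℕ} (w : Word n (m + 1)) :
    ctr t w = ctr t (fun j : Fin m => w j.castSucc) + t m • vec (w (Fin.last m)) := by
  unfold ctr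
  rw [Fin.sum_univ_castSucc]
  rfl

/-- separation of the centres -/
theorem ctr_sep {t : ℕ → ℝ} (ht : ∀ k, 0 < t k) (ht4 : ∀ k, 4 * t (k + 1) ≤ t k) :
    ∀ (m : ℕ) (w w' : Word n (m + 1)), w ≠ w' → ∃ i, t m ≤ |ctr t w i - ctr t w' i| := by
  intro m
  have key : ∀ (m : ℕ) (w w' : Word n (m + 1)), (fun j : Fin m => w j.castSucc) =
      (fun j : Fin m => w' j.castSucc) → w ≠ w' → ∃ i, t m ≤ |ctr t w i - ctr t w' i| := by
    intro m w w' h hne
    have h1 : w (Fin.last m) ≠ w' (Fin.last m) := by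
      intro h2
      apply hne
      funext j
      refine Fin.lastCases h2 (fun j => ?_) j
      exact congrFun h j
    obtain ⟨i, hi⟩ := Function.ne_iff.1 h1
    refine ⟨i, ?_⟩
    rw [ctr_succ, ctr_succ, h]
    have e : (ctr t (fun j : Fin m => w' j.castSucc) + t m • vec (w (Fin.last m))) i -
        (ctr t (fun j : Fin m => w' j.castSucc) + t m • vec (w' (Fin.last m))) i =
        t m * (((w (Fin.last m) i : ℕ) : ℝ) - ((w' (Fin.last m) i : ℕ) : ℝ)) := by
      simp only [PiLp.add_apply, PiLp.smul_apply, vec_apply, smul_eq_mul]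
      ring
    rw [e, abs_mul, abs_of_pos (ht m)]
    have h3 : (1 : ℝ) ≤ |((w (Fin.last m) i : ℕ) : ℝ) - ((w' (Fin.last m) i : ℕ) : ℝ)| := by
      have h4 : ((w (Fin.last m) i : ℕ) : ℤ) ≠ ((w' (Fin.last m) i : ℕ) : ℤ) := by
        intro h5
        exact hi (Fin.ext (by exact_mod_cast h5))
      have h5 : (1 : ℤ) ≤ |((w (Fin.last m) i : ℕ) : ℤ) - ((w' (Fin.last m) i : ℕ) : ℤ)| :=
        Int.one_le_abs (sub_ne_zero.2 h4)
      exact_mod_cast h5
    have := ht m
    nlinarith
  induction m with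
  | zero =>
    intro w w' hne
    exact key 0 w w' (funext fun j => j.elim0) hne
  | succ m ih =>
    intro w w' hne
    by_cases h : (fun j : Fin (m + 1) => w j.castSucc) = (fun j : Fin (m + 1) => w' j.castSucc)
    · exact key (m + 1) w w' h hne
    · obtain ⟨i, hi⟩ := ih _ _ h
      refine ⟨i, ?_⟩
      rw [ctr_succ t w, ctr_succ t w']
      have e : (ctr t (fun j : Fin (m + 1) => w j.castSucc) +
          t (m + 1) • vec (w (Fin.last (m + 1)))) i -
          (ctr t (fun j : Fin (m + 1) => w' j.castSucc) +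
            t (m + 1) • vec (w' (Fin.last (m + 1)))) i =
          (ctr t (fun j : Fin (m + 1) => w j.castSucc) i -
            ctr t (fun j : Fin (m + 1) => w' j.castSucc) i) +
          t (m + 1) * (((w (Fin.last (m + 1)) i : ℕ) : ℝ) -
            ((w' (Fin.last (m + 1)) i : ℕ) : ℝ)) := by
        simp only [PiLp.add_apply, PiLp.smul_apply, vec_apply, smul_eq_mul]
        ring
      rw [e]
      have h1 : |t (m + 1) * (((w (Fin.last (m + 1)) i : ℕ) : ℝ) -
            ((w' (Fin.last (m + 1)) i : ℕ) : ℝ))| ≤ t (m + 1) := by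
        rw [abs_mul, abs_of_pos (ht _)]
        have h2 : |((w (Fin.last (m + 1)) i : ℕ) : ℝ) - ((w' (Fin.last (m + 1)) i : ℕ) : ℝ)| ≤ 1 := by
          rw [abs_le]
          have a1 := letter_nonneg (w (Fin.last (m + 1))) i
          have a2 := letter_le_one (w (Fin.last (m + 1))) i
          have a3 := letter_nonneg (w' (Fin.last (m + 1))) i
          have a4 := letter_le_one (w' (Fin.last (m + 1))) i
          constructor <;> linarith
        have := ht (m + 1)
        nlinarith
      have h2 := abs_sub_abs_le_abs_sub (ctr t (fun j : Fin (m + 1) => w j.castSucc) i -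
            ctr t (fun j : Fin (m + 1) => w' j.castSucc) i)
          (-(t (m + 1) * (((w (Fin.last (m + 1)) i : ℕ) : ℝ) -
            ((w' (Fin.last (m + 1)) i : ℕ) : ℝ))))
      rw [abs_neg, sub_neg_eq_add] at h2
      have h3 := ht4 m
      have h4 := ht (m + 1)
      linarith

theorem ctr_sep_norm {t : ℕ → ℝ} (ht : ∀ k, 0 < t k) (ht4 : ∀ k, 4 * t (k + 1) ≤ t k)
    {m : ℕ} {w w' : Word n (m + 1)} (h : w ≠ w') : t m ≤ ‖ctr t w - ctr t w'‖ := by
  obtain ⟨i, hi⟩ := ctr_sep ht ht4 m w w' h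
  exact hi.trans (coord_le_norm (ctr t w - ctr t w') i)

/-- restriction of a word -/
def pre {m m' : ℕ} (h : m ≤ m') (w : Word n m') : Word n m := fun j => w (Fin.castLE h j)

theorem ctr_pre {t : ℕ → ℝ} (ht : ∀ k, 0 < t k) (ht4 : ∀ k, 4 * t (k + 1) ≤ t k) {m m' : ℕ}
    (h : m ≤ m') (w : Word n m') :
    ‖ctr t w - ctr t (pre h w)‖ ≤ 2 * n * (t m - t m') := by
  induction m', h using Nat.le_induction with
  | base =>
    have : pre le_rfl w = w := rfl
    rw [this]; simp
  | succ m' h ih =>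
    have h1 := ih (fun j => w j.castSucc)
    have e : pre h (fun j : Fin m' => w j.castSucc) = pre (h.trans (Nat.le_succ m')) w := rfl
    rw [e] at h1
    rw [ctr_succ t w]
    have h2 : ‖ctr t (fun j : Fin m' => w j.castSucc) + t m' • vec (w (Fin.last m')) -
        ctr t (pre (h.trans (Nat.le_succ m')) w)‖ ≤ 2 * n * (t m - t m') + t m' * n := by
      rw [add_sub_right_comm]
      refine (norm_add_le _ _).trans (add_le_add h1 ?_)
      rw [norm_smul, Real.norm_eq_abs, abs_of_pos (ht _)]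
      exact mul_le_mul_of_nonneg_left (norm_vec_le _) (ht _).le
    refine h2.trans ?_
    have h3 := ht4 m'
    have h4 := ht (m' + 1)
    have h5 : (0 : ℝ) ≤ n := Nat.cast_nonneg n
    nlinarith

end Pool.Lusin
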