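import Pool.Agent.Work.MP_4112db_an.CounterB

/-!
# MP_4112db_an : counterexample, the level functions
-/

open MeasureTheory Set Metric Filter
open scoped ENNReal Topology

namespace Pool.Lusin

variable {n : ℕ}

/-- the radii decrease fast -/
structure Radii (n : ℕ) (R : ℕ → ℝ) : Prop where
  hn : 1 ≤ n
  pos : ∀ k, 0 < R k
  dec : ∀ k, 64 * n * R (k + 1) ≤ R k

/-- displacements -/
noncomputable def tt (n : ℕ) (R : ℕ → ℝ) (k : ℕ) : ℝ := R k / (4 * n)
/-- outer radii -/
noncomputable def aa (n : ℕ) (R : ℕ → ℝ) (k : ℕ) : ℝ := R k / (16 * n)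
/-- moduli of the rings -/
noncomputable def lam (n : ℕ) (R : ℕ → ℝ) (k : ℕ) : ℝ :=
  Real.log (aa n R k) - Real.log (R (k + 1))

section basic
variable {R : ℕ → ℝ} (hR : Radii n R)
include hR

theorem Radii.n_pos : (1 : ℝ) ≤ n := by exact_mod_cast hR.hn

theorem Radii.dec4 (k : ℕ) : 64 * R (k + 1) ≤ R k := by
  have h1 := hR.n_pos
  have h2 := hR.pos (k + 1)
  have h3 := hR.dec k
  nlinarith

theorem Radii.tt_pos (k : ℕ) : 0 < tt n R k := by
  have := hR.n_pos
  have := hR.pos k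
  unfold tt; positivity

theorem Radii.aa_pos (k : ℕ) : 0 < aa n R k := by
  have := hR.n_pos
  have := hR.pos k
  unfold aa; positivity

theorem Radii.tt4 (k : ℕ) : 4 * tt n R (k + 1) ≤ tt n R k := by
  have h1 := hR.n_pos
  have h3 := hR.dec4 k
  have h2 := hR.pos (k + 1)
  unfold tt
  rw [mul_div_assoc']
  gcongr
  linarith

theorem Radii.aa_eq (k : ℕ) : 4 * aa n R k = tt n R k := by
  have h1 := hR.n_pos
  unfold aa tt
  field_simp
  ring

theorem Radii.R_le_aa (k : ℕ) : 4 * R (k + 1) ≤ aa n R k := by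
  have h1 := hR.n_pos
  have h2 := hR.dec k
  unfold aa
  rw [le_div_iff₀ (by positivity)]
  nlinarith

theorem Radii.R_lt_aa (k : ℕ) : R (k + 1) < aa n R k := by
  have h1 := hR.R_le_aa k
  have h2 := hR.pos (k + 1)
  linarith

theorem Radii.one_le_lam (k : ℕ) : 1 ≤ lam n R k := by
  have h1 := hR.R_le_aa k
  have h2 := hR.pos (k + 1)
  unfold lam
  have h3 : Real.log (4 * R (k + 1)) ≤ Real.log (aa n R k) := Real.log_le_log (by positivity) h1
  rw [Real.log_mul (by norm_num) h2.ne'] at h3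
  have h4 : 1 ≤ Real.log 4 := by
    have : (4 : ℝ) = 2 ^ 2 := by norm_num
    rw [this, Real.log_pow]
    have := Real.log_two_gt_d9
    push_cast
    linarith
  linarith

theorem Radii.anti {k l : ℕ} (h : k ≤ l) : R l ≤ R k := by
  induction l, h using Nat.le_induction with
  | base => exact le_rfl
  | succ l h ih =>
    have h1 := hR.dec4 l
    have h2 := hR.pos (l + 1)
    linarith

theorem Radii.decay {k l : ℕ} (h : k ≤ l) : (4 : ℝ) ^ (l - k) * R l ≤ R k := by
  induction l, h using Nat.le_induction with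
  | base => simp
  | succ l h ih =>
    have h1 := hR.dec4 l
    have h2 := hR.pos (l + 1)
    have h3 : l + 1 - k = (l - k) + 1 := by omega
    rw [h3, pow_succ]
    have h4 : (0 : ℝ) < 4 ^ (l - k) := by positivity
    nlinarith

theorem Radii.unique {k : ℕ} {w w' : Word n (k + 1)} {x : En n}
    (h : ‖x - ctr (tt n R) w‖ ≤ aa n R k) (h' : ‖x - ctr (tt n R) w'‖ ≤ aa n R k) : w = w' := by
  by_contra hne
  have h1 := ctr_sep_norm hR.tt_pos hR.tt4 hne
  have h2 : ‖ctr (tt n R) w - ctr (tt n R) w'‖ ≤ aa n R k + aa n R k := by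
    have : ctr (tt n R) w - ctr (tt n R) w' =
        (x - ctr (tt n R) w') - (x - ctr (tt n R) w) := by abel
    rw [this]
    exact (norm_sub_le _ _).trans (add_le_add h' h)
  have h3 := hR.aa_eq k
  have h4 := hR.aa_pos k
  linarith

end basic

/-- the component functions of the level maps -/
noncomputable def PP (n : ℕ) (R : ℕ → ℝ) (k : ℕ) (j : Fin n) (x : En n) : ℝ :=
  (1 / 2 : ℝ) ^ (k + 1) * ∑ w : Word n (k + 1),
    ((w (Fin.last k) j : ℕ) : ℝ) * prof (R (k + 1)) (aa n R k) (x - ctr (tt n R) w)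

section PPsec
variable {R : ℕ → ℝ} (hR : Radii n R)
include hR

theorem PP_active {k : ℕ} (j : Fin n) {w : Word n (k + 1)} {x : En n}
    (h : ‖x - ctr (tt n R) w‖ ≤ aa n R k) :
    PP n R k j x = (1 / 2 : ℝ) ^ (k + 1) * (((w (Fin.last k) j : ℕ) : ℝ) *
      prof (R (k + 1)) (aa n R k) (x - ctr (tt n R) w)) := by
  unfold PP
  rw [Finset.sum_eq_single w]
  · intro w' _ hne
    rw [prof_eq_zero (hR.pos _) (hR.R_lt_aa k), mul_zero]
    by_contra hc
    push Not at hc
    exact hne (hR.unique hc.le h)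
  · intro h; exact absurd (Finset.mem_univ _) h

theorem PP_inactive {k : ℕ} (j : Fin n) {x : En n}
    (h : ∀ w : Word n (k + 1), aa n R k ≤ ‖x - ctr (tt n R) w‖) : PP n R k j x = 0 := by
  unfold PP
  rw [Finset.sum_eq_zero, mul_zero]
  intro w _
  rw [prof_eq_zero (hR.pos _) (hR.R_lt_aa k) (h w), mul_zero]

omit hR in
theorem PP_nonneg (k : ℕ) (j : Fin n) (x : En n) : 0 ≤ PP n R k j x := by
  unfold PP
  refine mul_nonneg (by positivity) (Finset.sum_nonneg fun w _ => ?_)
  exact mul_nonneg (Nat.cast_nonneg _) (prof_nonneg _)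

theorem PP_le (k : ℕ) (j : Fin n) (x : En n) : PP n R k j x ≤ (1 / 2 : ℝ) ^ (k + 1) := by
  by_cases h : ∃ w : Word n (k + 1), ‖x - ctr (tt n R) w‖ ≤ aa n R k
  · obtain ⟨w, hw⟩ := h
    rw [PP_active hR j hw]
    have h1 := letter_le_one (w (Fin.last k)) j
    have h2 := letter_nonneg (w (Fin.last k)) j
    have h3 : prof (R (k + 1)) (aa n R k) (x - ctr (tt n R) w) ≤ 1 := prof_le_one _
    have h4 : 0 ≤ prof (R (k + 1)) (aa n R k) (x - ctr (tt n R) w) := prof_nonneg _
    have h5 : ((w (Fin.last k) j : ℕ) : ℝ) *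
      prof (R (k + 1)) (aa n R k) (x - ctr (tt n R) w) ≤ 1 := by nlinarith
    have h6 : (0 : ℝ) < (1 / 2) ^ (k + 1) := by positivity
    nlinarith
  · push Not at h
    rw [PP_inactive hR j fun w => (h w).le]
    positivity

theorem PP_contDiff (k : ℕ) (j : Fin n) : ContDiff ℝ (⊤ : ℕ∞) (PP n R k j) := by
  unfold PP
  refine contDiff_const.mul (ContDiff.sum fun w _ => contDiff_const.mul ?_)
  exact (prof_contDiff (hR.pos _) (hR.R_lt_aa k)).comp (contDiff_id.sub contDiff_const)

omit hR in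
/-- derivative of the cut-off of a word -/
noncomputable def DD (n : ℕ) (R : ℕ → ℝ) (k : ℕ) (w : Word n (k + 1)) (x : En n) :
    En n →L[ℝ] ℝ :=
  fderiv ℝ (prof (R (k + 1)) (aa n R k) : En n → ℝ) (x - ctr (tt n R) w)

theorem DD_ring {k : ℕ} {w : Word n (k + 1)} {x : En n} (h : DD n R k w x ≠ 0) :
    R (k + 1) ≤ ‖x - ctr (tt n R) w‖ ∧ ‖x - ctr (tt n R) w‖ ≤ aa n R k := by
  constructor
  · by_contra hc
    push Not at hc
    exact h (prof_fderiv_eq_zero_inner (hR.pos _) (hR.R_lt_aa k) hc)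
  · by_contra hc
    push Not at hc
    exact h (prof_fderiv_eq_zero_outer (hR.pos _) (hR.R_lt_aa k) hc)

theorem PP_fderiv (k : ℕ) (j : Fin n) (x : En n) :
    fderiv ℝ (PP n R k j) x = (1 / 2 : ℝ) ^ (k + 1) • ∑ w : Word n (k + 1),
      ((w (Fin.last k) j : ℕ) : ℝ) • DD n R k w x := by
  have h1 : ∀ w : Word n (k + 1), HasFDerivAt (fun x => ((w (Fin.last k) j : ℕ) : ℝ) *
      prof (R (k + 1)) (aa n R k) (x - ctr (tt n R) w))
      (((w (Fin.last k) j : ℕ) : ℝ) • DD n R k w x) x := by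
    intro w
    have h2 : HasFDerivAt (prof (R (k + 1)) (aa n R k) : En n → ℝ) (DD n R k w x)
        (x - ctr (tt n R) w) :=
      (((prof_contDiff (hR.pos _) (hR.R_lt_aa k)).differentiable (by simp)) _).hasFDerivAt
    have h3 : HasFDerivAt (fun x : En n => prof (R (k + 1)) (aa n R k) (x - ctr (tt n R) w))
        (DD n R k w x) x := by
      have h4 := h2.comp x ((hasFDerivAt_id (𝕜 := ℝ) x).sub_const (ctr (tt n R) w))
      rwa [ContinuousLinearMap.comp_id] at h4
    exact h3.const_mul _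
  have h4 := (HasFDerivAt.fun_sum (u := Finset.univ) fun w _ => h1 w).const_mul
    ((1 / 2 : ℝ) ^ (k + 1))
  exact h4.fderiv

theorem PP_fderiv_active {k : ℕ} (j : Fin n) {w : Word n (k + 1)} {x : En n}
    (h : ‖x - ctr (tt n R) w‖ ≤ aa n R k) :
    fderiv ℝ (PP n R k j) x = (1 / 2 : ℝ) ^ (k + 1) •
      ((w (Fin.last k) j : ℕ) : ℝ) • DD n R k w x := by
  rw [PP_fderiv hR, Finset.sum_eq_single w]
  · intro w' _ hne
    have : DD n R k w' x = 0 := by
      by_contra hc
      exact hne (hR.unique (DD_ring hR hc).2 h)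
    rw [this, smul_zero]
  · intro h; exact absurd (Finset.mem_univ _) h

theorem PP_fderiv_inactive {k : ℕ} (j : Fin n) {x : En n}
    (h : ∀ w : Word n (k + 1), aa n R k < ‖x - ctr (tt n R) w‖) :
    fderiv ℝ (PP n R k j) x = 0 := by
  rw [PP_fderiv hR, Finset.sum_eq_zero, smul_zero]
  intro w _
  have : DD n R k w x = 0 := by
    by_contra hc
    exact absurd (DD_ring hR hc).2 (not_le.2 (h w))
  rw [this, smul_zero]

/-- active ring -/
theorem PP_fderiv_ne {k : ℕ} {j : Fin n} {x : En n} (h : fderiv ℝ (PP n R k j) x ≠ 0) :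
    ∃ w : Word n (k + 1), R (k + 1) ≤ ‖x - ctr (tt n R) w‖ ∧
      ‖x - ctr (tt n R) w‖ ≤ aa n R k := by
  by_contra hc
  push Not at hc
  apply h
  rw [PP_fderiv hR, Finset.sum_eq_zero, smul_zero]
  intro w _
  have : DD n R k w x = 0 := by
    by_contra hc'
    have := DD_ring hR hc'
    exact absurd this.2 (not_le.2 (hc w this.1))
  rw [this, smul_zero]

theorem PP_fderiv_norm_le (k : ℕ) (j : Fin n) (x : En n) :
    ‖fderiv ℝ (PP n R k j) x‖ ≤ (1 / 2 : ℝ) ^ (k + 1) * (CS / R (k + 1)) := by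
  have hCS : 0 ≤ CS := zero_le_one.trans one_le_CS
  have hRp := hR.pos (k + 1)
  by_cases h : ∃ w : Word n (k + 1), ‖x - ctr (tt n R) w‖ ≤ aa n R k
  · obtain ⟨w, hw⟩ := h
    rw [PP_fderiv_active hR j hw, norm_smul, norm_smul, Real.norm_eq_abs, Real.norm_eq_abs,
      abs_of_nonneg (by positivity : (0 : ℝ) ≤ (1 / 2) ^ (k + 1)),
      abs_of_nonneg (letter_nonneg _ _)]
    have h1 : ‖DD n R k w x‖ ≤ CS / R (k + 1) := by
      by_cases h0 : DD n R k w x = 0
      · rw [h0, norm_zero]; positivity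
      · have h2 := (DD_ring hR h0).1
        refine (prof_fderiv_le (hR.pos _) (hR.R_lt_aa k) _).trans ?_
        have h3 : R (k + 1) ≤ lam n R k * ‖x - ctr (tt n R) w‖ := by
          have := hR.one_le_lam k
          nlinarith
        exact div_le_div_of_nonneg_left hCS hRp h3
    have h2 := letter_le_one (w (Fin.last k)) j
    have h3 := letter_nonneg (w (Fin.last k)) j
    refine mul_le_mul_of_nonneg_left ?_ (by positivity)
    calc _ ≤ 1 * ‖DD n R k w x‖ := mul_le_mul_of_nonneg_right h2 (norm_nonneg _)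
      _ ≤ _ := by rw [one_mul]; exact h1
  · push Not at h
    rw [PP_fderiv_inactive hR j h, norm_zero]
    positivity

theorem PP_lip (k : ℕ) (j : Fin n) (x y : En n) :
    |PP n R k j x - PP n R k j y| ≤ (1 / 2 : ℝ) ^ (k + 1) * (CS / R (k + 1)) * ‖x - y‖ := by
  have h := Convex.norm_image_sub_le_of_norm_fderiv_le (𝕜 := ℝ) (f := PP n R k j)
    (s := univ) (x := y) (y := x) (C := (1 / 2 : ℝ) ^ (k + 1) * (CS / R (k + 1)))
    (fun z _ => ((PP_contDiff hR k j).differentiable (by simp)) z)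
    (fun z _ => PP_fderiv_norm_le hR k j z) convex_univ (mem_univ _) (mem_univ _)
  rwa [Real.norm_eq_abs] at h

theorem PP_abs_sub_le (k : ℕ) (j : Fin n) (x y : En n) :
    |PP n R k j x - PP n R k j y| ≤ (1 / 2 : ℝ) ^ (k + 1) := by
  have h1 := PP_nonneg (R := R) k j x
  have h2 := PP_nonneg (R := R) k j y
  have h3 := PP_le hR k j x
  have h4 := PP_le hR k j y
  rw [abs_le]
  constructor <;> linarith

/-- the gradients of different levels have disjoint supports -/
theorem PP_fderiv_disjoint {k k' : ℕ} (hkk : k < k') {j j' : Fin n} {x : En n}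
    (h : fderiv ℝ (PP n R k j) x ≠ 0) : fderiv ℝ (PP n R k' j') x = 0 := by
  by_contra h'
  obtain ⟨w, hw1, hw2⟩ := PP_fderiv_ne hR h
  obtain ⟨w', hw1', hw2'⟩ := PP_fderiv_ne hR h'
  have hle : k + 1 ≤ k' + 1 := by omega
  have h1 := ctr_pre hR.tt_pos hR.tt4 hle w'
  have h2 : 2 * n * (tt n R (k + 1) - tt n R (k' + 1)) ≤ R (k + 1) / 2 := by
    have h3 := hR.tt_pos (k' + 1)
    have h4 := hR.n_pos
    have h5 : 2 * n * tt n R (k + 1) = R (k + 1) / 2 := by
      unfold tt; field_simp; ring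
    nlinarith
  have h3 : aa n R k' ≤ R (k + 1) / 16 := by
    have h4 := hR.n_pos
    have h5 := hR.anti (show k + 1 ≤ k' by omega)
    have h6 := hR.pos k'
    unfold aa
    have h7 : R k' / (16 * n) ≤ R k' / 16 := by
      apply div_le_div_of_nonneg_left h6.le (by norm_num)
      linarith
    linarith
  have h4 : ‖x - ctr (tt n R) (pre hle w')‖ < R (k + 1) := by
    have : x - ctr (tt n R) (pre hle w') = (x - ctr (tt n R) w') +
        (ctr (tt n R) w' - ctr (tt n R) (pre hle w')) := by abel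
    rw [this]
    refine (norm_add_le _ _).trans_lt ?_
    have := hR.pos (k + 1)
    linarith
  have h5 := hR.R_lt_aa k
  have h6 := hR.unique (h4.le.trans h5.le) hw2
  rw [h6] at h4
  linarith

end PPsec

end Pool.Lusin
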