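import Pool.Agent.Work.MP_4112db_an.CounterC

/-!
# MP_4112db_an : counterexample, the map and its weak derivative
-/

open MeasureTheory Set Metric Filter
open scoped ENNReal Topology

namespace Pool.Lusin

variable {n : ℕ}

section single
variable {α : Type*}

/-- at most one nonzero term: power of the sum -/
theorem enorm_sum_pow_le_of_single {ι : Type*} (s : Finset ι) {F : Type*} [NormedAddCommGroup F]
    (f : ι → F) (h : ∀ i ∈ s, ∀ j ∈ s, f i ≠ 0 → f j ≠ 0 → i = j) {m : ℕ} (hm : 1 ≤ m) :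
    ‖∑ i ∈ s, f i‖ₑ ^ m ≤ ∑ i ∈ s, ‖f i‖ₑ ^ m := by
  by_cases h0 : ∃ i ∈ s, f i ≠ 0
  · obtain ⟨i, hi, hfi⟩ := h0
    rw [Finset.sum_eq_single_of_mem i hi]
    · exact Finset.single_le_sum (f := fun i => ‖f i‖ₑ ^ m) (fun _ _ => zero_le) hi
    · intro j hj hji
      by_contra hfj
      exact hji (h j hj i hi hfj hfi)
  · push Not at h0
    rw [Finset.sum_eq_zero h0]
    have : ‖(0 : F)‖ₑ ^ m = 0 := by
      rw [← ofReal_norm, norm_zero, ENNReal.ofReal_zero, zero_pow (by omega)]
    rw [this]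
    exact zero_le

end single

section energy
variable {R : ℕ → ℝ} (hR : Radii n R)
include hR

theorem PP_energy (k : ℕ) (j : Fin n) :
    ∫⁻ x, ‖fderiv ℝ (PP n R k j) x‖ₑ ^ n ≤ ENNReal.ofReal (KE n / (lam n R k) ^ (n - 1)) := by
  have hn := hR.hn
  have hpt : ∀ x : En n, ‖fderiv ℝ (PP n R k j) x‖ₑ ^ n ≤
      ENNReal.ofReal (((1 / 2 : ℝ) ^ (k + 1)) ^ n) *
        ∑ w : Word n (k + 1), ‖DD n R k w x‖ₑ ^ n := by
    intro x
    rw [PP_fderiv hR, enorm_smul, mul_pow]
    have e1 : ‖(1 / 2 : ℝ) ^ (k + 1)‖ₑ ^ n = ENNReal.ofReal (((1 / 2 : ℝ) ^ (k + 1)) ^ n) := by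
      rw [Real.enorm_eq_ofReal (by positivity)]
      exact (ENNReal.ofReal_pow (by positivity) n).symm
    rw [e1]
    gcongr
    refine (enorm_sum_pow_le_of_single _ _ ?_ hn).trans ?_
    · intro w _ w' _ h h'
      have h1 : DD n R k w x ≠ 0 := fun h0 => h (by rw [h0, smul_zero])
      have h2 : DD n R k w' x ≠ 0 := fun h0 => h' (by rw [h0, smul_zero])
      exact hR.unique (DD_ring hR h1).2 (DD_ring hR h2).2
    · refine Finset.sum_le_sum fun w _ => ?_
      rw [enorm_smul]
      have : ‖((w (Fin.last k) j : ℕ) : ℝ)‖ₑ ≤ 1 := by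
        rw [Real.enorm_eq_ofReal (letter_nonneg _ _), ← ENNReal.ofReal_one]
        exact ENNReal.ofReal_le_ofReal (letter_le_one _ _)
      calc (‖((w (Fin.last k) j : ℕ) : ℝ)‖ₑ * ‖DD n R k w x‖ₑ) ^ n
          ≤ (1 * ‖DD n R k w x‖ₑ) ^ n := by gcongr
        _ = _ := by rw [one_mul]
  have hmeas : ∀ w : Word n (k + 1), Measurable (fun x : En n => ‖DD n R k w x‖ₑ ^ n) := by
    intro w
    unfold DD
    have h1 : Continuous (fun x : En n => fderiv ℝ (prof (R (k + 1)) (aa n R k) : En n → ℝ)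
        (x - ctr (tt n R) w)) :=
      ((prof_contDiff (hR.pos _) (hR.R_lt_aa k)).continuous_fderiv (by simp)).comp
        (continuous_id.sub continuous_const)
    exact (h1.enorm.measurable).pow_const n
  calc ∫⁻ x, ‖fderiv ℝ (PP n R k j) x‖ₑ ^ n
      ≤ ∫⁻ x, ENNReal.ofReal (((1 / 2 : ℝ) ^ (k + 1)) ^ n) *
        ∑ w : Word n (k + 1), ‖DD n R k w x‖ₑ ^ n := lintegral_mono hpt
    _ = ENNReal.ofReal (((1 / 2 : ℝ) ^ (k + 1)) ^ n) *
        ∑ w : Word n (k + 1), ∫⁻ x, ‖DD n R k w x‖ₑ ^ n := by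
        rw [lintegral_const_mul' _ _ ENNReal.ofReal_ne_top,
          lintegral_finsetSum _ fun w _ => hmeas w]
    _ ≤ ENNReal.ofReal (((1 / 2 : ℝ) ^ (k + 1)) ^ n) *
        ∑ _w : Word n (k + 1), ENNReal.ofReal (KE n / (lam n R k) ^ (n - 1)) := by
        gcongr with w _
        have h1 : ∫⁻ x, ‖DD n R k w x‖ₑ ^ n =
            ∫⁻ x, ‖fderiv ℝ (prof (R (k + 1)) (aa n R k) : En n → ℝ) x‖ₑ ^ n :=
          lintegral_sub_right_eq_self (μ := volume)
            (fun x : En n => ‖fderiv ℝ (prof (R (k + 1)) (aa n R k) : En n → ℝ) x‖ₑ ^ n)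
            (ctr (tt n R) w)
        rw [h1]
        exact prof_energy hn (hR.pos _) (hR.R_lt_aa k)
    _ = ENNReal.ofReal (KE n / (lam n R k) ^ (n - 1)) := by
        rw [Finset.sum_const, Finset.card_univ, nsmul_eq_mul, ← mul_assoc]
        have e1 : ENNReal.ofReal (((1 / 2 : ℝ) ^ (k + 1)) ^ n) *
            (Fintype.card (Word n (k + 1)) : ℝ≥0∞) = 1 := by
          have e2 : Fintype.card (Word n (k + 1)) = (2 ^ n) ^ (k + 1) := by
            simp [Word, Letter]
          rw [e2, ← ENNReal.ofReal_natCast, ← ENNReal.ofReal_mul (by positivity)]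
          have e3 : ((1 / 2 : ℝ) ^ (k + 1)) ^ n * (((2 ^ n) ^ (k + 1) : ℕ) : ℝ) = 1 := by
            push_cast
            rw [← pow_mul, ← pow_mul, mul_comm n (k + 1), ← mul_pow]
            norm_num
          rw [e3, ENNReal.ofReal_one]
        rw [e1, one_mul]

/-- the component functions of the map -/
noncomputable def ff (n : ℕ) (R : ℕ → ℝ) (j : Fin n) (x : En n) : ℝ := ∑' k, PP n R k j x

/-- its partial derivatives -/
noncomputable def gg (n : ℕ) (R : ℕ → ℝ) (i j : Fin n) (x : En n) : ℝ :=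
  ∑' k, fderiv ℝ (PP n R k j) x (EuclideanSpace.single i (1 : ℝ))

omit hR in
theorem summable_geo : Summable (fun k : ℕ => (1 / 2 : ℝ) ^ (k + 1)) := by
  have := (summable_geometric_of_lt_one (r := (1 / 2 : ℝ)) (by norm_num) (by norm_num))
  exact (summable_nat_add_iff 1).2 this

omit hR in
theorem tsum_geo : ∑' k : ℕ, (1 / 2 : ℝ) ^ (k + 1) = 1 := by
  have h1 : ∑' k : ℕ, (1 / 2 : ℝ) ^ (k + 1) = (1 / 2) * ∑' k : ℕ, (1 / 2 : ℝ) ^ k := by
    rw [← tsum_mul_left]
    exact tsum_congr fun k => by ring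
  rw [h1, tsum_geometric_of_lt_one (by norm_num) (by norm_num)]
  norm_num

theorem PP_norm_le (k : ℕ) (j : Fin n) (x : En n) : ‖PP n R k j x‖ ≤ (1 / 2 : ℝ) ^ (k + 1) := by
  rw [Real.norm_eq_abs, abs_of_nonneg (PP_nonneg k j x)]
  exact PP_le hR k j x

theorem PP_summable (j : Fin n) (x : En n) : Summable (fun k => PP n R k j x) :=
  Summable.of_norm_bounded summable_geo fun k => PP_norm_le hR k j x

theorem ff_continuous (j : Fin n) : Continuous (ff n R j) :=
  continuous_tsum (fun k => (PP_contDiff hR k j).continuous) summable_geo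
    fun k x => PP_norm_le hR k j x

theorem PP_support (k : ℕ) (j : Fin n) {x : En n} (hx : R 0 < ‖x‖) : PP n R k j x = 0 := by
  refine PP_inactive hR j fun w => ?_
  have h1 := ctr_pre hR.tt_pos hR.tt4 (Nat.zero_le (k + 1)) w
  have h0 : ctr (tt n R) (pre (Nat.zero_le (k + 1)) w) = 0 := by
    unfold ctr; simp
  rw [h0, sub_zero] at h1
  have h2 : 2 * n * (tt n R 0 - tt n R (k + 1)) ≤ R 0 / 2 := by
    have h3 := hR.tt_pos (k + 1)
    have h4 := hR.n_pos
    have h5 : 2 * n * tt n R 0 = R 0 / 2 := by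
      unfold tt; field_simp; ring
    nlinarith
  have h3 : aa n R k ≤ R 0 / 16 := by
    have h4 := hR.n_pos
    have h5 := hR.anti (Nat.zero_le k)
    have h6 := hR.pos k
    unfold aa
    have h7 : R k / (16 * n) ≤ R k / 16 := by
      apply div_le_div_of_nonneg_left h6.le (by norm_num)
      linarith
    linarith
  have h4 : ‖x‖ - ‖ctr (tt n R) w‖ ≤ ‖x - ctr (tt n R) w‖ := norm_sub_norm_le _ _
  have := hR.pos 0
  linarith

theorem ff_support (j : Fin n) {x : En n} (hx : R 0 < ‖x‖) : ff n R j x = 0 := by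
  unfold ff
  simp only [PP_support hR _ j hx, tsum_zero]

theorem ff_hasCompactSupport (j : Fin n) : HasCompactSupport (ff n R j) := by
  refine HasCompactSupport.of_support_subset_isCompact (isCompact_closedBall (0 : En n) (R 0)) ?_
  intro x hx
  rw [mem_closedBall_zero_iff]
  by_contra hc
  push Not at hc
  exact hx (ff_support hR j hc)

theorem ff_memLp (j : Fin n) : MemLp (ff n R j) (n : ℝ≥0∞) (volume.restrict univ) := by
  rw [Measure.restrict_univ]
  exact (ff_continuous hR j).memLp_of_hasCompactSupport (ff_hasCompactSupport hR j)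

omit hR in
theorem enorm_partial_le (k : ℕ) (i j : Fin n) (x : En n) :
    ‖fderiv ℝ (PP n R k j) x (EuclideanSpace.single i (1 : ℝ))‖ₑ ≤
      ‖fderiv ℝ (PP n R k j) x‖ₑ := by
  rw [← ofReal_norm, ← ofReal_norm]
  apply ENNReal.ofReal_le_ofReal
  have := (fderiv ℝ (PP n R k j) x).le_opNorm (EuclideanSpace.single i (1 : ℝ))
  rwa [PiLp.norm_single, norm_one, mul_one] at this

/-- at most one level is active -/
theorem level_unique (i j : Fin n) (x : En n) :
    (∀ k, fderiv ℝ (PP n R k j) x (EuclideanSpace.single i (1 : ℝ)) = 0) ∨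
    ∃ k0, ∀ k, k ≠ k0 → fderiv ℝ (PP n R k j) x = 0 := by
  by_cases h : ∃ k0, fderiv ℝ (PP n R k0 j) x ≠ 0
  · obtain ⟨k0, hk0⟩ := h
    right
    refine ⟨k0, fun k hk => ?_⟩
    rcases Nat.lt_or_gt_of_ne hk with h | h
    · by_contra hc
      exact hk0 (PP_fderiv_disjoint hR h hc)
    · exact PP_fderiv_disjoint hR h hk0
  · push Not at h
    left
    intro k
    rw [h k]; rfl

theorem gg_summable (i j : Fin n) (x : En n) :
    Summable (fun k => fderiv ℝ (PP n R k j) x (EuclideanSpace.single i (1 : ℝ))) := by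
  rcases level_unique hR i j x with h | ⟨k0, h⟩
  · exact summable_of_ne_finset_zero (s := ∅) fun k _ => h k
  · refine summable_of_ne_finset_zero (s := {k0}) fun k hk => ?_
    rw [h k (by simpa using hk)]; rfl

theorem gg_enorm_pow_le (i j : Fin n) (x : En n) :
    ‖gg n R i j x‖ₑ ^ n ≤ ∑' k, ‖fderiv ℝ (PP n R k j) x‖ₑ ^ n := by
  have hn := hR.hn
  rcases level_unique hR i j x with h | ⟨k0, h⟩
  · unfold gg
    simp only [h, tsum_zero, enorm_zero]
    rw [zero_pow (by omega)]
    exact zero_le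
  · unfold gg
    rw [tsum_eq_single k0]
    · calc _ ≤ ‖fderiv ℝ (PP n R k0 j) x‖ₑ ^ n := by
            gcongr
            exact enorm_partial_le k0 i j x
        _ ≤ _ := ENNReal.le_tsum k0
    · intro k hk
      rw [h k hk]; rfl

theorem sum_enorm_le (i j : Fin n) (x : En n) :
    ∑' k, ‖fderiv ℝ (PP n R k j) x (EuclideanSpace.single i (1 : ℝ))‖ₑ ≤
      1 + ∑' k, ‖fderiv ℝ (PP n R k j) x‖ₑ ^ n := by
  have hn := hR.hn
  rcases level_unique hR i j x with h | ⟨k0, h⟩
  · simp only [h, enorm_zero, tsum_zero]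
    exact zero_le
  · rw [tsum_eq_single k0]
    · have h1 : ‖fderiv ℝ (PP n R k0 j) x‖ₑ ≤ 1 + ‖fderiv ℝ (PP n R k0 j) x‖ₑ ^ n := by
        rcases le_total (‖fderiv ℝ (PP n R k0 j) x‖ₑ) 1 with h2 | h2
        · exact h2.trans le_self_add
        · calc ‖fderiv ℝ (PP n R k0 j) x‖ₑ = ‖fderiv ℝ (PP n R k0 j) x‖ₑ ^ 1 := (pow_one _).symm
            _ ≤ ‖fderiv ℝ (PP n R k0 j) x‖ₑ ^ n := pow_le_pow_right₀ h2 hn
            _ ≤ _ := le_add_self
      calc _ ≤ ‖fderiv ℝ (PP n R k0 j) x‖ₑ := enorm_partial_le k0 i j x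
        _ ≤ 1 + ‖fderiv ℝ (PP n R k0 j) x‖ₑ ^ n := h1
        _ ≤ _ := by
          gcongr
          exact ENNReal.le_tsum k0
    · intro k hk
      rw [h k hk]
      exact enorm_zero

theorem partial_continuous (k : ℕ) (i j : Fin n) :
    Continuous (fun x => fderiv ℝ (PP n R k j) x (EuclideanSpace.single i (1 : ℝ))) :=
  ((PP_contDiff hR k j).continuous_fderiv (by simp)).clm_apply continuous_const

theorem gg_measurable (i j : Fin n) : Measurable (gg n R i j) := by
  refine measurable_of_tendsto_metrizable (f := fun m x => ∑ k ∈ Finset.range m,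
    fderiv ℝ (PP n R k j) x (EuclideanSpace.single i (1 : ℝ))) ?_ ?_
  · intro m
    exact Finset.measurable_fun_sum _ fun k _ => (partial_continuous hR k i j).measurable
  · rw [tendsto_pi_nhds]
    intro x
    exact (gg_summable hR i j x).hasSum.tendsto_sum_nat

/-- total energy -/
theorem energy_total (hE : Summable fun k => 1 / (lam n R k) ^ (n - 1)) (j : Fin n) :
    ∫⁻ x, ∑' k, ‖fderiv ℝ (PP n R k j) x‖ₑ ^ n ≠ ⊤ := by
  have hmeas : ∀ k, Measurable (fun x : En n => ‖fderiv ℝ (PP n R k j) x‖ₑ ^ n) := by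
    intro k
    have h1 : Continuous (fun x : En n => fderiv ℝ (PP n R k j) x) :=
      (PP_contDiff hR k j).continuous_fderiv (by simp)
    exact (h1.enorm.measurable).pow_const n
  rw [lintegral_tsum fun k => (hmeas k).aemeasurable]
  have h1 : ∑' k, ∫⁻ x, ‖fderiv ℝ (PP n R k j) x‖ₑ ^ n ≤
      ∑' k, ENNReal.ofReal (KE n / (lam n R k) ^ (n - 1)) :=
    ENNReal.tsum_le_tsum fun k => PP_energy hR k j
  have h2 : Summable fun k => KE n / (lam n R k) ^ (n - 1) := by
    have := hE.mul_left (KE n)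
    refine this.congr fun k => ?_
    rw [mul_one_div]
  have h3 : ∀ k, 0 ≤ KE n / (lam n R k) ^ (n - 1) := fun k =>
    div_nonneg (KE_nonneg n) (pow_nonneg (zero_le_one.trans (hR.one_le_lam k)) _)
  rw [← ENNReal.ofReal_tsum_of_nonneg h3 h2] at h1
  exact ne_top_of_le_ne_top ENNReal.ofReal_ne_top h1

theorem gg_memLp (hE : Summable fun k => 1 / (lam n R k) ^ (n - 1)) (i j : Fin n) :
    MemLp (gg n R i j) (n : ℝ≥0∞) (volume.restrict univ) := by
  have hn := hR.hn
  rw [Measure.restrict_univ]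
  refine ⟨(gg_measurable hR i j).aestronglyMeasurable, ?_⟩
  rw [eLpNorm_lt_top_iff_lintegral_rpow_enorm_lt_top (by
      have : n ≠ 0 := by omega
      exact_mod_cast this) (ENNReal.natCast_ne_top n)]
  have h1 : ∫⁻ x, ‖gg n R i j x‖ₑ ^ ((n : ℝ≥0∞).toReal) ≤
      ∫⁻ x, ∑' k, ‖fderiv ℝ (PP n R k j) x‖ₑ ^ n := by
    refine lintegral_mono fun x => ?_
    rw [ENNReal.toReal_natCast, ENNReal.rpow_natCast]
    exact gg_enorm_pow_le hR i j x
  exact h1.trans_lt (lt_top_iff_ne_top.2 (energy_total hR hE j))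

theorem weak_partial (hE : Summable fun k => 1 / (lam n R k) ^ (n - 1)) (i j : Fin n) :
    IsWeakPartial n univ (ff n R j) (gg n R i j) i := by
  intro φ hφ hφc _
  simp only [Measure.restrict_univ]
  set v : En n := EuclideanSpace.single i (1 : ℝ) with hv
  have hφ1 : ContDiff ℝ 1 φ := hφ.of_le (by exact_mod_cast le_top)
  have hdφc : Continuous (fun x => fderiv ℝ φ x v) :=
    (hφ1.continuous_fderiv (by norm_num)).clm_apply continuous_const
  have hdφs : HasCompactSupport (fun x => fderiv ℝ φ x v) := hφc.fderiv_apply (𝕜 := ℝ) v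
  have hI : Integrable (fun x => fderiv ℝ φ x v) := hdφc.integrable_of_hasCompactSupport hdφs
  have hPc : ∀ k, Continuous (PP n R k j) := fun k => (PP_contDiff hR k j).continuous
  -- left side
  have hL : ∫ x, ff n R j x * fderiv ℝ φ x v = ∑' k, ∫ x, PP n R k j x * fderiv ℝ φ x v := by
    have h1 : ∀ k, Integrable (fun x => PP n R k j x * fderiv ℝ φ x v) := fun k =>
      ((hPc k).mul hdφc).integrable_of_hasCompactSupport hdφs.mul_left
    have h2 : Summable fun k => ∫ x, ‖PP n R k j x * fderiv ℝ φ x v‖ := by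
      refine Summable.of_nonneg_of_le (fun k => integral_nonneg fun x => norm_nonneg _)
        (fun k => ?_) (summable_geo.mul_right (∫ x, ‖fderiv ℝ φ x v‖))
      rw [← integral_const_mul]
      refine integral_mono (h1 k).norm (hI.norm.const_mul _) fun x => ?_
      simp only
      rw [norm_mul]
      exact mul_le_mul_of_nonneg_right (PP_norm_le hR k j x) (norm_nonneg _)
    have h3 := integral_tsum_of_summable_integral_norm h1 h2
    rw [h3]
    refine integral_congr_ae (Eventually.of_forall fun x => ?_)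
    simp only [ff]
    rw [tsum_mul_right]
  -- integration by parts
  have hk : ∀ k, ∫ x, PP n R k j x * fderiv ℝ φ x v = - ∫ x, fderiv ℝ (PP n R k j) x v * φ x := by
    intro k
    refine integral_mul_fderiv_eq_neg_fderiv_mul_of_integrable ?_ ?_ ?_ ?_ ?_
    · exact ((partial_continuous hR k i j).mul hφ.continuous).integrable_of_hasCompactSupport
        hφc.mul_left
    · exact ((hPc k).mul hdφc).integrable_of_hasCompactSupport hdφs.mul_left
    · exact ((hPc k).mul hφ.continuous).integrable_of_hasCompactSupport hφc.mul_left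
    · exact fun x _ => ((PP_contDiff hR k j).differentiable (by simp)) x
    · exact fun x _ => (hφ1.differentiable (by norm_num)) x
  -- right side
  have hRt : ∫ x, gg n R i j x * φ x = ∑' k, ∫ x, fderiv ℝ (PP n R k j) x v * φ x := by
    rw [← integral_tsum]
    · refine integral_congr_ae (Eventually.of_forall fun x => ?_)
      simp only [gg]
      rw [tsum_mul_right]
    · intro k
      exact ((partial_continuous hR k i j).mul hφ.continuous).aestronglyMeasurable
    · obtain ⟨M, hM⟩ := hφc.exists_bound_of_continuous hφ.continuous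
      have h1 : ∀ k, Measurable fun x => ‖fderiv ℝ (PP n R k j) x v * φ x‖ₑ := fun k =>
        ((partial_continuous hR k i j).mul hφ.continuous).enorm.measurable
      rw [← lintegral_tsum fun k => (h1 k).aemeasurable]
      have h2 : ∀ x, ∑' k, ‖fderiv ℝ (PP n R k j) x v * φ x‖ₑ ≤
          ‖φ x‖ₑ + (∑' k, ‖fderiv ℝ (PP n R k j) x‖ₑ ^ n) * ENNReal.ofReal M := by
        intro x
        have h3 : ∑' k, ‖fderiv ℝ (PP n R k j) x v * φ x‖ₑ =
            (∑' k, ‖fderiv ℝ (PP n R k j) x v‖ₑ) * ‖φ x‖ₑ := by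
          rw [← ENNReal.tsum_mul_right]
          exact tsum_congr fun k => enorm_mul _ _
        rw [h3]
        have h4 := sum_enorm_le hR i j x
        have h5 : ‖φ x‖ₑ ≤ ENNReal.ofReal M := by
          rw [← ofReal_norm]
          exact ENNReal.ofReal_le_ofReal (hM x)
        calc _ ≤ (1 + ∑' k, ‖fderiv ℝ (PP n R k j) x‖ₑ ^ n) * ‖φ x‖ₑ := by gcongr
          _ = ‖φ x‖ₑ + (∑' k, ‖fderiv ℝ (PP n R k j) x‖ₑ ^ n) * ‖φ x‖ₑ := by
            rw [add_mul, one_mul]
          _ ≤ _ := by gcongr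
      refine ne_top_of_le_ne_top ?_ (lintegral_mono h2)
      rw [lintegral_add_left hφ.continuous.enorm.measurable,
        lintegral_mul_const' _ _ ENNReal.ofReal_ne_top]
      have h6 : Integrable φ := hφ.continuous.integrable_of_hasCompactSupport hφc
      exact ENNReal.add_ne_top.2 ⟨h6.2.ne, ENNReal.mul_ne_top (energy_total hR hE j)
        ENNReal.ofReal_ne_top⟩
  rw [hL, hRt, ← tsum_neg]
  exact tsum_congr hk

end energy

end Pool.Lusin
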