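import Pool.Agent.Work.MP_4112db_an.Defs

/-!
# MP_4112db_an : the discrete Hardy inequality and the majorant form of the criterion
-/

open MeasureTheory Set

namespace Pool.Lusin

/-- The majorant form of the (negated) criterion. -/
def MajCrit (n : ℕ) (ω : ℝ → ℝ) : Prop :=
  ∃ g : ℕ → ℝ, (∀ k, 0 ≤ g k) ∧ Summable (fun k => g k ^ n) ∧
    ∃ C : ℝ, ∀ k : ℕ, Real.log (1 / ω ((1 / 2 : ℝ) ^ k)) ≤ C + ∑ i ∈ Finset.range k, g i

/-- `n a^{n-1} b ≤ (n-1) a^n + b^n`. -/
lemma amgm_pow (m : ℕ) {a b : ℝ} (ha : 0 ≤ a) (hb : 0 ≤ b) :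
    ((m : ℝ) + 1) * a ^ m * b ≤ m * a ^ (m + 1) + b ^ (m + 1) := by
  rcases ha.eq_or_lt with h0 | h0
  · subst h0
    rcases Nat.eq_zero_or_pos m with hm | hm
    · subst hm
      simp
    · have : (0 : ℝ) ^ m = 0 := zero_pow hm.ne'
      rw [this]
      have h1 : 0 ≤ b ^ (m + 1) := pow_nonneg hb _
      simp
      exact h1
  · have h1 := one_add_mul_le_pow (a := b / a - 1) (by
      have : 0 ≤ b / a := div_nonneg hb ha
      linarith) (m + 1)
    have h2 : (1 + (b / a - 1)) ^ (m + 1) = b ^ (m + 1) / a ^ (m + 1) := by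
      rw [add_sub_cancel, div_pow]
    rw [h2, le_div_iff₀ (pow_pos h0 _)] at h1
    have h3 : (1 + ((m + 1 : ℕ) : ℝ) * (b / a - 1)) * a ^ (m + 1)
        = a ^ (m + 1) + (m + 1) * (b - a) * a ^ m := by
      push_cast
      field_simp
      ring
    rw [h3] at h1
    have h4 : a ^ (m + 1) + (m + 1) * (b - a) * a ^ m
        = (m + 1) * a ^ m * b - m * a ^ (m + 1) := by ring
    rw [h4] at h1
    linarith

/-- Discrete Hardy inequality (finite form, some constant). -/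
lemma hardy_finite (m : ℕ) (g : ℕ → ℝ) (hg : ∀ k, 0 ≤ g k) (K : ℕ) :
    (m : ℝ) / 2 * ∑ k ∈ Finset.range K, ((∑ i ∈ Finset.range (k + 1), g i) / (k + 1)) ^ (m + 1)
      + K * ((∑ i ∈ Finset.range K, g i) / K) ^ (m + 1)
      ≤ 2 ^ ((m + 1) * m) * ∑ k ∈ Finset.range K, g k ^ (m + 1) := by
  induction K with
  | zero => simp
  | succ K ih =>
    rw [Finset.sum_range_succ, Finset.sum_range_succ (fun k => g k ^ (m + 1))]
    set S : ℕ → ℝ := fun k => ∑ i ∈ Finset.range k, g i with hS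
    have hSnn : ∀ k, 0 ≤ S k := fun k => Finset.sum_nonneg (fun i _ => hg i)
    have hS1 : S (K + 1) = S K + g K := by
      simp only [hS]
      rw [Finset.sum_range_succ]
    set A : ℝ := S (K + 1) / (K + 1) with hA
    set B : ℝ := S K / K with hB
    have hA0 : 0 ≤ A := div_nonneg (hSnn _) (by positivity)
    have hB0 : 0 ≤ B := div_nonneg (hSnn _) (by positivity)
    have hrec : ((K : ℝ) + 1) * A = K * B + g K := by
      rw [hA, hB, hS1]
      rcases Nat.eq_zero_or_pos K with hK | hK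
      · subst hK
        simp [hS]
      · have : (K : ℝ) ≠ 0 := by exact_mod_cast hK.ne'
        field_simp
    have e1 := amgm_pow m hA0 hB0
    have e2 := amgm_pow m (a := A / 2) (b := 2 ^ m * g K) (by positivity)
      (mul_nonneg (by positivity) (hg K))
    have e3 : ((m : ℝ) + 1) * (A / 2) ^ m * (2 ^ m * g K) = ((m : ℝ) + 1) * A ^ m * g K := by
      rw [div_pow]
      field_simp
    have e4 : (2 ^ m * g K) ^ (m + 1) = 2 ^ ((m + 1) * m) * g K ^ (m + 1) := by
      rw [mul_pow, ← pow_mul, mul_comm m (m + 1)]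
    rw [e3, e4] at e2
    have e5 : (m : ℝ) * (A / 2) ^ (m + 1) ≤ m / 2 * A ^ (m + 1) := by
      rw [div_pow]
      have h2 : (2 : ℝ) ≤ 2 ^ (m + 1) := by
        calc (2 : ℝ) = 2 ^ 1 := by norm_num
          _ ≤ 2 ^ (m + 1) := pow_le_pow_right₀ (by norm_num) (by omega)
      have h3 : A ^ (m + 1) / 2 ^ (m + 1) ≤ A ^ (m + 1) / 2 :=
        div_le_div_of_nonneg_left (pow_nonneg hA0 _) (by norm_num) h2
      calc (m : ℝ) * (A ^ (m + 1) / 2 ^ (m + 1)) ≤ m * (A ^ (m + 1) / 2) :=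
            mul_le_mul_of_nonneg_left h3 (by positivity)
        _ = m / 2 * A ^ (m + 1) := by ring
    have e6 : (m : ℝ) * A ^ (m + 1) - (m + 1) * A ^ m * g K ≤
        K * B ^ (m + 1) - (K + 1) * A ^ (m + 1) := by
      have h1 : g K = (K + 1) * A - K * B := by linarith
      have h2 : (K : ℝ) * (((m : ℝ) + 1) * A ^ m * B) ≤ K * (m * A ^ (m + 1) + B ^ (m + 1)) :=
        mul_le_mul_of_nonneg_left e1 (by positivity)
      rw [h1]
      have h3 : ((m : ℝ) + 1) * A ^ m * ((K + 1) * A - K * B) =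
        (m + 1) * (K + 1) * A ^ (m + 1) - K * (((m : ℝ) + 1) * A ^ m * B) := by ring
      rw [h3]
      nlinarith [h2]
    have hcast : ((K + 1 : ℕ) : ℝ) = (K : ℝ) + 1 := by push_cast; ring
    rw [hcast]
    have hgoal : (m : ℝ) / 2 * A ^ (m + 1) + (K + 1) * A ^ (m + 1) ≤
        2 ^ ((m + 1) * m) * g K ^ (m + 1) + K * B ^ (m + 1) := by
      linarith
    have := add_le_add ih hgoal
    nlinarith [this]

/-- Discrete Hardy inequality: averages of an `ℓ^{m+1}` sequence are in `ℓ^{m+1}`, `m ≥ 1`. -/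
lemma hardy (m : ℕ) (hm : 1 ≤ m) (g : ℕ → ℝ) (hg : ∀ k, 0 ≤ g k)
    (hs : Summable (fun k => g k ^ (m + 1))) :
    Summable (fun k : ℕ => ((∑ i ∈ Finset.range (k + 1), g i) / (k + 1)) ^ (m + 1)) := by
  have hnn : ∀ k : ℕ, 0 ≤ ((∑ i ∈ Finset.range (k + 1), g i) / (k + 1)) ^ (m + 1) := by
    intro k
    apply pow_nonneg
    exact div_nonneg (Finset.sum_nonneg (fun i _ => hg i)) (by positivity)
  apply summable_of_sum_range_le (c := 2 * (2 ^ ((m + 1) * m) * ∑' k, g k ^ (m + 1))) hnn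
  intro K
  have h1 := hardy_finite m g hg K
  have h2 : ∑ k ∈ Finset.range K, g k ^ (m + 1) ≤ ∑' k, g k ^ (m + 1) :=
    hs.sum_le_tsum _ (fun i _ => pow_nonneg (hg i) _)
  have h3 : 0 ≤ (K : ℝ) * ((∑ i ∈ Finset.range K, g i) / K) ^ (m + 1) := by
    apply mul_nonneg (by positivity)
    apply pow_nonneg
    exact div_nonneg (Finset.sum_nonneg (fun i _ => hg i)) (by positivity)
  have h4 : (2 : ℝ) ^ ((m + 1) * m) * ∑ k ∈ Finset.range K, g k ^ (m + 1) ≤
      2 ^ ((m + 1) * m) * ∑' k, g k ^ (m + 1) := mul_le_mul_of_nonneg_left h2 (by positivity)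
  have h5 : (1 : ℝ) / 2 ≤ m / 2 := by
    have : (1 : ℝ) ≤ m := by exact_mod_cast hm
    linarith
  have h6 := mul_le_mul_of_nonneg_right h5 (Finset.sum_nonneg (s := Finset.range K)
    (fun k _ => hnn k))
  linarith

end Pool.Lusin
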