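import Pool.Agent.Work.MP_4112db_an.Crit1

/-!
# MP_4112db_an : from the majorant form of the criterion to the sequence form
-/

open MeasureTheory Set

namespace Pool.Lusin

lemma IsModulus.pos_half {ω : ℝ → ℝ} (hω : IsModulus ω) (k : ℕ) : 0 < ω ((1 / 2 : ℝ) ^ k) :=
  hω.pos _ (by positivity)

/-- `ω (2^{-k}) → 0`. -/
lemma IsModulus.tendsto_half {ω : ℝ → ℝ} (hω : IsModulus ω) :
    Filter.Tendsto (fun k : ℕ => ω ((1 / 2 : ℝ) ^ k)) Filter.atTop (nhds 0) := by
  have h1 : Filter.Tendsto (fun k : ℕ => (1 / 2 : ℝ) ^ k) Filter.atTop (nhdsWithin 0 (Ici 0)) := by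
    apply tendsto_nhdsWithin_iff.2
    refine ⟨tendsto_pow_atTop_nhds_zero_of_lt_one (by norm_num) (by norm_num), ?_⟩
    exact Filter.Eventually.of_forall (fun k => by
      simp only [mem_Ici]
      positivity)
  have h2 := (hω.cont 0 (by simp)).tendsto
  rw [hω.zero] at h2
  exact h2.comp h1

/-- `log (1/ω (2^{-k})) → ∞`. -/
lemma IsModulus.tendsto_log {ω : ℝ → ℝ} (hω : IsModulus ω) :
    Filter.Tendsto (fun k : ℕ => Real.log (1 / ω ((1 / 2 : ℝ) ^ k))) Filter.atTop
      Filter.atTop := by
  apply Real.tendsto_log_atTop.comp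
  have : Filter.Tendsto (fun k : ℕ => ω ((1 / 2 : ℝ) ^ k)) Filter.atTop
      (nhdsWithin 0 (Ioi 0)) := by
    apply tendsto_nhdsWithin_iff.2
    exact ⟨hω.tendsto_half, Filter.Eventually.of_forall (fun k => hω.pos_half k)⟩
  have h3 := (tendsto_inv_nhdsGT_zero (𝕜 := ℝ)).comp this
  refine h3.congr (fun k => ?_)
  simp [Function.comp]

/-- The majorant form implies the sequence form. -/
theorem MajCrit.seqCrit {n : ℕ} (hn : 2 ≤ n) {ω : ℝ → ℝ} (hω : IsModulus ω)
    (h : MajCrit n ω) : SeqCrit n ω := by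
  obtain ⟨g, hg0, hgs, C, hC⟩ := h
  have hl2 : 0 < Real.log 2 := Real.log_pos (by norm_num)
  -- truncate
  set q : ℕ → ℝ := fun i => min (g i) (Real.log 2 / 2) with hq
  have hq0 : ∀ i, 0 ≤ q i := fun i => le_min (hg0 i) (by positivity)
  have hq1 : ∀ i, q i ≤ Real.log 2 / 2 := fun i => min_le_right _ _
  have hqg : ∀ i, q i ≤ g i := fun i => min_le_left _ _
  have hqs : Summable (fun k => q k ^ n) :=
    Summable.of_nonneg_of_le (fun k => pow_nonneg (hq0 k) _)
      (fun k => pow_le_pow_left₀ (hq0 k) (hqg k) _) hgs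
  -- g → 0
  have hg_lim : Filter.Tendsto g Filter.atTop (nhds 0) := by
    have h1 := hgs.tendsto_atTop_zero
    have h2 : Filter.Tendsto (fun k => (g k ^ n) ^ ((n : ℝ)⁻¹)) Filter.atTop
        (nhds ((0 : ℝ) ^ ((n : ℝ)⁻¹))) :=
      h1.rpow_const (Or.inr (by positivity))
    have h3 : (0 : ℝ) ^ ((n : ℝ)⁻¹) = 0 := Real.zero_rpow (by
      have : (0 : ℝ) < n := by exact_mod_cast (by omega : 0 < n)
      positivity)
    rw [h3] at h2
    refine h2.congr (fun k => ?_)
    exact Real.pow_rpow_inv_natCast (hg0 k) (by omega)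
  obtain ⟨i0, hi0⟩ : ∃ i0, ∀ i ≥ i0, g i ≤ Real.log 2 / 2 := by
    have := (hg_lim.eventually (gt_mem_nhds (show (0 : ℝ) < Real.log 2 / 2 by positivity)))
    obtain ⟨i0, h⟩ := Filter.eventually_atTop.1 this
    exact ⟨i0, fun i hi => (h i hi).le⟩
  set S : ℕ → ℝ := fun k => ∑ i ∈ Finset.range k, q i with hS
  set D : ℝ := ∑ i ∈ Finset.range i0, g i with hD
  have hSg : ∀ k, ∑ i ∈ Finset.range k, g i ≤ D + S k := by
    intro k
    have h1 : ∀ i ∈ Finset.range k, g i ≤ (if i < i0 then g i else 0) + q i := by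
      intro i _
      by_cases hi : i < i0
      · simp only [hi, if_true]
        linarith [hq0 i]
      · simp only [hi, if_false, zero_add, hq]
        exact le_min le_rfl (hi0 i (not_lt.1 hi))
    calc ∑ i ∈ Finset.range k, g i ≤ ∑ i ∈ Finset.range k, ((if i < i0 then g i else 0) + q i) :=
          Finset.sum_le_sum h1
      _ = ∑ i ∈ Finset.range k, (if i < i0 then g i else 0) + S k := by
          rw [Finset.sum_add_distrib]
      _ ≤ D + S k := by
          gcongr
          rw [← Finset.sum_filter, hD]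
          apply Finset.sum_le_sum_of_subset_of_nonneg
          · intro i hi
            simp only [Finset.mem_filter, Finset.mem_range] at hi ⊢
            exact hi.2
          · intro i _ _
            exact hg0 i
  have hSmono : Monotone S := by
    apply monotone_nat_of_le_succ
    intro k
    simp only [hS]
    rw [Finset.sum_range_succ]
    linarith [hq0 k]
  have hS_top : Filter.Tendsto S Filter.atTop Filter.atTop := by
    apply Filter.tendsto_atTop_mono (f := fun k => Real.log (1 / ω ((1 / 2 : ℝ) ^ k)) - (C + D))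
    · intro k
      have h1 := hC k
      have h2 := hSg k
      show Real.log (1 / ω ((1 / 2 : ℝ) ^ k)) - (C + D) ≤ S k
      linarith
    · exact Filter.tendsto_atTop_add_const_right _ _ hω.tendsto_log
  have hex : ∀ k : ℕ, ∃ i, k * Real.log 2 ≤ S i := fun k =>
    (hS_top.eventually (Filter.eventually_ge_atTop _)).exists
  classical
  set x : ℕ → ℕ := fun k => Nat.find (hex k) with hx
  have hx1 : ∀ k, k * Real.log 2 ≤ S (x k) := fun k => Nat.find_spec (hex k)
  have hx2 : ∀ k, S (x k) ≤ k * Real.log 2 + Real.log 2 / 2 := by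
    intro k
    rcases Nat.eq_zero_or_pos (x k) with h0 | h0
    · rw [h0]
      simp only [hS, Finset.range_zero, Finset.sum_empty]
      positivity
    · have h1 : ¬ (k * Real.log 2 ≤ S (x k - 1)) := Nat.find_min (hex k) (by
        show x k - 1 < x k
        omega)
      have h2 : S (x k) = S (x k - 1) + q (x k - 1) := by
        have : x k = (x k - 1) + 1 := by omega
        conv_lhs => rw [this]
        simp only [hS]
        rw [Finset.sum_range_succ]
      have := hq1 (x k - 1)
      linarith [not_le.1 h1]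
  have hx0 : x 0 = 0 := by
    rw [hx]
    simp only [Nat.find_eq_zero]
    simp [hS]
  have hxlt : ∀ k, x k < x (k + 1) := by
    intro k
    by_contra hcon
    have h1 := hSmono (not_lt.1 hcon)
    have h2 := hx1 (k + 1)
    have h3 := hx2 k
    push_cast at h2
    linarith
  set L : ℕ → ℝ := fun k => ((x (k + 1) : ℝ) - x k) * Real.log 2 with hL
  have hd1 : ∀ k, (1 : ℝ) ≤ (x (k + 1) : ℝ) - x k := by
    intro k
    have : x k + 1 ≤ x (k + 1) := hxlt k
    have : ((x k + 1 : ℕ) : ℝ) ≤ x (k + 1) := by exact_mod_cast this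
    push_cast at this
    linarith
  have hLpos : ∀ k, 0 < L k := fun k => mul_pos (by linarith [hd1 k]) hl2
  have hLsum : ∀ k, ∑ j ∈ Finset.range k, L j = x k * Real.log 2 := by
    intro k
    rw [hL]
    rw [← Finset.sum_mul, Finset.sum_range_sub (fun j => (x j : ℝ))]
    rw [hx0]
    simp
  refine ⟨L, hLpos, ?_, Real.exp (-(C + D + Real.log 2 / 2)), Real.exp_pos _, ?_⟩
  · -- summability
    set Q : ℝ := ∑' i, q i ^ n with hQ
    set a : ℝ := (Real.log 2) ^ (n - 1) * (Real.log 2 / 2) ^ n with ha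
    have hapos : 0 < a := by positivity
    have hblock : ∀ k, 1 / (L k) ^ (n - 1) ≤
        1 / a * ∑ i ∈ Finset.Ico (x k) (x (k + 1)), q i ^ n := by
      intro k
      have h1 : Real.log 2 / 2 ≤ ∑ i ∈ Finset.Ico (x k) (x (k + 1)), q i := by
        rw [Finset.sum_Ico_eq_sub _ (hxlt k).le]
        have h2 := hx1 (k + 1)
        have h3 := hx2 k
        push_cast at h2
        simp only [hS] at h2 h3
        linarith
      have h2 : (∑ i ∈ Finset.Ico (x k) (x (k + 1)), q i) ^ n ≤
          ((x (k + 1) : ℝ) - x k) ^ (n - 1) *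
            ∑ i ∈ Finset.Ico (x k) (x (k + 1)), q i ^ n := by
        have h3 := pow_sum_le_card_mul_sum_pow (s := Finset.Ico (x k) (x (k + 1))) (f := q)
          (fun i _ => hq0 i) (n - 1)
        have h4 : n - 1 + 1 = n := by omega
        rw [h4, Nat.card_Ico] at h3
        rw [Nat.cast_sub (hxlt k).le] at h3
        exact h3
      have hdpos : 0 < ((x (k + 1) : ℝ) - x k) := by linarith [hd1 k]
      have h3 : (Real.log 2 / 2) ^ n ≤ ((x (k + 1) : ℝ) - x k) ^ (n - 1) *
            ∑ i ∈ Finset.Ico (x k) (x (k + 1)), q i ^ n :=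
        (pow_le_pow_left₀ (by positivity) h1 n).trans h2
      rw [div_mul_eq_mul_div, one_mul, div_le_div_iff₀ (pow_pos (hLpos k) _) hapos, one_mul]
      simp only [hL, ha, mul_pow]
      calc Real.log 2 ^ (n - 1) * (Real.log 2 / 2) ^ n ≤
          Real.log 2 ^ (n - 1) * (((x (k + 1) : ℝ) - x k) ^ (n - 1) *
            ∑ i ∈ Finset.Ico (x k) (x (k + 1)), q i ^ n) :=
            mul_le_mul_of_nonneg_left h3 (by positivity)
        _ = _ := by ring
    apply summable_of_sum_range_le (c := 1 / a * Q)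
    · intro k
      exact div_nonneg zero_le_one (pow_nonneg (hLpos k).le _)
    · intro K
      have h1 : ∑ k ∈ Finset.range K, ∑ i ∈ Finset.Ico (x k) (x (k + 1)), q i ^ n =
          ∑ i ∈ Finset.range (x K), q i ^ n := by
        induction K with
        | zero => simp [hx0]
        | succ K ih =>
          rw [Finset.sum_range_succ, ih, Finset.sum_range_add_sum_Ico]
          exact (hxlt K).le
      calc ∑ k ∈ Finset.range K, 1 / (L k) ^ (n - 1) ≤
          ∑ k ∈ Finset.range K, (1 / a * ∑ i ∈ Finset.Ico (x k) (x (k + 1)), q i ^ n) :=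
            Finset.sum_le_sum (fun k _ => hblock k)
        _ = 1 / a * ∑ i ∈ Finset.range (x K), q i ^ n := by
            rw [← Finset.mul_sum, h1]
        _ ≤ 1 / a * Q := by
            apply mul_le_mul_of_nonneg_left _ (by positivity)
            exact hqs.sum_le_tsum _ (fun i _ => pow_nonneg (hq0 i) _)
  · intro k
    rw [hLsum k]
    have e1 : Real.exp (-(x k * Real.log 2)) = (1 / 2 : ℝ) ^ (x k) := by
      rw [Real.exp_neg, mul_comm, Real.exp_mul, Real.exp_log (by norm_num), Real.rpow_natCast,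
        one_div, inv_pow]
    rw [e1]
    have h1 := hC (x k)
    have h2 := hSg (x k)
    have h3 := hx2 k
    have hpos := hω.pos_half (x k)
    have h4 : Real.log (1 / ω ((1 / 2 : ℝ) ^ (x k))) ≤ C + D + Real.log 2 / 2 + k * Real.log 2 := by
      linarith
    rw [one_div, Real.log_inv] at h4
    have h5 : -(C + D + Real.log 2 / 2) - k * Real.log 2 ≤ Real.log (ω ((1 / 2 : ℝ) ^ (x k))) := by
      linarith
    have h6 := Real.exp_le_exp.2 h5
    rw [Real.exp_log hpos, Real.exp_sub] at h6
    have h7 : Real.exp (k * Real.log 2) = 2 ^ k := by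
      rw [mul_comm, Real.exp_mul, Real.exp_log (by norm_num), Real.rpow_natCast]
    rw [h7] at h6
    exact h6

end Pool.Lusin
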