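import Pool.Agent.Work.MP_4112db_an.Crit2

/-!
# MP_4112db_an : the integral form of the criterion
-/

open MeasureTheory Set

namespace Pool.Lusin

/-- The sum form of the (negated) criterion. -/
def SumCrit (n : ℕ) (ω : ℝ → ℝ) : Prop :=
  Summable (fun k : ℕ => (max (Real.log (1 / ω ((1 / 2 : ℝ) ^ k))) 0 / (k + 1)) ^ n)

/-- The integral `∫_0^{1/2} (|log ω(t)| / |log t|)^n dt/t`. -/
noncomputable def critInt (n : ℕ) (ω : ℝ → ℝ) : ENNReal :=
  ∫⁻ t in Ioo (0 : ℝ) (1 / 2), ENNReal.ofReal ((|Real.log (ω t)| / |Real.log t|) ^ n / t)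

lemma logInv_mono {ω : ℝ → ℝ} (hω : IsModulus ω) :
    Monotone (fun k : ℕ => Real.log (1 / ω ((1 / 2 : ℝ) ^ k))) := by
  intro i j hij
  have h1 : (1 / 2 : ℝ) ^ j ≤ (1 / 2 : ℝ) ^ i :=
    pow_le_pow_of_le_one (by norm_num) (by norm_num) hij
  have h2 : ω ((1 / 2 : ℝ) ^ j) ≤ ω ((1 / 2 : ℝ) ^ i) :=
    hω.mono (by simp only [mem_Ici]; positivity) (by simp only [mem_Ici]; positivity) h1
  simp only [one_div (ω _), Real.log_inv]
  have := Real.log_le_log (hω.pos_half j) h2
  linarith

/-- sum form implies majorant form. -/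
theorem SumCrit.majCrit {n : ℕ} {ω : ℝ → ℝ} (hω : IsModulus ω)
    (h : SumCrit n ω) : MajCrit n ω := by
  set H : ℕ → ℝ := fun k => max (Real.log (1 / ω ((1 / 2 : ℝ) ^ k))) 0 with hH
  have hH0 : ∀ k, 0 ≤ H k := fun k => le_max_right _ _
  have hHm : Monotone H := fun i j hij => max_le_max (logInv_mono hω hij) le_rfl
  refine ⟨fun i => 2 * H (2 * i + 2) / (i + 1), ?_, ?_, |Real.log (1 / ω ((1 / 2 : ℝ) ^ 0))|, ?_⟩
  · intro k
    have := hH0 (2 * k + 2)
    positivity
  · have h1 : Summable (fun i : ℕ => 6 ^ n * ((H (2 * i + 2) / ((2 * i + 2 : ℕ) + 1)) ^ n)) := by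
      apply Summable.mul_left
      have h2 : Function.Injective (fun i : ℕ => 2 * i + 2) := by
        intro a b hab
        simp only at hab
        omega
      exact (Summable.comp_injective (i := fun i : ℕ => 2 * i + 2) h h2)
    apply Summable.of_nonneg_of_le _ _ h1
    · intro k
      have := hH0 (2 * k + 2)
      positivity
    · intro k
      rw [← mul_pow]
      apply pow_le_pow_left₀
      · have := hH0 (2 * k + 2)
        positivity
      · have h3 := hH0 (2 * k + 2)
        have h4 : (0 : ℝ) < (k : ℝ) + 1 := by positivity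
        have h5 : (0 : ℝ) < ((2 * k + 2 : ℕ) : ℝ) + 1 := by positivity
        rw [mul_div_assoc', div_le_div_iff₀ h4 h5]
        push_cast
        nlinarith
  · intro k
    rcases Nat.eq_zero_or_pos k with h0 | h0
    · subst h0
      simp only [Finset.range_zero, Finset.sum_empty, add_zero]
      exact le_abs_self _
    · have h1 : Real.log (1 / ω ((1 / 2 : ℝ) ^ k)) ≤ H k := le_max_left _ _
      have h2 : H k ≤ ∑ i ∈ Finset.Ico (k / 2) k, 2 * H (2 * i + 2) / (i + 1) := by
        have h3 : ∀ i ∈ Finset.Ico (k / 2) k, 2 * H k / k ≤ 2 * H (2 * i + 2) / (i + 1) := by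
          intro i hi
          rw [Finset.mem_Ico] at hi
          have h4 : H k ≤ H (2 * i + 2) := hHm (by omega)
          have h5 : (i : ℝ) + 1 ≤ k := by exact_mod_cast hi.2
          have := hH0 k
          have h6 : (0 : ℝ) < (i : ℝ) + 1 := by positivity
          have h7 : (0 : ℝ) < (k : ℝ) := by exact_mod_cast h0
          rw [div_le_div_iff₀ h7 h6]
          nlinarith [hH0 (2 * i + 2)]
        have h4 := Finset.card_nsmul_le_sum _ _ _ h3
        rw [Nat.card_Ico, nsmul_eq_mul] at h4
        refine le_trans ?_ h4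
        have h5 : (k : ℝ) / 2 ≤ ((k - k / 2 : ℕ) : ℝ) := by
          have h6 : k ≤ 2 * (k - k / 2) := by omega
          have h7 : (k : ℝ) ≤ 2 * ((k - k / 2 : ℕ) : ℝ) := by exact_mod_cast h6
          linarith
        have h7 : (0 : ℝ) < (k : ℝ) := by exact_mod_cast h0
        have h8 := hH0 k
        calc H k = (k : ℝ) / 2 * (2 * H k / k) := by field_simp
          _ ≤ _ := mul_le_mul_of_nonneg_right h5 (by positivity)
      have h3 : ∑ i ∈ Finset.Ico (k / 2) k, 2 * H (2 * i + 2) / ((i : ℝ) + 1) ≤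
          ∑ i ∈ Finset.range k, 2 * H (2 * i + 2) / ((i : ℝ) + 1) := by
        apply Finset.sum_le_sum_of_subset_of_nonneg
        · intro i hi
          rw [Finset.mem_Ico] at hi
          exact Finset.mem_range.2 hi.2
        · intro i _ _
          have := hH0 (2 * i + 2)
          positivity
      have := abs_nonneg (Real.log (1 / ω ((1 / 2 : ℝ) ^ 0)))
      linarith

/-- majorant form implies sum form (Hardy's inequality). -/
theorem MajCrit.sumCrit {n : ℕ} (hn : 2 ≤ n) {ω : ℝ → ℝ}
    (h : MajCrit n ω) : SumCrit n ω := by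
  obtain ⟨g, hg0, hgs, C, hC⟩ := h
  obtain ⟨m, rfl⟩ : ∃ m, n = m + 1 := ⟨n - 1, by omega⟩
  have h1 := hardy m (by omega) g hg0 hgs
  have h2 : Summable (fun k : ℕ => (|C| / ((k : ℝ) + 1)) ^ (m + 1)) := by
    have h3 : Summable (fun k : ℕ => |C| ^ (m + 1) * (1 / ((k : ℝ) + 1) ^ (m + 1))) := by
      apply Summable.mul_left
      have h4 := (summable_nat_add_iff (f := fun k : ℕ => 1 / ((k : ℝ)) ^ (m + 1)) 1).2
        (Real.summable_one_div_nat_pow.2 (by omega))
      simpa using h4
    refine h3.congr (fun k => ?_)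
    rw [div_pow]
    ring
  have h3 := (h2.add h1).mul_left (2 ^ m)
  apply Summable.of_nonneg_of_le _ _ h3
  · intro k
    apply pow_nonneg
    exact div_nonneg (le_max_right _ _) (by positivity)
  · intro k
    have hk : (0 : ℝ) < (k : ℝ) + 1 := by positivity
    have hS : ∑ i ∈ Finset.range k, g i ≤ ∑ i ∈ Finset.range (k + 1), g i := by
      rw [Finset.sum_range_succ]
      linarith [hg0 k]
    have hS0 : 0 ≤ ∑ i ∈ Finset.range (k + 1), g i := Finset.sum_nonneg (fun i _ => hg0 i)
    have h4 : max (Real.log (1 / ω ((1 / 2 : ℝ) ^ k))) 0 / ((k : ℝ) + 1) ≤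
        |C| / ((k : ℝ) + 1) + (∑ i ∈ Finset.range (k + 1), g i) / (k + 1) := by
      rw [← add_div]
      apply div_le_div_of_nonneg_right _ hk.le
      apply max_le
      · have := hC k
        have := le_abs_self C
        linarith
      · positivity
    have h5 := pow_le_pow_left₀ (div_nonneg (le_max_right _ _) hk.le) h4 (m + 1)
    refine h5.trans ?_
    have h6 := add_pow_le (a := |C| / ((k : ℝ) + 1))
      (b := (∑ i ∈ Finset.range (k + 1), g i) / (k + 1)) (by positivity) (by positivity) (m + 1)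
    simpa using h6

end Pool.Lusin
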