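import Mathlib

/-!
# MP_4112db_an : definitions

Moduli of continuity which force the Lusin condition (N) for `W^{1,n}` maps.
Maps `Ω → ℝⁿ` are represented by total functions `ℝⁿ → ℝⁿ` of which only the values on `Ω`
matter.
-/

open MeasureTheory Set

namespace Pool.Lusin

/-- Euclidean `n`-space. -/
abbrev En (n : ℕ) : Type := EuclideanSpace ℝ (Fin n)

/-- `g` is a weak partial derivative of `u` in the direction of the `i`-th coordinate
on the open set `Ω`. -/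
def IsWeakPartial (n : ℕ) (Ω : Set (En n)) (u g : En n → ℝ) (i : Fin n) : Prop :=
  ∀ φ : En n → ℝ, ContDiff ℝ (⊤ : ℕ∞) φ → HasCompactSupport φ → tsupport φ ⊆ Ω →
    ∫ x in Ω, u x * fderiv ℝ φ x (EuclideanSpace.single i (1 : ℝ)) =
      - ∫ x in Ω, g x * φ x

/-- `f ∈ W^{1,n}(Ω, ℝⁿ)`: all coordinates are in `L^n(Ω)` and have weak first partial
derivatives in `L^n(Ω)`. -/
def MemW1n (n : ℕ) (Ω : Set (En n)) (f : En n → En n) : Prop :=
  (∀ j : Fin n, MemLp (fun x => f x j) (n : ENNReal) (volume.restrict Ω)) ∧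
  ∀ i j : Fin n, ∃ g : En n → ℝ, MemLp g (n : ENNReal) (volume.restrict Ω) ∧
    IsWeakPartial n Ω (fun x => f x j) g i

/-- Lusin's condition (N) on `Ω`. -/
def LusinN (n : ℕ) (Ω : Set (En n)) (f : En n → En n) : Prop :=
  ∀ E : Set (En n), E ⊆ Ω → volume E = 0 → volume (f '' E) = 0

/-- `ω` is a modulus of continuity on `[0,∞)`. -/
structure IsModulus (ω : ℝ → ℝ) : Prop where
  cont : ContinuousOn ω (Ici 0)
  mono : MonotoneOn ω (Ici 0)
  zero : ω 0 = 0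
  pos : ∀ t : ℝ, 0 < t → 0 < ω t

/-- `f` has modulus `ω` on `Ω`: uniformly on every compact subset of `Ω`. -/
def HasModulus (n : ℕ) (Ω : Set (En n)) (ω : ℝ → ℝ) (f : En n → En n) : Prop :=
  ∀ K : Set (En n), K ⊆ Ω → IsCompact K →
    ∃ C : ℝ, ∀ x ∈ K, ∀ y ∈ K, ‖f x - f y‖ ≤ C * ω ‖x - y‖

/-- Property (P) of the problem. -/
def PropertyP (n : ℕ) (ω : ℝ → ℝ) : Prop :=
  ∀ Ω : Set (En n), IsOpen Ω → ∀ f : En n → En n, ContinuousOn f Ω → MemW1n n Ω f →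
    HasModulus n Ω ω f → LusinN n Ω f

/-- The sequence form of the negated criterion: there are steps `L k > 0` with
`∑ (L k)^{1-n} < ∞` and `c > 0` such that `ω (exp (-(L 0 + ... + L (k-1)))) ≥ c 2^{-k}`
for every `k`. -/
def SeqCrit (n : ℕ) (ω : ℝ → ℝ) : Prop :=
  ∃ L : ℕ → ℝ, (∀ k, 0 < L k) ∧ Summable (fun k => 1 / (L k) ^ (n - 1)) ∧
    ∃ c : ℝ, 0 < c ∧ ∀ k : ℕ, c / 2 ^ k ≤ ω (Real.exp (- ∑ j ∈ Finset.range k, L j))

end Pool.Lusin
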