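import Pool.Agent.Work.MP_4112db_an.PosAvg1

/-!
# MP_4112db_an : bump averages of a Sobolev map over dyadic cubes
-/

open MeasureTheory Set

namespace Pool.Lusin

/-- the averaging kernel of a dyadic cube -/
noncomputable def kap (n k : ℕ) (z : Fin n → ℤ) (y : En n) : ℝ :=
  ((2 : ℝ) ^ k) ^ n * kern n k z (fun _ => b0) y

lemma kap_nonneg (n k : ℕ) (z : Fin n → ℤ) (y : En n) : 0 ≤ kap n k z y :=
  mul_nonneg (by positivity) (Finset.prod_nonneg (fun _ _ => b0_nonneg _))

lemma kap_continuous (n k : ℕ) (z : Fin n → ℤ) : Continuous (kap n k z) :=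
  continuous_const.mul (kern_contDiff (fun _ => b0_contDiff)).continuous

lemma kap_eq_zero {n k : ℕ} {z : Fin n → ℤ} {y : En n} (hy : y ∉ cube n k z) :
    kap n k z y = 0 := by
  unfold kap
  rw [kern_eq_zero (fun _ _ h => b0_eq_zero' h) hy, mul_zero]

lemma kap_integral (n k : ℕ) (z : Fin n → ℤ) : ∫ y, kap n k z y = 1 := by
  have h1 : ∀ y : En n, kap n k z y =
      (fun x : Fin n → ℝ => ∏ i, (2 : ℝ) ^ k * b0 (2 ^ k * x i - z i))
        ((MeasurableEquiv.toLp 2 (Fin n → ℝ)).symm y) := by
    intro y
    unfold kap kern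
    simp only
    rw [Finset.prod_mul_distrib]
    simp
  have h0 : ∫ y, kap n k z y = ∫ x : Fin n → ℝ, ∏ i, (2 : ℝ) ^ k * b0 (2 ^ k * x i - z i) := by
    rw [← (EuclideanSpace.volume_preserving_symm_measurableEquiv_toLp (Fin n)).integral_comp'
      (fun x : Fin n → ℝ => ∏ i, (2 : ℝ) ^ k * b0 (2 ^ k * x i - z i))]
    exact integral_congr_ae (Filter.Eventually.of_forall h1)
  rw [h0]
  rw [integral_fintype_prod_volume_eq_prod
    (f := fun i (t : ℝ) => (2 : ℝ) ^ k * b0 (2 ^ k * t - z i))]
  apply Finset.prod_eq_one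
  intro i _
  rw [integral_const_mul]
  have h2 : ∫ t : ℝ, b0 (2 ^ k * t - z i) = |((2 : ℝ) ^ k)⁻¹| • ∫ t : ℝ, b0 (t - z i) :=
    Measure.integral_comp_mul_left (fun t => b0 (t - z i)) _
  rw [h2, integral_sub_right_eq_self (fun t => b0 t) (z i : ℝ), b0_integral,
    abs_of_pos (by positivity)]
  have : (2 : ℝ) ^ k ≠ 0 := by positivity
  simp

lemma measurableSet_cube (n k : ℕ) (z : Fin n → ℤ) : MeasurableSet (cube n k z) := by
  have : cube n k z = ⋂ i, {y : En n | (z i : ℝ) ≤ 2 ^ k * y i ∧ 2 ^ k * y i < z i + 1} := by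
    ext y
    simp [cube]
  rw [this]
  apply MeasurableSet.iInter
  intro i
  have h1 : Measurable (fun y : En n => 2 ^ k * y i) :=
    (continuous_const.mul (continuous_coord i)).measurable
  exact (measurableSet_le measurable_const h1).inter (measurableSet_lt h1 measurable_const)

/-- integrability of `φ • f` when `φ` is continuous and vanishes outside a compact subset. -/
lemma integrableOn_smul {n : ℕ} {Ω K : Set (En n)} (hΩ : MeasurableSet Ω) {V : Type*}
    [NormedAddCommGroup V] [NormedSpace ℝ V]
    (hK : IsCompact K) (hKΩ : K ⊆ Ω) {φ : En n → ℝ} (hφ : Continuous φ)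
    (hz : ∀ y, y ∉ K → φ y = 0) {f : En n → V} (hf : ContinuousOn f Ω) :
    IntegrableOn (fun y => φ y • f y) Ω := by
  have h1 : IntegrableOn (fun y => φ y • f y) K :=
    (hφ.continuousOn.smul (hf.mono hKΩ)).integrableOn_compact hK
  exact h1.of_forall_sdiff_eq_zero hΩ (fun x hx => by rw [hz x hx.2, zero_smul])

lemma setIntegral_kap {n k : ℕ} {z : Fin n → ℤ} {Ω : Set (En n)}
    (h : ccube n k z ⊆ Ω) : ∫ y in Ω, kap n k z y = 1 := by
  rw [setIntegral_eq_integral_of_forall_compl_eq_zero, kap_integral]
  intro y hy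
  exact kap_eq_zero (fun hc => hy (h (cube_subset_ccube n k z hc)))

/-- bump average of `f` over the cube -/
noncomputable def avg (n : ℕ) (Ω : Set (En n)) (f : En n → En n) (k : ℕ) (z : Fin n → ℤ) : En n :=
  ∫ y in Ω, kap n k z y • f y

lemma norm_le_sum_abs_coord {n : ℕ} (v : En n) : ‖v‖ ≤ ∑ i, |v i| := by
  rw [EuclideanSpace.norm_eq]
  apply Real.sqrt_le_iff.2
  constructor
  · exact Finset.sum_nonneg (fun i _ => abs_nonneg _)
  · simp only [Real.norm_eq_abs]
    exact Finset.sum_sq_le_sq_sum_of_nonneg (fun i _ => abs_nonneg _)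

lemma avg_close {n k : ℕ} {z : Fin n → ℤ} {Ω : Set (En n)} (hΩ : IsOpen Ω) {f : En n → En n}
    (hf : ContinuousOn f Ω) (h : ccube n k z ⊆ Ω) {w : En n} {M : ℝ}
    (hM : ∀ y ∈ ccube n k z, ‖w - f y‖ ≤ M) : ‖w - avg n Ω f k z‖ ≤ M := by
  have hint : IntegrableOn (fun y => kap n k z y • f y) Ω :=
    integrableOn_smul hΩ.measurableSet (ccube_compact n k z) h (kap_continuous n k z)
      (fun y hy => kap_eq_zero (fun hc => hy (cube_subset_ccube n k z hc))) hf
  have hint2 : IntegrableOn (fun y => kap n k z y • w) Ω :=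
    integrableOn_smul hΩ.measurableSet (ccube_compact n k z) h (kap_continuous n k z)
      (fun y hy => kap_eq_zero (fun hc => hy (cube_subset_ccube n k z hc))) continuousOn_const
  have hint3 : IntegrableOn (fun y => kap n k z y * M) Ω :=
    integrableOn_smul (V := ℝ) hΩ.measurableSet (ccube_compact n k z) h (kap_continuous n k z)
      (fun y hy => kap_eq_zero (fun hc => hy (cube_subset_ccube n k z hc))) continuousOn_const
  have h1 : w - avg n Ω f k z = ∫ y in Ω, kap n k z y • (w - f y) := by
    have h2 : w = ∫ y in Ω, kap n k z y • w := by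
      rw [integral_smul_const, setIntegral_kap h, one_smul]
    conv_lhs => rw [h2]
    unfold avg
    rw [← integral_sub hint2 hint]
    simp only [smul_sub]
  rw [h1]
  calc ‖∫ y in Ω, kap n k z y • (w - f y)‖ ≤ ∫ y in Ω, kap n k z y * M := by
        apply norm_integral_le_of_norm_le hint3
        apply (ae_restrict_iff' hΩ.measurableSet).2
        apply Filter.Eventually.of_forall
        intro y hy
        rw [norm_smul, Real.norm_eq_abs, abs_of_nonneg (kap_nonneg _ _ _ _)]
        by_cases hc : y ∈ cube n k z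
        · exact mul_le_mul_of_nonneg_left (hM y (cube_subset_ccube n k z hc))
            (kap_nonneg _ _ _ _)
        · rw [kap_eq_zero hc, zero_mul, zero_mul]
    _ = M := by
        rw [integral_mul_const, setIntegral_kap h, one_mul]

/-- the profiles in the telescoping identity -/
noncomputable def avgProf {n : ℕ} (e : Fin n → ℝ) (i j : Fin n) : ℝ → ℝ :=
  if j < i then bE (e j) else if j = i then BE (e i) else b0

lemma prof_prof {n : ℕ} {e : Fin n → ℝ} (he : ∀ i, e i = 0 ∨ e i = 1) {C : ℝ}
    (h0 : Prof C b0) (h1 : ∀ e : ℝ, e = 0 ∨ e = 1 → Prof C (bE e))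
    (h2 : ∀ e : ℝ, e = 0 ∨ e = 1 → Prof C (BE e)) (i j : Fin n) : Prof C (avgProf e i j) := by
  unfold avgProf
  split_ifs
  · exact h1 _ (he j)
  · exact h2 _ (he i)
  · exact h0

lemma prod_split {n : ℕ} (i : Fin n) (h : Fin n → ℝ) :
    ∏ j, h j = h i * (∏ j with j < i, h j) * ∏ j with i < j, h j := by
  rw [← Finset.mul_prod_erase Finset.univ _ (Finset.mem_univ i), mul_assoc]
  congr 1
  rw [← Finset.prod_filter_mul_prod_filter_not (Finset.univ.erase i) (fun j => j < i)]
  congr 1
  · apply Finset.prod_congr _ (fun _ _ => rfl)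
    ext j
    simp only [Finset.mem_filter, Finset.mem_erase, Finset.mem_univ, and_true, true_and]
    constructor
    · exact fun h => h.2
    · exact fun h => ⟨h.ne, h⟩
  · apply Finset.prod_congr _ (fun _ _ => rfl)
    ext j
    simp only [Finset.mem_filter, Finset.mem_erase, Finset.mem_univ, and_true, true_and, not_lt]
    constructor
    · exact fun h => lt_of_le_of_ne h.2 (Ne.symm h.1)
    · exact fun h => ⟨h.ne', h.le⟩

/-- the telescoping identity of kernels. -/
lemma kap_sub {n k : ℕ} (z : Fin n → ℤ) (y : En n) :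
    kap n (k + 1) z y - kap n k (dpar z) y =
      ((2 : ℝ) ^ k) ^ n / 2 ^ k * ∑ i, fderiv ℝ (kern n k (dpar z)
        (avgProf (fun j => (z j : ℝ) - 2 * (dpar z j)) i)) y (EuclideanSpace.single i (1 : ℝ)) := by
  set e : Fin n → ℝ := fun j => (z j : ℝ) - 2 * (dpar z j) with he
  set s : Fin n → ℝ := fun j => 2 ^ k * y j - (dpar z j : ℝ) with hs
  have h1 : kap n (k + 1) z y = ((2 : ℝ) ^ k) ^ n * ∏ i, bE (e i) (s i) := by
    unfold kap kern bE
    rw [Finset.prod_mul_distrib]
    simp only [Finset.prod_const, Finset.card_univ, Fintype.card_fin]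
    rw [pow_succ (2 : ℝ) k, mul_pow, mul_assoc]
    congr 2
    apply Finset.prod_congr rfl
    intro i _
    congr 1
    simp only [hs, he]
    ring
  have h2 : kap n k (dpar z) y = ((2 : ℝ) ^ k) ^ n * ∏ i, b0 (s i) := rfl
  have h3 : ∀ i, fderiv ℝ (kern n k (dpar z) (avgProf e i)) y (EuclideanSpace.single i (1 : ℝ)) =
      2 ^ k * ((bE (e i) (s i) - b0 (s i)) * (∏ j with j < i, bE (e j) (s j)) *
        ∏ j with i < j, b0 (s j)) := by
    intro i
    rw [kern_fderiv (γ := fun t => bE (e i) t - b0 t)]
    · unfold kern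
      rw [prod_split i]
      simp only [Function.update_self]
      have e1 : ∏ j with j < i, Function.update (avgProf e i) i (fun t => bE (e i) t - b0 t) j
          (2 ^ k * y j - (dpar z j : ℝ)) = ∏ j with j < i, bE (e j) (s j) := by
        apply Finset.prod_congr rfl
        intro j hj
        have hj' : j < i := (Finset.mem_filter.1 hj).2
        rw [Function.update_of_ne hj'.ne]
        unfold avgProf
        rw [if_pos hj']
      have e2 : ∏ j with i < j, Function.update (avgProf e i) i (fun t => bE (e i) t - b0 t) j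
          (2 ^ k * y j - (dpar z j : ℝ)) = ∏ j with i < j, b0 (s j) := by
        apply Finset.prod_congr rfl
        intro j hj
        have hj' : i < j := (Finset.mem_filter.1 hj).2
        rw [Function.update_of_ne hj'.ne']
        unfold avgProf
        rw [if_neg (not_lt.2 hj'.le), if_neg hj'.ne']
      rw [e1, e2]
    · intro j
      unfold avgProf
      split_ifs
      · exact bE_contDiff _
      · exact BE_contDiff _
      · exact b0_contDiff
    · intro t
      have : avgProf e i i = BE (e i) := by
        unfold avgProf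
        simp
      rw [this]
      exact BE_hasDerivAt _ _
  rw [h1, h2]
  simp_rw [h3]
  have h4 := Finset.prod_sub_ordered (Finset.univ : Finset (Fin n)) (fun i => b0 (s i))
    (fun i => b0 (s i) - bE (e i) (s i))
  simp only [sub_sub_cancel] at h4
  rw [h4, ← Finset.mul_sum]
  have h5 : (2 : ℝ) ^ k ≠ 0 := by positivity
  have h6 : ∑ i, (b0 (s i) - bE (e i) (s i)) * (∏ j with j < i, bE (e j) (s j)) *
      ∏ j with i < j, b0 (s j) = - ∑ i, (bE (e i) (s i) - b0 (s i)) *
      (∏ j with j < i, bE (e j) (s j)) * ∏ j with i < j, b0 (s j) := by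
    rw [← Finset.sum_neg_distrib]
    apply Finset.sum_congr rfl
    intro i _
    ring
  rw [h6]
  field_simp
  ring

lemma dpar_cases {n : ℕ} (z : Fin n → ℤ) (j : Fin n) :
    (z j : ℝ) - 2 * (dpar z j) = 0 ∨ (z j : ℝ) - 2 * (dpar z j) = 1 := by
  unfold dpar
  have h := Int.emod_two_eq_zero_or_one (z j)
  have h1 := Int.emod_add_mul_ediv (z j) 2
  have h2 : ((z j % 2 : ℤ) : ℝ) + 2 * ((z j / 2 : ℤ) : ℝ) = (z j : ℝ) := by exact_mod_cast h1
  rcases h with h | h
  · left
    rw [h] at h2
    push_cast at h2
    linarith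
  · right
    rw [h] at h2
    push_cast at h2
    linarith

lemma ccube_child {n k : ℕ} (z : Fin n → ℤ) : ccube n (k + 1) z ⊆ ccube n k (dpar z) := by
  intro y hy i
  have h1 := hy i
  have h2 := dpar_cases z i
  rw [pow_succ] at h1
  rcases h2 with h2 | h2 <;> constructor <;> nlinarith [h1.1, h1.2]

/-- Module M1. -/
theorem avgStatement (n : ℕ) (hn : 2 ≤ n) : AvgStatement n := by
  obtain ⟨C, hC1, hb0, hbE, hBE⟩ := exists_prof
  refine ⟨C ^ n, by positivity, fun Ω hΩ f g hf hwk hg => ⟨avg n Ω f, ?_, ?_⟩⟩
  · intro k z hz w M hM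
    have h1 := avg_close hΩ hf hz hM
    have hM0 : 0 ≤ M := (norm_nonneg _).trans h1
    have h2 : (1 : ℝ) ≤ C ^ n := one_le_pow₀ hC1
    nlinarith
  · intro k z hz
    set e : Fin n → ℝ := fun j => (z j : ℝ) - 2 * (dpar z j) with he
    have he01 : ∀ i, e i = 0 ∨ e i = 1 := fun i => dpar_cases z i
    have hprof : ∀ i j, Prof C (avgProf e i j) := fun i j => prof_prof he01 hb0 hbE hBE i j
    have hz' : ccube n (k + 1) z ⊆ Ω := (ccube_child z).trans hz
    have hint1 : IntegrableOn (fun y => kap n (k + 1) z y • f y) Ω :=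
      integrableOn_smul hΩ.measurableSet (ccube_compact n (k + 1) z) hz' (kap_continuous _ _ _)
        (fun y hy => kap_eq_zero (fun hc => hy (cube_subset_ccube _ _ _ hc))) hf
    have hint2 : IntegrableOn (fun y => kap n k (dpar z) y • f y) Ω :=
      integrableOn_smul hΩ.measurableSet (ccube_compact n k (dpar z)) hz (kap_continuous _ _ _)
        (fun y hy => kap_eq_zero (fun hc => hy (cube_subset_ccube _ _ _ hc))) hf
    set G : Fin n → En n → ℝ := fun i y => fderiv ℝ (kern n k (dpar z) (avgProf e i)) y
      (EuclideanSpace.single i (1 : ℝ)) with hG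
    have hGc : ∀ i, Continuous (G i) := by
      intro i
      have h1 : ContDiff ℝ (⊤ : ℕ∞) (kern n k (dpar z) (avgProf e i)) :=
        kern_contDiff (fun j => (hprof i j).smooth)
      exact (h1.continuous_fderiv (by simp)).clm_apply continuous_const
    have hGz : ∀ i, ∀ y, y ∉ ccube n k (dpar z) → G i y = 0 := by
      intro i y hy
      have h1 : y ∉ tsupport (kern n k (dpar z) (avgProf e i)) :=
        fun hc => hy (kern_tsupport (fun j => (hprof i j).zero) hc)
      have h2 : y ∉ Function.support (fderiv ℝ (kern n k (dpar z) (avgProf e i))) :=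
        fun hc => h1 (support_fderiv_subset ℝ hc)
      simp only [hG]
      rw [Function.notMem_support.1 h2]
      simp
    have hfj : ∀ j, ContinuousOn (fun y => f y j) Ω := fun j =>
      (continuous_coord j).comp_continuousOn hf
    have hintG : ∀ i j, IntegrableOn (fun y => f y j * G i y) Ω := by
      intro i j
      have h1 := integrableOn_smul (V := ℝ) hΩ.measurableSet (ccube_compact n k (dpar z)) hz
        (hGc i) (hGz i) (hfj j)
      refine h1.congr (Filter.Eventually.of_forall (fun y => ?_))
      simp [mul_comm]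
    -- coordinates
    have hcoord : ∀ j, (avg n Ω f (k + 1) z - avg n Ω f k (dpar z)) j =
        ((2 : ℝ) ^ k) ^ n / 2 ^ k * ∑ i, ∫ y in Ω, f y j * G i y := by
      intro j
      have h1 : avg n Ω f (k + 1) z - avg n Ω f k (dpar z) =
          ∫ y in Ω, (kap n (k + 1) z y - kap n k (dpar z) y) • f y := by
        unfold avg
        rw [← integral_sub hint1 hint2]
        simp only [sub_smul]
      have hint3 : IntegrableOn (fun y => (kap n (k + 1) z y - kap n k (dpar z) y) • f y) Ω := by
        have := Integrable.sub hint1 hint2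
        refine this.congr (Filter.Eventually.of_forall (fun y => ?_))
        simp [sub_smul]
      rw [h1]
      have h2 : (∫ y in Ω, (kap n (k + 1) z y - kap n k (dpar z) y) • f y) j =
          ∫ y in Ω, ((kap n (k + 1) z y - kap n k (dpar z) y) • f y) j :=
        ((EuclideanSpace.proj (𝕜 := ℝ) j).integral_comp_comm hint3).symm
      rw [h2]
      have h3 : ∀ y, ((kap n (k + 1) z y - kap n k (dpar z) y) • f y) j =
          ((2 : ℝ) ^ k) ^ n / 2 ^ k * ∑ i, f y j * G i y := by
        intro y
        rw [kap_sub]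
        simp only [PiLp.smul_apply, smul_eq_mul]
        rw [mul_assoc, Finset.sum_mul]
        congr 1
        apply Finset.sum_congr rfl
        intro i _
        rw [mul_comm]
      simp_rw [h3]
      rw [integral_const_mul, integral_finsetSum _ (fun i _ => hintG i j)]
    -- weak derivative
    have hweak : ∀ i j, ∫ y in Ω, f y j * G i y =
        - ∫ y in Ω, g i j y * kern n k (dpar z) (avgProf e i) y := by
      intro i j
      exact hwk i j _ (kern_contDiff (fun l => (hprof i l).smooth))
        (kern_compact (fun l => (hprof i l).zero))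
        ((kern_tsupport (fun l => (hprof i l).zero)).trans hz)
    have hcube : cube n k (dpar z) ⊆ Ω := (cube_subset_ccube _ _ _).trans hz
    have hgint : ∀ i j, IntegrableOn (g i j) (cube n k (dpar z)) := by
      intro i j
      have h1 : MemLp (g i j) (n : ENNReal) (volume.restrict (cube n k (dpar z))) :=
        (hg i j).mono_measure (Measure.restrict_mono hcube le_rfl)
      have : IsFiniteMeasure (volume.restrict (cube n k (dpar z))) := by
        constructor
        rw [Measure.restrict_apply_univ]
        exact lt_of_le_of_lt (measure_mono (cube_subset_ccube _ _ _))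
          (ccube_compact n k (dpar z)).measure_lt_top
      exact h1.integrable (by exact_mod_cast (by omega : 1 ≤ n))
    have hbound : ∀ i j, |∫ y in Ω, f y j * G i y| ≤
        C ^ n * ∫ y in cube n k (dpar z), |g i j y| := by
      intro i j
      rw [hweak, abs_neg]
      have h1 : ∫ y in Ω, g i j y * kern n k (dpar z) (avgProf e i) y =
          ∫ y in cube n k (dpar z), g i j y * kern n k (dpar z) (avgProf e i) y := by
        apply setIntegral_eq_of_subset_of_forall_sdiff_eq_zero hΩ.measurableSet hcube
        intro y hy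
        rw [kern_eq_zero (fun l => (hprof i l).zero) hy.2, mul_zero]
      rw [h1, ← integral_const_mul]
      rw [← Real.norm_eq_abs]
      apply norm_integral_le_of_norm_le ((hgint i j).abs.const_mul (C ^ n))
      apply Filter.Eventually.of_forall
      intro y
      rw [norm_mul, Real.norm_eq_abs, Real.norm_eq_abs, mul_comm]
      exact mul_le_mul_of_nonneg_right (kern_bound (fun l => (hprof i l).bound) y) (abs_nonneg _)
    have hpos : (0 : ℝ) ≤ ((2 : ℝ) ^ k) ^ n / 2 ^ k := by positivity
    calc ‖avg n Ω f (k + 1) z - avg n Ω f k (dpar z)‖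
        ≤ ∑ j, |(avg n Ω f (k + 1) z - avg n Ω f k (dpar z)) j| := norm_le_sum_abs_coord _
      _ ≤ ∑ j, ((2 : ℝ) ^ k) ^ n / 2 ^ k *
            ∑ i, C ^ n * ∫ y in cube n k (dpar z), |g i j y| := by
          apply Finset.sum_le_sum
          intro j _
          rw [hcoord, abs_mul, abs_of_nonneg hpos]
          apply mul_le_mul_of_nonneg_left _ hpos
          exact (Finset.abs_sum_le_sum_abs _ _).trans
            (Finset.sum_le_sum (fun i _ => hbound i j))
      _ = C ^ n * ((2 : ℝ) ^ k) ^ n / 2 ^ k *
            ∫ y in cube n k (dpar z), ∑ i, ∑ j, |g i j y| := by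
          rw [integral_finsetSum _ (fun i _ => integrable_finsetSum _
            (fun j _ => (hgint i j).abs))]
          have h2 : ∀ i, ∫ y in cube n k (dpar z), ∑ j, |g i j y| =
              ∑ j, ∫ y in cube n k (dpar z), |g i j y| := fun i =>
            integral_finsetSum _ (fun j _ => (hgint i j).abs)
          simp_rw [h2]
          rw [Finset.sum_comm, ← Finset.mul_sum]
          simp_rw [← Finset.mul_sum]
          rw [Finset.sum_comm]
          ring

end Pool.Lusin
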