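import Pool.Agent.Work.MP_4112db_an.PosDefs

/-!
# MP_4112db_an : one-dimensional bumps and tensor kernels
-/

open MeasureTheory Set

namespace Pool.Lusin

/-- one-dimensional bump data -/
noncomputable def bb : ContDiffBump (1 / 2 : ℝ) := ⟨1 / 8, 1 / 4, by norm_num, by norm_num⟩

/-- smooth probability density supported in `(1/4,3/4)`. -/
noncomputable def b0 : ℝ → ℝ := bb.normed volume

lemma b0_contDiff : ContDiff ℝ (⊤ : ℕ∞) b0 := bb.contDiff_normed

lemma b0_nonneg (t : ℝ) : 0 ≤ b0 t := bb.nonneg_normed t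

lemma b0_integral : ∫ t, b0 t = 1 := bb.integral_normed

lemma b0_support : Function.support b0 = Metric.ball (1 / 2) (1 / 4) := bb.support_normed_eq

lemma b0_eq_zero {t : ℝ} (h : t ≤ 1 / 4 ∨ 3 / 4 ≤ t) : b0 t = 0 := by
  by_contra hne
  have : t ∈ Function.support b0 := hne
  rw [b0_support, Metric.mem_ball, Real.dist_eq, abs_lt] at this
  rcases h with h | h <;> linarith [this.1, this.2]

/-- the child densities. -/
noncomputable def bE (e : ℝ) (t : ℝ) : ℝ := 2 * b0 (2 * t - e)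

lemma bE_contDiff (e : ℝ) : ContDiff ℝ (⊤ : ℕ∞) (bE e) := by
  unfold bE
  exact contDiff_const.mul (b0_contDiff.comp ((contDiff_const.mul contDiff_id).sub contDiff_const))

lemma bE_nonneg (e t : ℝ) : 0 ≤ bE e t := mul_nonneg (by norm_num) (b0_nonneg _)

lemma bE_eq_zero {e : ℝ} (he : 0 ≤ e ∧ e ≤ 1) {t : ℝ} (h : t ≤ 1 / 8 ∨ 7 / 8 ≤ t) :
    bE e t = 0 := by
  unfold bE
  rw [b0_eq_zero, mul_zero]
  rcases h with h | h
  · left
    linarith [he.1]
  · right
    linarith [he.2]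

lemma b0_eq_zero' {t : ℝ} (h : t ≤ 1 / 8 ∨ 7 / 8 ≤ t) : b0 t = 0 := by
  apply b0_eq_zero
  rcases h with h | h
  · left; linarith
  · right; linarith

lemma bE_integral (e : ℝ) : ∫ t, bE e t = 1 := by
  unfold bE
  rw [integral_const_mul]
  have h1 : ∫ t : ℝ, b0 (2 * t - e) = |(2 : ℝ)⁻¹| • ∫ t : ℝ, b0 (t - e) :=
    Measure.integral_comp_mul_left (fun t => b0 (t - e)) 2
  rw [h1, integral_sub_right_eq_self (fun t => b0 t) e, b0_integral]
  norm_num

/-- primitive of `bE e - b0`. -/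
noncomputable def BE (e : ℝ) (t : ℝ) : ℝ := ∫ u in (0 : ℝ)..t, (bE e u - b0 u)

lemma bE_sub_continuous (e : ℝ) : Continuous (fun u => bE e u - b0 u) :=
  (bE_contDiff e).continuous.sub b0_contDiff.continuous

lemma BE_hasDerivAt (e t : ℝ) : HasDerivAt (BE e) (bE e t - b0 t) t :=
  intervalIntegral.integral_hasDerivAt_right
    ((bE_sub_continuous e).intervalIntegrable _ _)
    ((bE_sub_continuous e).stronglyMeasurableAtFilter _ _)
    (bE_sub_continuous e).continuousAt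

lemma BE_contDiff (e : ℝ) : ContDiff ℝ (⊤ : ℕ∞) (BE e) := by
  rw [contDiff_infty_iff_deriv]
  refine ⟨fun t => (BE_hasDerivAt e t).differentiableAt, ?_⟩
  have : deriv (BE e) = fun t => bE e t - b0 t := by
    ext t
    exact (BE_hasDerivAt e t).deriv
  rw [this]
  exact (bE_contDiff e).sub b0_contDiff

lemma integral_eq_interval (u : ℝ → ℝ) (hu : ∀ t, t ≤ 1 / 8 ∨ 7 / 8 ≤ t → u t = 0)
    {t : ℝ} (ht : 7 / 8 ≤ t) : ∫ x in (0 : ℝ)..t, u x = ∫ x, u x := by
  rw [intervalIntegral.integral_of_le (by linarith)]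
  apply setIntegral_eq_integral_of_forall_compl_eq_zero
  intro x hx
  apply hu
  by_contra hcon
  push Not at hcon
  exact hx ⟨by linarith [hcon.1], by linarith [hcon.2]⟩

lemma BE_eq_zero {e : ℝ} (he : 0 ≤ e ∧ e ≤ 1) {t : ℝ} (h : t ≤ 1 / 8 ∨ 7 / 8 ≤ t) :
    BE e t = 0 := by
  rcases h with h | h
  · unfold BE
    have h1 : ∀ x ∈ uIcc (0 : ℝ) t, bE e x - b0 x = 0 := by
      intro x hx
      have hx1 : x ≤ 1 / 8 := by
        rcases le_total 0 t with h0 | h0
        · rw [uIcc_of_le h0] at hx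
          linarith [hx.2]
        · rw [uIcc_of_ge h0] at hx
          linarith [hx.2]
      rw [bE_eq_zero he (Or.inl hx1), b0_eq_zero' (Or.inl hx1), sub_zero]
    rw [intervalIntegral.integral_congr h1]
    simp
  · unfold BE
    rw [integral_eq_interval _ _ h]
    · rw [integral_sub]
      · rw [bE_integral, b0_integral, sub_self]
      · exact Integrable.of_integral_ne_zero (by rw [bE_integral]; norm_num)
      · exact Integrable.of_integral_ne_zero (by rw [b0_integral]; norm_num)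
    · intro t ht
      rw [bE_eq_zero he ht, b0_eq_zero' ht, sub_zero]

/-- admissible one-dimensional profiles with bound `C`. -/
structure Prof (C : ℝ) (u : ℝ → ℝ) : Prop where
  smooth : ContDiff ℝ (⊤ : ℕ∞) u
  zero : ∀ t, t ≤ 1 / 8 ∨ 7 / 8 ≤ t → u t = 0
  bound : ∀ t, |u t| ≤ C

lemma exists_bound (u : ℝ → ℝ) (hc : Continuous u) (hz : ∀ t, t ≤ 1 / 8 ∨ 7 / 8 ≤ t → u t = 0) :
    ∃ C : ℝ, ∀ t, |u t| ≤ C := by
  obtain ⟨C, hC⟩ := (isCompact_Icc (a := (1 / 8 : ℝ)) (b := 7 / 8)).exists_bound_of_continuousOn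
    hc.continuousOn
  refine ⟨max C 0, fun t => ?_⟩
  by_cases h : t ∈ Icc (1 / 8 : ℝ) (7 / 8)
  · exact (hC t h).trans (le_max_left _ _)
  · rw [hz t, abs_zero]
    · exact le_max_right _ _
    · by_contra hcon
      push Not at hcon
      exact h ⟨hcon.1.le, hcon.2.le⟩

/-- a common bound for all profiles used. -/
lemma exists_prof : ∃ C : ℝ, 1 ≤ C ∧ Prof C b0 ∧ (∀ e : ℝ, e = 0 ∨ e = 1 → Prof C (bE e)) ∧
    (∀ e : ℝ, e = 0 ∨ e = 1 → Prof C (BE e)) := by
  have h01 : ∀ e : ℝ, e = 0 ∨ e = 1 → 0 ≤ e ∧ e ≤ 1 := by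
    rintro e (h | h) <;> rw [h] <;> norm_num
  obtain ⟨C1, h1⟩ := exists_bound b0 b0_contDiff.continuous (fun t ht => b0_eq_zero' ht)
  obtain ⟨C2, h2⟩ := exists_bound (bE 0) (bE_contDiff 0).continuous
    (fun t ht => bE_eq_zero (h01 0 (Or.inl rfl)) ht)
  obtain ⟨C3, h3⟩ := exists_bound (bE 1) (bE_contDiff 1).continuous
    (fun t ht => bE_eq_zero (h01 1 (Or.inr rfl)) ht)
  obtain ⟨C4, h4⟩ := exists_bound (BE 0) (BE_contDiff 0).continuous
    (fun t ht => BE_eq_zero (h01 0 (Or.inl rfl)) ht)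
  obtain ⟨C5, h5⟩ := exists_bound (BE 1) (BE_contDiff 1).continuous
    (fun t ht => BE_eq_zero (h01 1 (Or.inr rfl)) ht)
  set C : ℝ := max 1 (max C1 (max C2 (max C3 (max C4 C5)))) with hC
  refine ⟨C, le_max_left _ _, ⟨b0_contDiff, fun t ht => b0_eq_zero' ht, fun t => ?_⟩, ?_, ?_⟩
  · exact (h1 t).trans (by simp [hC])
  · rintro e (rfl | rfl)
    · exact ⟨bE_contDiff _, fun t ht => bE_eq_zero (h01 0 (Or.inl rfl)) ht,
        fun t => (h2 t).trans (by simp [hC])⟩
    · exact ⟨bE_contDiff _, fun t ht => bE_eq_zero (h01 1 (Or.inr rfl)) ht,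
        fun t => (h3 t).trans (by simp [hC])⟩
  · rintro e (rfl | rfl)
    · exact ⟨BE_contDiff _, fun t ht => BE_eq_zero (h01 0 (Or.inl rfl)) ht,
        fun t => (h4 t).trans (by simp [hC])⟩
    · exact ⟨BE_contDiff _, fun t ht => BE_eq_zero (h01 1 (Or.inr rfl)) ht,
        fun t => (h5 t).trans (by simp [hC])⟩

/-- tensor kernels. -/
noncomputable def kern (n k : ℕ) (z : Fin n → ℤ) (β : Fin n → ℝ → ℝ) (y : En n) : ℝ :=
  ∏ i, β i (2 ^ k * y i - z i)

lemma kern_contDiff {n k : ℕ} {z : Fin n → ℤ} {β : Fin n → ℝ → ℝ}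
    (hβ : ∀ i, ContDiff ℝ (⊤ : ℕ∞) (β i)) : ContDiff ℝ (⊤ : ℕ∞) (kern n k z β) := by
  unfold kern
  apply contDiff_prod
  intro i _
  apply (hβ i).comp
  apply ContDiff.sub _ contDiff_const
  apply ContDiff.mul contDiff_const
  exact (EuclideanSpace.proj (𝕜 := ℝ) i).contDiff

lemma kern_eq_zero {n k : ℕ} {z : Fin n → ℤ} {β : Fin n → ℝ → ℝ}
    (hβ : ∀ i t, t ≤ 1 / 8 ∨ 7 / 8 ≤ t → β i t = 0) {y : En n} (hy : y ∉ cube n k z) :
    kern n k z β y = 0 := by
  simp only [cube, mem_ofPred_eq, not_forall] at hy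
  obtain ⟨i, hi⟩ := hy
  apply Finset.prod_eq_zero (Finset.mem_univ i)
  apply hβ
  by_contra hcon
  push Not at hcon
  apply hi
  constructor <;> linarith [hcon.1, hcon.2]

lemma cube_subset_ccube (n k : ℕ) (z : Fin n → ℤ) : cube n k z ⊆ ccube n k z :=
  fun _ hy i => ⟨(hy i).1, (hy i).2.le⟩

lemma continuous_coord {n : ℕ} (i : Fin n) : Continuous (fun y : En n => y i) :=
  (EuclideanSpace.proj (𝕜 := ℝ) i).continuous

lemma ccube_closed (n k : ℕ) (z : Fin n → ℤ) : IsClosed (ccube n k z) := by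
  have : ccube n k z = ⋂ i, {y : En n | (z i : ℝ) ≤ 2 ^ k * y i ∧ 2 ^ k * y i ≤ z i + 1} := by
    ext y
    simp [ccube]
  rw [this]
  apply isClosed_iInter
  intro i
  have h1 : Continuous (fun y : En n => 2 ^ k * y i) := continuous_const.mul (continuous_coord i)
  exact (isClosed_le continuous_const h1).inter (isClosed_le h1 continuous_const)

lemma ccube_bounded (n k : ℕ) (z : Fin n → ℤ) : Bornology.IsBounded (ccube n k z) := by
  rw [isBounded_iff_forall_norm_le]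
  refine ⟨∑ i : Fin n, (|(z i : ℝ)| + 1), fun y hy => ?_⟩
  have h1 : ‖y‖ ≤ ∑ i, |y i| := by
    rw [EuclideanSpace.norm_eq]
    apply Real.sqrt_le_iff.2
    constructor
    · exact Finset.sum_nonneg (fun i _ => abs_nonneg _)
    · simp only [Real.norm_eq_abs]
      exact Finset.sum_sq_le_sq_sum_of_nonneg (fun i _ => abs_nonneg _)
  refine h1.trans (Finset.sum_le_sum (fun i _ => ?_))
  have h2 := hy i
  have h3 : (1 : ℝ) ≤ 2 ^ k := one_le_pow₀ (by norm_num)
  have h4 : |2 ^ k * y i| ≤ |(z i : ℝ)| + 1 := by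
    rw [abs_le]
    have h5 := neg_abs_le (z i : ℝ)
    have h6 := le_abs_self (z i : ℝ)
    constructor <;> linarith [h2.1, h2.2]
  rw [abs_mul, abs_of_pos (by positivity : (0 : ℝ) < 2 ^ k)] at h4
  nlinarith [abs_nonneg (y i)]

lemma ccube_compact (n k : ℕ) (z : Fin n → ℤ) : IsCompact (ccube n k z) :=
  Metric.isCompact_of_isClosed_isBounded (ccube_closed n k z) (ccube_bounded n k z)

lemma kern_support {n k : ℕ} {z : Fin n → ℤ} {β : Fin n → ℝ → ℝ}
    (hβ : ∀ i t, t ≤ 1 / 8 ∨ 7 / 8 ≤ t → β i t = 0) :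
    Function.support (kern n k z β) ⊆ cube n k z := by
  intro y hy
  by_contra hcon
  exact hy (kern_eq_zero hβ hcon)

lemma kern_tsupport {n k : ℕ} {z : Fin n → ℤ} {β : Fin n → ℝ → ℝ}
    (hβ : ∀ i t, t ≤ 1 / 8 ∨ 7 / 8 ≤ t → β i t = 0) :
    tsupport (kern n k z β) ⊆ ccube n k z :=
  closure_minimal ((kern_support hβ).trans (cube_subset_ccube n k z)) (ccube_closed n k z)

lemma kern_compact {n k : ℕ} {z : Fin n → ℤ} {β : Fin n → ℝ → ℝ}
    (hβ : ∀ i t, t ≤ 1 / 8 ∨ 7 / 8 ≤ t → β i t = 0) :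
    HasCompactSupport (kern n k z β) :=
  (ccube_compact n k z).of_isClosed_subset (isClosed_tsupport _) (kern_tsupport hβ)

lemma kern_bound {n k : ℕ} {z : Fin n → ℤ} {β : Fin n → ℝ → ℝ} {C : ℝ}
    (hβ : ∀ i t, |β i t| ≤ C) (y : En n) : |kern n k z β y| ≤ C ^ n := by
  unfold kern
  rw [Finset.abs_prod]
  calc ∏ i, |β i (2 ^ k * y i - z i)| ≤ ∏ _i : Fin n, C :=
        Finset.prod_le_prod (fun i _ => abs_nonneg _) (fun i _ => hβ i _)
    _ = C ^ n := by simp

/-- directional derivatives of tensor kernels. -/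
lemma kern_fderiv {n k : ℕ} {z : Fin n → ℤ} {β : Fin n → ℝ → ℝ} {i : Fin n} {γ : ℝ → ℝ}
    (hβ : ∀ j, ContDiff ℝ (⊤ : ℕ∞) (β j)) (hγ : ∀ t, HasDerivAt (β i) (γ t) t) (y : En n) :
    fderiv ℝ (kern n k z β) y (EuclideanSpace.single i (1 : ℝ)) =
      2 ^ k * kern n k z (Function.update β i γ) y := by
  have h1 : ∀ j ∈ (Finset.univ : Finset (Fin n)),
      HasFDerivAt (fun y : En n => β j (2 ^ k * y j - z j))
        (deriv (β j) (2 ^ k * y j - z j) • ((2 : ℝ) ^ k • EuclideanSpace.proj (𝕜 := ℝ) j)) y := by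
    intro j _
    have h2 : HasFDerivAt (fun y : En n => 2 ^ k * y j - z j)
        ((2 : ℝ) ^ k • EuclideanSpace.proj (𝕜 := ℝ) j) y := by
      have h3 : HasFDerivAt (fun y : En n => y j) (EuclideanSpace.proj (𝕜 := ℝ) j) y :=
        (EuclideanSpace.proj (𝕜 := ℝ) j).hasFDerivAt
      exact (h3.const_mul ((2 : ℝ) ^ k)).sub_const _
    have h4 : HasDerivAt (β j) (deriv (β j) (2 ^ k * y j - z j)) (2 ^ k * y j - z j) :=
      ((hβ j).differentiable (by simp)).differentiableAt.hasDerivAt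
    exact h4.comp_hasFDerivAt y h2
  have h5 := HasFDerivAt.finsetProd h1
  have h6 : fderiv ℝ (kern n k z β) y = _ := h5.fderiv
  have hproj : ∀ j : Fin n, (EuclideanSpace.proj (𝕜 := ℝ) j)
      (EuclideanSpace.single i (1 : ℝ)) = if j = i then (1 : ℝ) else 0 := by
    intro j
    show (EuclideanSpace.single i (1 : ℝ)) j = _
    simp
  rw [h6]
  simp only [sum_apply, smul_apply, smul_eq_mul, hproj]
  rw [Finset.sum_eq_single i]
  · unfold kern
    rw [← Finset.mul_prod_erase Finset.univ _ (Finset.mem_univ i)]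
    simp only [Function.update_self, if_true]
    rw [(hγ _).deriv]
    have h7 : ∏ j ∈ Finset.univ.erase i, Function.update β i γ j (2 ^ k * y j - z j) =
        ∏ j ∈ Finset.univ.erase i, β j (2 ^ k * y j - z j) := by
      apply Finset.prod_congr rfl
      intro j hj
      rw [Function.update_of_ne (Finset.ne_of_mem_erase hj)]
    rw [h7]
    ring
  · intro j _ hj
    rw [if_neg hj]
    ring
  · intro h
    exact absurd (Finset.mem_univ i) h

end Pool.Lusin
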