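import Pool.Agent.Work.MP_4112db_an.Defs

/-!
# MP_4112db_an : the potential estimate
-/

open MeasureTheory Set Metric Pointwise

namespace Pool.Lusin.H30

lemma integrableOn_inv_norm_ball (n : ℕ) (hn : 2 ≤ n) (R : ℝ) :
    IntegrableOn (fun w : En n => 1 / ‖w‖) (ball 0 R) := by
  have hfin : Module.finrank ℝ (En n) = n := by simp [En]
  refine integrableOn_ball_of_norm_le_rpow (C := 1) (α := 1) ?_ ?_ ?_ ?_
  · rw [hfin]; omega
  · rw [hfin]; exact_mod_cast (by omega : 1 < n)
  · filter_upwards with x
    rw [Real.rpow_neg (norm_nonneg _), Real.rpow_one, one_mul, norm_div, norm_one, norm_norm,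
      one_div]
  · exact (measurable_const.div measurable_norm).aestronglyMeasurable

/-- The constant of the potential estimate. -/
noncomputable def potC (n : ℕ) : ℝ := ∫ w in ball (0 : En n) 1, 1 / ‖w‖

lemma potC_nonneg (n : ℕ) : 0 ≤ potC n :=
  integral_nonneg fun w => by positivity

lemma integral_inv_norm_ball (n : ℕ) (hn : 2 ≤ n) (R : ℝ) (hR : 0 < R) :
    ∫ w in ball (0 : En n) R, 1 / ‖w‖ = R ^ (n - 1) * potC n := by
  have hfin : Module.finrank ℝ (En n) = n := by simp [En]
  have h1 := Measure.setIntegral_comp_smul_of_pos (volume : Measure (En n))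
    (fun w : En n => 1 / ‖w‖) (ball 0 1) hR
  rw [hfin] at h1
  have h2 : R • ball (0 : En n) 1 = ball 0 R := by
    rw [smul_unitBall_of_pos hR]
  rw [h2] at h1
  have h3 : ∫ x in ball (0 : En n) 1, (fun w : En n => 1 / ‖w‖) (R • x) = R⁻¹ * potC n := by
    unfold potC
    rw [← integral_const_mul]
    apply integral_congr_ae
    filter_upwards with x
    simp only [norm_smul, Real.norm_eq_abs, abs_of_pos hR]
    field_simp
  rw [h3] at h1
  simp only [smul_eq_mul] at h1
  have hRn : R ^ n = R * R ^ (n - 1) := by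
    obtain ⟨j, rfl⟩ : ∃ j, n = j + 1 := ⟨n - 1, by omega⟩
    simp [pow_succ, mul_comm]
  have hR1 : R ^ (n - 1) ≠ 0 := by positivity
  have hR2 : R ≠ 0 := hR.ne'
  rw [hRn] at h1
  field_simp at h1 ⊢
  linarith

/-- Potential estimate: `∫_B dw / |w - u| ≤ |B| / R + C R^{n-1}`. -/
lemma pot (n : ℕ) (hn : 2 ≤ n) (u : En n) (B : Set (En n)) (hB : MeasurableSet B)
    (hBf : volume B ≠ ⊤) (R : ℝ) (hR : 0 < R) :
    IntegrableOn (fun w => 1 / ‖w - u‖) B ∧
      ∫ w in B, 1 / ‖w - u‖ ≤ (volume B).toReal / R + potC n * R ^ (n - 1) := by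
  -- on the ball
  have e1 : (fun w : En n => 1 / ‖w - u‖) = (fun w => (fun w : En n => 1 / ‖w‖) (w - u)) := rfl
  have hpre : (fun w : En n => w - u) ⁻¹' (ball 0 R) = ball u R := by
    ext w; simp [mem_ball, dist_eq_norm]
  have hmp : MeasurePreserving (fun w : En n => w - u) volume volume :=
    measurePreserving_sub_right volume u
  have hemb : MeasurableEmbedding (fun w : En n => w - u) :=
    (Homeomorph.subRight u).measurableEmbedding
  have hi1 : IntegrableOn (fun w => 1 / ‖w - u‖) (ball u R) := by
    rw [← hpre, e1]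
    exact (hmp.integrableOn_comp_preimage hemb).mpr (integrableOn_inv_norm_ball n hn R)
  have hI1 : ∫ w in ball u R, 1 / ‖w - u‖ = R ^ (n - 1) * potC n := by
    rw [← integral_inv_norm_ball n hn R hR, ← hpre]
    exact hmp.setIntegral_preimage_emb hemb (fun w : En n => 1 / ‖w‖) (ball 0 R)
  have hmeas : Measurable (fun w : En n => 1 / ‖w - u‖) := by fun_prop
  have hi2 : IntegrableOn (fun w => 1 / ‖w - u‖) (B \ ball u R) := by
    apply Measure.integrableOn_of_bounded (M := 1 / R)
    · exact ne_top_of_le_ne_top hBf (measure_mono sdiff_subset)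
    · exact hmeas.aestronglyMeasurable
    · rw [ae_restrict_iff' (hB.diff measurableSet_ball)]
      filter_upwards with w hw
      have : R ≤ ‖w - u‖ := by
        have := hw.2
        simp only [mem_ball, dist_eq_norm, not_lt] at this
        exact this
      rw [Real.norm_of_nonneg (by positivity)]
      exact one_div_le_one_div_of_le hR this
  have hi3 : IntegrableOn (fun w => 1 / ‖w - u‖) (B ∩ ball u R) := hi1.mono_set inter_subset_right
  have hiB : IntegrableOn (fun w => 1 / ‖w - u‖) B := by
    rw [← inter_union_sdiff B (ball u R)]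
    exact hi3.union hi2
  refine ⟨hiB, ?_⟩
  rw [← integral_inter_add_sdiff measurableSet_ball hiB]
  have h1 : ∫ w in B ∩ ball u R, 1 / ‖w - u‖ ≤ R ^ (n - 1) * potC n := by
    rw [← hI1]
    apply setIntegral_mono_set hi1
    · filter_upwards with w
      simp only [Pi.zero_apply]; positivity
    · exact inter_subset_right.eventuallyLE
  have h2 : ∫ w in B \ ball u R, 1 / ‖w - u‖ ≤ (volume B).toReal / R := by
    have h3 : ∫ w in B \ ball u R, 1 / ‖w - u‖ ≤ ∫ w in B \ ball u R, 1 / R := by
      apply setIntegral_mono_on hi2 _ (hB.diff measurableSet_ball)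
      · intro w hw
        have : R ≤ ‖w - u‖ := by
          have := hw.2
          simp only [mem_ball, dist_eq_norm, not_lt] at this
          exact this
        exact one_div_le_one_div_of_le hR this
      · exact integrableOn_const (ne_top_of_le_ne_top hBf (measure_mono sdiff_subset))
    refine h3.trans ?_
    rw [setIntegral_const, smul_eq_mul, mul_one_div]
    apply div_le_div_of_nonneg_right _ hR.le
    exact ENNReal.toReal_mono hBf (measure_mono sdiff_subset)
  calc _ ≤ R ^ (n - 1) * potC n + (volume B).toReal / R := add_le_add h1 h2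
    _ = _ := by ring

end Pool.Lusin.H30
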