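import Pool.Agent.Work.MP_4112db_an.PosReal
import Pool.Agent.Work.MP_4112db_an.PosPot

/-!
# MP_4112db_an : the image side estimate
-/

open MeasureTheory Set Metric

namespace Pool.Lusin.H30

/-- Image side data: a set `A` of image points; every `w ∈ A` has a nested sequence of cells
`q k w` (`k ≤ m`), each cell carries a centre `F k z`, a size `a k z` and an increment
`e k z`. -/
structure CoreData (n m : ℕ) (ι : Type) [MeasurableSpace ι] (A : Set (En n)) (C1 ε : ℝ) where
  par : ι → ι
  q : ℕ → En n → ι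
  Z : ℕ → Finset ι
  F : ℕ → ι → En n
  a : ℕ → ι → ℝ
  e : ℕ → ι → ℝ
  hq : ∀ k, Measurable (q k)
  hpar : ∀ k < m, ∀ w ∈ A, par (q (k + 1) w) = q k w
  hZ : ∀ k ≤ m, ∀ w ∈ A, q k w ∈ Z k
  ha : ∀ k z, 0 ≤ a k z
  he : ∀ k z, 0 ≤ e k z
  hae : ∀ k < m, ∀ z ∈ Z (k + 1), a (k + 1) z ≤ a k (par z) / 2 + e (k + 1) z
  hF : ∀ k < m, ∀ z ∈ Z (k + 1), ‖F (k + 1) z - F k (par z)‖ ≤ C1 * a k (par z)
  hE0 : ∑ z ∈ Z 0, a 0 z ^ n ≤ ε
  hE : ∑ k ∈ Finset.range m, ∑ z ∈ Z (k + 1), e (k + 1) z ^ n ≤ ε

namespace CoreData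

variable {n m : ℕ} {ι : Type} [MeasurableSpace ι] [DiscreteMeasurableSpace ι]
  {A : Set (En n)} {C1 ε : ℝ} (T : CoreData n m ι A C1 ε)

/-- the distance of `w` to the centre of its cell -/
noncomputable def p (k : ℕ) (w : En n) : ℝ := ‖w - T.F k (T.q k w)‖

/-- the uncaptured set -/
def U : Set (En n) := {w | w ∈ A ∧ ∀ k ≤ m, 4 * C1 * T.a k (T.q k w) < T.p k w}

lemma measurable_p (k : ℕ) : Measurable (T.p k) := by
  unfold p
  have h1 : Measurable (fun w => T.F k (T.q k w)) :=
    (Measurable.of_discrete (f := T.F k)).comp (T.hq k)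
  exact (measurable_id.sub h1).norm

lemma measurable_a (k : ℕ) : Measurable (fun w => T.a k (T.q k w)) :=
  (Measurable.of_discrete (f := T.a k)).comp (T.hq k)

lemma measurable_e (k : ℕ) : Measurable (fun w => T.e k (T.q k w)) :=
  (Measurable.of_discrete (f := T.e k)).comp (T.hq k)

lemma measurableSet_U (hA : MeasurableSet A) : MeasurableSet T.U := by
  have : T.U = A ∩ ⋂ k ∈ Finset.range (m + 1), {w | 4 * C1 * T.a k (T.q k w) < T.p k w} := by
    ext w
    simp only [U, mem_ofPred_eq, mem_inter_iff, mem_iInter, Finset.mem_range]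
    constructor
    · rintro ⟨h1, h2⟩; exact ⟨h1, fun k hk => h2 k (by omega)⟩
    · rintro ⟨h1, h2⟩; exact ⟨h1, fun k hk => h2 k (by omega)⟩
  rw [this]
  apply hA.inter
  apply Finset.measurableSet_biInter
  intro k _
  exact measurableSet_lt ((T.measurable_a k).const_mul _) (T.measurable_p k)

omit [DiscreteMeasurableSpace ι] in
lemma U_subset : T.U ⊆ A := fun _ h => h.1

omit [DiscreteMeasurableSpace ι] in
/-- measure of the captured set -/
lemma captured (hC1 : 0 < C1) :
    volume.real (A \ T.U) ≤ 2 * (volume.real (ball (0 : En n) 1)) * (12 * C1) ^ n * ε := by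
  have hfin : Module.finrank ℝ (En n) = n := by simp [En]
  set V1 : Set (En n) := ⋃ z ∈ T.Z 0, closedBall (T.F 0 z) (4 * C1 * T.a 0 z) with hV1
  set V2 : Set (En n) := ⋃ k ∈ Finset.range m, ⋃ z ∈ T.Z (k + 1),
    closedBall (T.F (k + 1) z) (12 * C1 * T.e (k + 1) z) with hV2
  have hsub : A \ T.U ⊆ V1 ∪ V2 := by
    intro w hw
    have hwA : w ∈ A := hw.1
    have hex : ∃ k, k ≤ m ∧ T.p k w ≤ 4 * C1 * T.a k (T.q k w) := by
      by_contra hcon
      push Not at hcon
      exact hw.2 ⟨hwA, fun k hk => hcon k hk⟩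
    classical
    obtain ⟨hkm, hk⟩ := Nat.find_spec hex
    have hmin := fun j (hj : j < Nat.find hex) => Nat.find_min hex hj
    set k := Nat.find hex with hkdef
    clear_value k
    rcases Nat.eq_zero_or_pos k with h0 | hpos
    · left
      subst h0
      rw [hV1]
      simp only [mem_iUnion]
      refine ⟨T.q 0 w, T.hZ 0 (by omega) w hwA, ?_⟩
      rw [mem_closedBall, dist_eq_norm]
      exact hk
    · right
      obtain ⟨j, rfl⟩ : ∃ j, k = j + 1 := ⟨k - 1, by omega⟩
      have hj := hmin j (by omega)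
      push Not at hj
      have hj' := hj (by omega)
      have hz := T.hZ (j + 1) hkm w hwA
      have hp := T.hpar j (by omega) w hwA
      have hF := T.hF j (by omega) _ hz
      rw [hp] at hF
      have hae := T.hae j (by omega) _ hz
      rw [hp] at hae
      rw [hV2]
      simp only [mem_iUnion, Finset.mem_range]
      refine ⟨j, by omega, T.q (j + 1) w, hz, ?_⟩
      rw [mem_closedBall, dist_eq_norm]
      have h1 : T.p j w ≤ T.p (j + 1) w + C1 * T.a j (T.q j w) := by
        have : w - T.F j (T.q j w) = (w - T.F (j + 1) (T.q (j + 1) w)) +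
          (T.F (j + 1) (T.q (j + 1) w) - T.F j (T.q j w)) := by abel
        unfold p
        rw [this]
        exact (norm_add_le _ _).trans (by linarith)
      have h2 : 3 * T.a j (T.q j w) < 4 * T.a (j + 1) (T.q (j + 1) w) := by
        have : C1 * (3 * T.a j (T.q j w)) < C1 * (4 * T.a (j + 1) (T.q (j + 1) w)) := by
          nlinarith
        exact lt_of_mul_lt_mul_left this hC1.le
      have h3 : T.a (j + 1) (T.q (j + 1) w) ≤ 3 * T.e (j + 1) (T.q (j + 1) w) := by linarith
      calc ‖w - T.F (j + 1) (T.q (j + 1) w)‖ ≤ 4 * C1 * T.a (j + 1) (T.q (j + 1) w) := hk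
        _ ≤ 4 * C1 * (3 * T.e (j + 1) (T.q (j + 1) w)) :=
            mul_le_mul_of_nonneg_left h3 (by positivity)
        _ = _ := by ring
  have hb : ∀ (x : En n) (r : ℝ), 0 ≤ r → volume.real (closedBall x r) =
      r ^ n * volume.real (ball (0 : En n) 1) := by
    intro x r hr
    rw [Measure.addHaar_real_closedBall _ x hr, hfin]
  have hV1f : volume V1 ≠ ⊤ := by
    rw [hV1]
    apply ne_of_lt
    refine (measure_biUnion_finset_le _ _).trans_lt ?_
    exact ENNReal.sum_lt_top.mpr fun z _ => measure_closedBall_lt_top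
  have hV2f : volume V2 ≠ ⊤ := by
    rw [hV2]
    apply ne_of_lt
    refine (measure_biUnion_finset_le _ _).trans_lt ?_
    refine ENNReal.sum_lt_top.mpr fun k _ => ?_
    refine (measure_biUnion_finset_le _ _).trans_lt ?_
    exact ENNReal.sum_lt_top.mpr fun z _ => measure_closedBall_lt_top
  have hv0 : 0 ≤ volume.real (ball (0 : En n) 1) := measureReal_nonneg
  have hC12 : (0 : ℝ) ≤ 12 * C1 := by positivity
  have h1 : volume.real V1 ≤ volume.real (ball (0 : En n) 1) * (12 * C1) ^ n * ε := by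
    calc volume.real V1 ≤ ∑ z ∈ T.Z 0, volume.real (closedBall (T.F 0 z) (4 * C1 * T.a 0 z)) :=
          measureReal_biUnion_finset_le _ _
      _ ≤ ∑ z ∈ T.Z 0, volume.real (ball (0 : En n) 1) * (12 * C1) ^ n * T.a 0 z ^ n := by
          apply Finset.sum_le_sum
          intro z _
          have ha := T.ha 0 z
          rw [hb _ _ (by positivity)]
          have : (4 * C1 * T.a 0 z) ^ n ≤ (12 * C1 * T.a 0 z) ^ n := by
            apply pow_le_pow_left₀ (by positivity)
            apply mul_le_mul_of_nonneg_right _ ha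
            linarith
          rw [mul_pow (12 * C1)] at this
          calc _ ≤ ((12 * C1) ^ n * T.a 0 z ^ n) * volume.real (ball (0 : En n) 1) :=
                mul_le_mul_of_nonneg_right this hv0
            _ = _ := by ring
      _ = volume.real (ball (0 : En n) 1) * (12 * C1) ^ n * ∑ z ∈ T.Z 0, T.a 0 z ^ n := by
          rw [Finset.mul_sum]
      _ ≤ _ := mul_le_mul_of_nonneg_left T.hE0 (by positivity)
  have h2 : volume.real V2 ≤ volume.real (ball (0 : En n) 1) * (12 * C1) ^ n * ε := by
    calc volume.real V2 ≤ ∑ k ∈ Finset.range m, volume.real (⋃ z ∈ T.Z (k + 1),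
          closedBall (T.F (k + 1) z) (12 * C1 * T.e (k + 1) z)) :=
          measureReal_biUnion_finset_le _ _
      _ ≤ ∑ k ∈ Finset.range m, ∑ z ∈ T.Z (k + 1),
          volume.real (closedBall (T.F (k + 1) z) (12 * C1 * T.e (k + 1) z)) :=
          Finset.sum_le_sum fun k _ => measureReal_biUnion_finset_le _ _
      _ = ∑ k ∈ Finset.range m, ∑ z ∈ T.Z (k + 1),
          volume.real (ball (0 : En n) 1) * (12 * C1) ^ n * T.e (k + 1) z ^ n := by
          apply Finset.sum_congr rfl
          intro k _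
          apply Finset.sum_congr rfl
          intro z _
          have he := T.he (k + 1) z
          rw [hb _ _ (by positivity), mul_pow (12 * C1)]
          ring
      _ = volume.real (ball (0 : En n) 1) * (12 * C1) ^ n *
          ∑ k ∈ Finset.range m, ∑ z ∈ T.Z (k + 1), T.e (k + 1) z ^ n := by
          rw [Finset.mul_sum]
          apply Finset.sum_congr rfl
          intro k _
          rw [Finset.mul_sum]
      _ ≤ _ := mul_le_mul_of_nonneg_left T.hE (by positivity)
  calc volume.real (A \ T.U) ≤ volume.real (V1 ∪ V2) :=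
        measureReal_mono hsub (measure_union_ne_top hV1f hV2f)
    _ ≤ volume.real V1 + volume.real V2 := measureReal_union_le _ _
    _ ≤ _ := by linarith

/-- splitting an integral over the cells of level `k` -/
lemma split (k : ℕ) (hk : k ≤ m) (hA : MeasurableSet A) (f : ι → En n → ℝ)
    (hf : ∀ z ∈ T.Z k, IntegrableOn (f z) T.U) :
    IntegrableOn (fun w => f (T.q k w) w) T.U ∧
    ∫ w in T.U, f (T.q k w) w = ∑ z ∈ T.Z k, ∫ w in T.U ∩ T.q k ⁻¹' {z}, f z w := by
  have hU := T.measurableSet_U hA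
  have hcov : T.U = ⋃ z ∈ T.Z k, T.U ∩ T.q k ⁻¹' {z} := by
    ext w
    simp only [mem_iUnion, mem_inter_iff, mem_preimage, mem_singleton_iff]
    constructor
    · intro hw
      exact ⟨T.q k w, T.hZ k hk w (T.U_subset hw), hw, rfl⟩
    · rintro ⟨z, _, hw, _⟩; exact hw
  have hm : ∀ z ∈ T.Z k, MeasurableSet (T.U ∩ T.q k ⁻¹' {z}) := fun z _ =>
    hU.inter (T.hq k (MeasurableSet.of_discrete))
  have hd : Set.Pairwise (↑(T.Z k)) (Function.onFun Disjoint (fun z => T.U ∩ T.q k ⁻¹' {z})) := by
    intro z _ z' _ hne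
    rw [Function.onFun, Set.disjoint_left]
    rintro w ⟨_, hw⟩ ⟨_, hw'⟩
    exact hne (hw.symm.trans hw')
  have hi : ∀ z ∈ T.Z k, IntegrableOn (fun w => f (T.q k w) w) (T.U ∩ T.q k ⁻¹' {z}) := by
    intro z hz
    have : IntegrableOn (f z) (T.U ∩ T.q k ⁻¹' {z}) := (hf z hz).mono_set inter_subset_left
    apply this.congr_fun _ (hm z hz)
    rintro w ⟨_, hw⟩
    have : T.q k w = z := hw
    simp only [this]
  constructor
  · rw [hcov]
    rw [integrableOn_finset_iUnion]
    exact hi
  · conv_lhs => rw [hcov]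
    rw [integral_biUnion_finset _ hm hd hi]
    apply Finset.sum_congr rfl
    intro z hz
    apply setIntegral_congr_fun (hm z hz)
    rintro w ⟨_, hw⟩
    have : T.q k w = z := hw
    simp only [this]

/-- the potential term -/
lemma pot_sum (hn : 2 ≤ n) (k : ℕ) (hk : k ≤ m) (hA : MeasurableSet A) (hAf : volume A ≠ ⊤)
    (x : ι → ℝ) (hx : ∀ z, 0 ≤ x z) :
    IntegrableOn (fun w => x (T.q k w) / T.p k w) T.U ∧
    (∫ w in T.U, x (T.q k w) / T.p k w) ^ n ≤
      (volume.real A + potC n) ^ n * ∑ z ∈ T.Z k, x z ^ n := by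
  have hU := T.measurableSet_U hA
  have hUf : volume T.U ≠ ⊤ := ne_top_of_le_ne_top hAf (measure_mono T.U_subset)
  have hn0 : n ≠ 0 := by omega
  have hf : ∀ z ∈ T.Z k, IntegrableOn (fun w => x z * (1 / ‖w - T.F k z‖)) T.U := by
    intro z _
    exact (pot n hn (T.F k z) T.U hU hUf 1 one_pos).1.const_mul _
  obtain ⟨h1, h2⟩ := T.split k hk hA (fun z w => x z * (1 / ‖w - T.F k z‖)) hf
  have hfe : (fun w => x (T.q k w) / T.p k w) =
      (fun w => x (T.q k w) * (1 / ‖w - T.F k (T.q k w)‖)) := by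
    funext w
    unfold p
    ring
  rw [hfe]
  refine ⟨h1, ?_⟩
  rw [h2]
  set S := ∑ z ∈ T.Z k, x z ^ n with hS
  have hS0 : 0 ≤ S := Finset.sum_nonneg fun z _ => pow_nonneg (hx z) n
  set X : ℝ := S ^ ((n : ℝ)⁻¹) with hX
  have hX0 : 0 ≤ X := Real.rpow_nonneg hS0 _
  have hXn : X ^ n = S := Real.rpow_inv_natCast_pow hS0 hn0
  have hpotC := potC_nonneg n
  have hvA : 0 ≤ volume.real A := measureReal_nonneg
  have hmain : ∑ z ∈ T.Z k, ∫ w in T.U ∩ T.q k ⁻¹' {z}, x z * (1 / ‖w - T.F k z‖) ≤
      X * (volume.real A + potC n) := by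
    rcases hX0.eq_or_lt with hX00 | hXpos
    · -- all zero
      have hSz : S = 0 := by rw [← hXn, ← hX00]; exact zero_pow hn0
      have hxz : ∀ z ∈ T.Z k, x z = 0 := by
        intro z hz
        have := (Finset.sum_eq_zero_iff_of_nonneg fun z _ => pow_nonneg (hx z) n).mp hSz z hz
        exact pow_eq_zero_iff hn0 |>.mp this
      rw [← hX00, zero_mul]
      apply le_of_eq
      apply Finset.sum_eq_zero
      intro z hz
      rw [hxz z hz]
      simp
    · have hterm : ∀ z ∈ T.Z k, ∫ w in T.U ∩ T.q k ⁻¹' {z}, x z * (1 / ‖w - T.F k z‖) ≤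
          X * volume.real (T.U ∩ T.q k ⁻¹' {z}) + potC n * (x z ^ n / X ^ (n - 1)) := by
        intro z hz
        rw [integral_const_mul]
        rcases (hx z).eq_or_lt with hz0 | hzpos
        · rw [← hz0, zero_pow hn0]
          simp only [zero_mul, zero_div, mul_zero, add_zero]
          exact mul_nonneg hX0 measureReal_nonneg
        · have hmz : MeasurableSet (T.U ∩ T.q k ⁻¹' {z}) :=
            hU.inter (T.hq k (MeasurableSet.of_discrete))
          have hfz : volume (T.U ∩ T.q k ⁻¹' {z}) ≠ ⊤ :=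
            ne_top_of_le_ne_top hUf (measure_mono inter_subset_left)
          have h3 := (pot n hn (T.F k z) _ hmz hfz (x z / X) (by positivity)).2
          calc x z * ∫ w in T.U ∩ T.q k ⁻¹' {z}, 1 / ‖w - T.F k z‖
              ≤ x z * ((volume (T.U ∩ T.q k ⁻¹' {z})).toReal / (x z / X) +
                potC n * (x z / X) ^ (n - 1)) := mul_le_mul_of_nonneg_left h3 hzpos.le
            _ = _ := by
              have e : x z ^ n = x z * x z ^ (n - 1) := by
                obtain ⟨j, rfl⟩ : ∃ j, n = j + 1 := ⟨n - 1, by omega⟩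
                simp [pow_succ, mul_comm]
              rw [e, div_pow, measureReal_def]
              field_simp
      refine (Finset.sum_le_sum hterm).trans ?_
      rw [Finset.sum_add_distrib, ← Finset.mul_sum, ← Finset.mul_sum, ← Finset.sum_div, ← hS]
      have h4 : ∑ z ∈ T.Z k, volume.real (T.U ∩ T.q k ⁻¹' {z}) ≤ volume.real A := by
        rw [← measureReal_biUnion_finset]
        · apply measureReal_mono _ hAf
          intro w hw
          simp only [mem_iUnion] at hw
          obtain ⟨z, _, hw, _⟩ := hw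
          exact T.U_subset hw
        · intro z _ z' _ hne
          rw [Function.onFun, Set.disjoint_left]
          rintro w ⟨_, hw⟩ ⟨_, hw'⟩
          exact hne (hw.symm.trans hw')
        · intro z _
          exact hU.inter (T.hq k (MeasurableSet.of_discrete))
      have h5 : S / X ^ (n - 1) = X := by
        rw [← hXn]
        have e : X ^ n = X * X ^ (n - 1) := by
          obtain ⟨j, rfl⟩ : ∃ j, n = j + 1 := ⟨n - 1, by omega⟩
          simp [pow_succ, mul_comm]
        rw [e]
        exact mul_div_cancel_right₀ X (pow_ne_zero _ hXpos.ne')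
      rw [h5]
      calc X * ∑ z ∈ T.Z k, volume.real (T.U ∩ T.q k ⁻¹' {z}) + potC n * X
          ≤ X * volume.real A + potC n * X :=
            add_le_add (mul_le_mul_of_nonneg_left h4 hX0) le_rfl
        _ = _ := by ring
  have hnn : 0 ≤ ∑ z ∈ T.Z k, ∫ w in T.U ∩ T.q k ⁻¹' {z}, x z * (1 / ‖w - T.F k z‖) := by
    apply Finset.sum_nonneg
    intro z _
    apply integral_nonneg
    intro w
    have := hx z
    positivity
  calc _ ≤ (X * (volume.real A + potC n)) ^ n := pow_le_pow_left₀ hnn hmain n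
    _ = _ := by rw [mul_pow, hXn]; ring

omit [DiscreteMeasurableSpace ι] in
/-- pointwise bounds on the uncaptured set -/
lemma U_pos (hC1 : 0 < C1) {w : En n} (hw : w ∈ T.U) {k : ℕ} (hk : k ≤ m) : 0 < T.p k w :=
  lt_of_le_of_lt (mul_nonneg (by positivity) (T.ha k _)) (hw.2 k hk)

omit [DiscreteMeasurableSpace ι] in
lemma U_step {w : En n} (hw : w ∈ T.U) {k : ℕ} (hk : k < m) :
    T.p k w - C1 * T.a k (T.q k w) ≤ T.p (k + 1) w := by
  have hwA := T.U_subset hw
  have hz := T.hZ (k + 1) hk w hwA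
  have hp := T.hpar k hk w hwA
  have hF := T.hF k hk _ hz
  rw [hp] at hF
  have : w - T.F k (T.q k w) = (w - T.F (k + 1) (T.q (k + 1) w)) +
    (T.F (k + 1) (T.q (k + 1) w) - T.F k (T.q k w)) := by abel
  have h2 : T.p k w ≤ T.p (k + 1) w + C1 * T.a k (T.q k w) := by
    unfold p
    rw [this]
    exact (norm_add_le _ _).trans (by linarith)
  linarith

omit [DiscreteMeasurableSpace ι] in
lemma U_step' (hC1 : 0 < C1) {w : En n} (hw : w ∈ T.U) {k : ℕ} (hk : k < m) :
    (3 / 4) * T.p k w ≤ T.p (k + 1) w := by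
  have h1 := T.U_step hw hk
  have h2 := hw.2 k hk.le
  linarith

omit [DiscreteMeasurableSpace ι] in
lemma U_log (hC1 : 0 < C1) {w : En n} (hw : w ∈ T.U) {k : ℕ} (hk : k < m) :
    - Real.log (T.p (k + 1) w) ≤ - Real.log (T.p k w) +
      (4 / 3) * C1 * (T.a k (T.q k w) / T.p k w) := by
  have hp := T.U_pos hC1 hw hk.le
  have hp1 := T.U_pos hC1 hw (Nat.succ_le_of_lt hk)
  have h1 := T.U_step hw hk
  have h2 := hw.2 k hk.le
  have h3 := T.U_step' hC1 hw hk
  have ha := T.ha k (T.q k w)
  have hlog := Real.one_sub_inv_le_log_of_pos (div_pos hp1 hp)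
  rw [Real.log_div hp1.ne' hp.ne'] at hlog
  have h4 : (T.p (k + 1) w / T.p k w)⁻¹ - 1 ≤ (4 / 3) * C1 * (T.a k (T.q k w) / T.p k w) := by
    rw [inv_div]
    have : T.p k w / T.p (k + 1) w - 1 = (T.p k w - T.p (k + 1) w) / T.p (k + 1) w := by
      field_simp
    rw [this]
    calc (T.p k w - T.p (k + 1) w) / T.p (k + 1) w ≤ C1 * T.a k (T.q k w) / T.p (k + 1) w := by
          apply div_le_div_of_nonneg_right _ hp1.le
          linarith
      _ ≤ C1 * T.a k (T.q k w) / ((3 / 4) * T.p k w) := by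
          apply div_le_div_of_nonneg_left _ _ h3
          · positivity
          · positivity
      _ = _ := by field_simp
  linarith

omit [DiscreteMeasurableSpace ι] in
lemma U_rec (hC1 : 0 < C1) {w : En n} (hw : w ∈ T.U) {k : ℕ} (hk : k < m) :
    T.a (k + 1) (T.q (k + 1) w) / T.p (k + 1) w ≤
      (2 / 3) * (T.a k (T.q k w) / T.p k w) +
        T.e (k + 1) (T.q (k + 1) w) / T.p (k + 1) w := by
  have hwA := T.U_subset hw
  have hp := T.U_pos hC1 hw hk.le
  have hp1 := T.U_pos hC1 hw (Nat.succ_le_of_lt hk)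
  have h3 := T.U_step' hC1 hw hk
  have hz := T.hZ (k + 1) hk w hwA
  have hpr := T.hpar k hk w hwA
  have hae := T.hae k hk _ hz
  rw [hpr] at hae
  have ha := T.ha k (T.q k w)
  calc T.a (k + 1) (T.q (k + 1) w) / T.p (k + 1) w
      ≤ (T.a k (T.q k w) / 2 + T.e (k + 1) (T.q (k + 1) w)) / T.p (k + 1) w :=
        div_le_div_of_nonneg_right hae hp1.le
    _ = (T.a k (T.q k w) / 2) / T.p (k + 1) w + T.e (k + 1) (T.q (k + 1) w) / T.p (k + 1) w :=
        add_div _ _ _
    _ ≤ (T.a k (T.q k w) / 2) / ((3 / 4) * T.p k w) +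
        T.e (k + 1) (T.q (k + 1) w) / T.p (k + 1) w := by
        gcongr
    _ = _ := by
        congr 1
        field_simp
        norm_num

omit [DiscreteMeasurableSpace ι] in
lemma U_log_sum (hC1 : 0 < C1) {w : En n} (hw : w ∈ T.U) {k : ℕ} (hk : k ≤ m) :
    - Real.log (T.p k w) ≤ 1 / T.p 0 w +
      ∑ j ∈ Finset.range k, (4 / 3) * C1 * (T.a j (T.q j w) / T.p j w) := by
  induction k with
  | zero =>
    have hp := T.U_pos hC1 hw hk
    have := Real.one_sub_inv_le_log_of_pos hp
    simp only [Finset.range_zero, Finset.sum_empty, add_zero, one_div]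
    linarith
  | succ k ih =>
    have h1 := ih (by omega)
    have h2 := T.U_log hC1 hw (k := k) (by omega)
    rw [Finset.sum_range_succ]
    linarith

/-- **Image side estimate.** -/
theorem core (hn : 2 ≤ n) (hC1 : 0 < C1) (hA : MeasurableSet A) (hAf : volume A ≠ ⊤)
    (hsmall : 2 * (volume.real (ball (0 : En n) 1)) * (12 * C1) ^ n * ε ≤ volume.real A / 2) :
    ∃ G : ℕ → ℝ, (∀ j, 0 ≤ G j) ∧
      ∑ k ∈ Finset.range (m + 1), G k ^ n ≤
        3 * (volume.real A / (4 * C1)) ^ n + 3 ^ n * ((volume.real A + potC n) ^ n * ε) ∧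
      ∀ k ≤ m, ∀ H : ℝ, (∀ w ∈ A, T.p k w ≤ Real.exp (- H)) →
        (volume.real A / 2) * H ≤ (T.Z 0).card * (volume.real A + potC n) +
          (4 / 3) * C1 * ∑ j ∈ Finset.range k, G j := by
  have hU := T.measurableSet_U hA
  have hUf : volume T.U ≠ ⊤ := ne_top_of_le_ne_top hAf (measure_mono T.U_subset)
  have hUA : volume.real T.U ≤ volume.real A := measureReal_mono T.U_subset hAf
  have hvA : 0 ≤ volume.real A := measureReal_nonneg
  have hpotC := potC_nonneg n
  -- integrability of a / p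
  have hbd : ∀ k ≤ m, ∀ w ∈ T.U, T.a k (T.q k w) / T.p k w ≤ 1 / (4 * C1) := by
    intro k hk w hw
    have hp := T.U_pos hC1 hw hk
    have := hw.2 k hk
    rw [div_le_div_iff₀ hp (by positivity)]
    linarith
  have hap0 : ∀ k, ∀ w, 0 ≤ T.a k (T.q k w) / T.p k w := fun k w =>
    div_nonneg (T.ha _ _) (norm_nonneg _)
  have hint : ∀ k ≤ m, IntegrableOn (fun w => T.a k (T.q k w) / T.p k w) T.U := by
    intro k hk
    apply Measure.integrableOn_of_bounded (M := 1 / (4 * C1)) hUf
    · exact ((T.measurable_a k).div (T.measurable_p k)).aestronglyMeasurable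
    · rw [ae_restrict_iff' hU]
      filter_upwards with w hw
      rw [Real.norm_of_nonneg (hap0 k w)]
      exact hbd k hk w hw
  set G : ℕ → ℝ := fun k => ∫ w in T.U, T.a k (T.q k w) / T.p k w with hG
  set D : ℕ → ℝ := fun k => ∫ w in T.U, T.e (k + 1) (T.q (k + 1) w) / T.p (k + 1) w with hD
  have hG0 : ∀ j, 0 ≤ G j := fun j => integral_nonneg fun w => hap0 j w
  have hD0 : ∀ j, 0 ≤ D j := fun j => integral_nonneg fun w =>
    div_nonneg (T.he _ _) (norm_nonneg _)
  have hDn : ∀ k < m, D k ^ n ≤ (volume.real A + potC n) ^ n * ∑ z ∈ T.Z (k + 1), T.e (k + 1) z ^ n :=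
    fun k hk => (T.pot_sum hn (k + 1) hk hA hAf (T.e (k + 1)) (T.he (k + 1))).2
  have hDi : ∀ k < m, IntegrableOn (fun w => T.e (k + 1) (T.q (k + 1) w) / T.p (k + 1) w) T.U :=
    fun k hk => (T.pot_sum hn (k + 1) hk hA hAf (T.e (k + 1)) (T.he (k + 1))).1
  have hrec : ∀ k < m, G (k + 1) ≤ (2 / 3) * G k + D k := by
    intro k hk
    rw [hG, hD]
    simp only
    rw [← integral_const_mul, ← integral_add ((hint k hk.le).const_mul _) (hDi k hk)]
    apply setIntegral_mono_on (hint (k + 1) hk) (((hint k hk.le).const_mul _).add (hDi k hk)) hU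
    intro w hw
    exact T.U_rec hC1 hw hk
  have hGsum := recursion_sum n hn G D hG0 hD0 m hrec
  have hG0' : G 0 ≤ volume.real A / (4 * C1) := by
    have h1 : G 0 ≤ ∫ w in T.U, 1 / (4 * C1) := by
      rw [hG]
      exact setIntegral_mono_on (hint 0 (Nat.zero_le _)) (integrableOn_const hUf) hU
        (hbd 0 (Nat.zero_le _))
    rw [setIntegral_const, smul_eq_mul, mul_one_div] at h1
    exact h1.trans (div_le_div_of_nonneg_right hUA (by positivity))
  refine ⟨G, hG0, ?_, ?_⟩
  · refine hGsum.trans ?_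
    have h1 : G 0 ^ n ≤ (volume.real A / (4 * C1)) ^ n := pow_le_pow_left₀ (hG0 0) hG0' n
    have h2 : ∑ k ∈ Finset.range m, D k ^ n ≤ (volume.real A + potC n) ^ n * ε := by
      calc ∑ k ∈ Finset.range m, D k ^ n
          ≤ ∑ k ∈ Finset.range m, (volume.real A + potC n) ^ n *
            ∑ z ∈ T.Z (k + 1), T.e (k + 1) z ^ n :=
            Finset.sum_le_sum fun k hk => hDn k (Finset.mem_range.mp hk)
        _ = (volume.real A + potC n) ^ n *
            ∑ k ∈ Finset.range m, ∑ z ∈ T.Z (k + 1), T.e (k + 1) z ^ n := by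
            rw [Finset.mul_sum]
        _ ≤ _ := mul_le_mul_of_nonneg_left T.hE (by positivity)
    have h3 : (0 : ℝ) ≤ 3 ^ n := by positivity
    nlinarith [mul_le_mul_of_nonneg_left h2 h3]
  · intro k hk H hH
    have hGk : 0 ≤ ∑ j ∈ Finset.range k, G j := Finset.sum_nonneg fun j _ => hG0 j
    have hRHS : 0 ≤ (T.Z 0).card * (volume.real A + potC n) +
          (4 / 3) * C1 * ∑ j ∈ Finset.range k, G j := by positivity
    rcases le_or_gt H 0 with hH0 | hHpos
    · have : (volume.real A / 2) * H ≤ 0 := mul_nonpos_of_nonneg_of_nonpos (by positivity) hH0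
      linarith
    · -- pointwise
      have hp0 : IntegrableOn (fun w => 1 / T.p 0 w) T.U :=
        (T.pot_sum hn 0 (Nat.zero_le _) hA hAf (fun _ => 1) (fun _ => zero_le_one)).1
      have hp0' : ∫ w in T.U, 1 / T.p 0 w ≤ (T.Z 0).card * (volume.real A + potC n) := by
        obtain ⟨h1, h2⟩ := T.split 0 (Nat.zero_le _) hA (fun z w => 1 / ‖w - T.F 0 z‖)
          (fun z _ => (pot n hn (T.F 0 z) T.U hU hUf 1 one_pos).1)
        have : ∫ w in T.U, 1 / T.p 0 w = ∫ w in T.U, 1 / ‖w - T.F 0 (T.q 0 w)‖ := rfl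
        rw [this, h2, ← nsmul_eq_mul]
        apply Finset.sum_le_card_nsmul
        intro z _
        have hmz : MeasurableSet (T.U ∩ T.q 0 ⁻¹' {z}) :=
          hU.inter (T.hq 0 (MeasurableSet.of_discrete))
        have hfz : volume (T.U ∩ T.q 0 ⁻¹' {z}) ≠ ⊤ :=
          ne_top_of_le_ne_top hUf (measure_mono inter_subset_left)
        have h3 := (pot n hn (T.F 0 z) _ hmz hfz 1 one_pos).2
        refine h3.trans ?_
        rw [div_one, one_pow, mul_one]
        have : (volume (T.U ∩ T.q 0 ⁻¹' {z})).toReal ≤ volume.real A :=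
          measureReal_mono (inter_subset_left.trans T.U_subset) hAf
        linarith
      have hpt : ∀ w ∈ T.U, H ≤ 1 / T.p 0 w +
          ∑ j ∈ Finset.range k, (4 / 3) * C1 * (T.a j (T.q j w) / T.p j w) := by
        intro w hw
        have h1 := T.U_log_sum hC1 hw hk
        have hp := T.U_pos hC1 hw hk
        have h2 : Real.log (T.p k w) ≤ - H := by
          rw [Real.log_le_iff_le_exp hp]
          exact hH w (T.U_subset hw)
        linarith
      have hsi : IntegrableOn (fun w => ∑ j ∈ Finset.range k,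
          (4 / 3) * C1 * (T.a j (T.q j w) / T.p j w)) T.U := by
        apply integrable_finsetSum
        intro j hj
        exact (hint j (by have := Finset.mem_range.mp hj; omega)).const_mul _
      have hI : volume.real T.U * H ≤ (T.Z 0).card * (volume.real A + potC n) +
          (4 / 3) * C1 * ∑ j ∈ Finset.range k, G j := by
        calc volume.real T.U * H = ∫ w in T.U, H := by
              rw [setIntegral_const, smul_eq_mul]
          _ ≤ ∫ w in T.U, (1 / T.p 0 w +
              ∑ j ∈ Finset.range k, (4 / 3) * C1 * (T.a j (T.q j w) / T.p j w)) :=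
              setIntegral_mono_on (integrableOn_const hUf) (hp0.add hsi) hU hpt
          _ = (∫ w in T.U, 1 / T.p 0 w) + ∫ w in T.U,
              ∑ j ∈ Finset.range k, (4 / 3) * C1 * (T.a j (T.q j w) / T.p j w) :=
              integral_add hp0 hsi
          _ = (∫ w in T.U, 1 / T.p 0 w) + (4 / 3) * C1 * ∑ j ∈ Finset.range k, G j := by
              rw [integral_finsetSum, Finset.mul_sum]
              · congr 1
                apply Finset.sum_congr rfl
                intro j _
                rw [integral_const_mul]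
              · intro j hj
                exact (hint j (by have := Finset.mem_range.mp hj; omega)).const_mul _
          _ ≤ _ := by linarith
      have hUhalf : volume.real A / 2 ≤ volume.real T.U := by
        have h1 := T.captured hC1
        have h2 : volume.real A = volume.real (A \ T.U) + volume.real T.U := by
          have h3 := measureReal_inter_add_sdiff (μ := volume) (s := A) hU hAf
          rw [inter_eq_right.mpr T.U_subset] at h3
          linarith
        linarith
      calc (volume.real A / 2) * H ≤ volume.real T.U * H :=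
            mul_le_mul_of_nonneg_right hUhalf hHpos.le
        _ ≤ _ := hI

end CoreData

end Pool.Lusin.H30
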