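import Mathlib

/-!
# MP_4112db_an : elementary inequalities for the positive direction
-/

open Finset

namespace Pool.Lusin.H30

/-- Strong form of the convexity inequality for `x ↦ x ^ n`. -/
lemma pow_convex_strong (n : ℕ) (hn : 2 ≤ n) (x d : ℝ) (hx : 0 ≤ x) (hxd : 0 ≤ x + d) :
    x ^ n + n * x ^ (n - 1) * d + |d| ^ n ≤ (x + d) ^ n := by
  induction n, hn using Nat.le_induction with
  | base =>
    have : |d| ^ 2 = d ^ 2 := sq_abs d
    rw [this]; push_cast; norm_num; nlinarith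
  | succ n hn ih =>
    have e1 : (x + d) ^ (n + 1) = (x + d) * (x + d) ^ n := by ring
    have h1 : (x + d) * (x ^ n + n * x ^ (n - 1) * d + |d| ^ n) ≤ (x + d) ^ (n + 1) := by
      rw [e1]; exact mul_le_mul_of_nonneg_left ih hxd
    refine le_trans ?_ h1
    have e2 : x ^ n = x * x ^ (n - 1) := by
      obtain ⟨j, rfl⟩ : ∃ j, n = j + 1 := ⟨n - 1, by omega⟩
      simp [pow_succ, mul_comm]
    have e3 : |d| ^ n = |d| * |d| ^ (n - 1) := by
      obtain ⟨j, rfl⟩ : ∃ j, n = j + 1 := ⟨n - 1, by omega⟩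
      simp [pow_succ, mul_comm]
    have hp : 0 ≤ x ^ (n - 1) := pow_nonneg hx _
    have hq : 0 ≤ |d| ^ (n - 1) := pow_nonneg (abs_nonneg d) _
    have hn1 : (1 : ℝ) ≤ n := by exact_mod_cast (by omega : 1 ≤ n)
    have e4 : n + 1 - 1 = n := by omega
    rw [e4]
    have e5 : |d| ^ (n + 1) = |d| * |d| ^ n := by ring
    have e6 : x ^ (n + 1) = x * x ^ n := by ring
    rw [e5, e6, e2, e3]
    push_cast
    rcases le_or_gt 0 d with hd | hd
    · rw [abs_of_nonneg hd] at *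
      have h2 : 0 ≤ x * (d * d ^ (n - 1)) := by positivity
      have h3 : 0 ≤ n * x ^ (n - 1) * d * d := by positivity
      nlinarith [h2, h3]
    · have hd' : |d| = -d := abs_of_neg hd
      have hle : |d| ^ (n - 1) ≤ x ^ (n - 1) := pow_le_pow_left₀ (abs_nonneg d) (by rw [hd']; linarith) _
      have h2 : 0 ≤ (x + d) * (|d| * |d| ^ (n - 1)) :=
        mul_nonneg hxd (mul_nonneg (abs_nonneg d) hq)
      have h3 : |d| ^ (n - 1) * (d * d) ≤ n * x ^ (n - 1) * (d * d) := by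
        apply mul_le_mul_of_nonneg_right _ (mul_self_nonneg d)
        nlinarith
      generalize |d| ^ (n - 1) = q at *
      rw [hd'] at *
      nlinarith [h2, h3]

/-- Weighted arithmetic-geometric inequality. -/
lemma amgm_pow (n : ℕ) (hn : 2 ≤ n) (x y : ℝ) (hx : 0 ≤ x) (hy : 0 ≤ y) :
    n * x ^ (n - 1) * y ≤ (n - 1) * x ^ n + y ^ n := by
  have h := pow_convex_strong n hn x (y - x) hx (by linarith)
  have h2 : 0 ≤ |y - x| ^ n := by positivity
  have e : x ^ n = x * x ^ (n - 1) := by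
    obtain ⟨j, rfl⟩ : ∃ j, n = j + 1 := ⟨n - 1, by omega⟩
    simp [pow_succ, mul_comm]
  rw [show x + (y - x) = y by ring] at h
  rw [e] at h ⊢
  nlinarith

/-- Crude Young inequality. -/
lemma young_crude (n : ℕ) (hn : 2 ≤ n) (A g : ℝ) (hA : 0 ≤ A) (hg : 0 ≤ g) :
    A ^ (n - 1) * g ≤ (1 / 4) * A ^ n + 4 ^ (n - 1) * g ^ n := by
  have e : ∀ x : ℝ, x ^ n = x ^ (n - 1) * x := by
    intro x
    obtain ⟨j, rfl⟩ : ∃ j, n = j + 1 := ⟨n - 1, by omega⟩
    simp [pow_succ]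
  rcases le_total (4 * g) A with h | h
  · rw [e A]
    have h1 : A ^ (n - 1) * g ≤ A ^ (n - 1) * (A / 4) :=
      mul_le_mul_of_nonneg_left (by linarith) (pow_nonneg hA _)
    have h2 : 0 ≤ (4 : ℝ) ^ (n - 1) * g ^ n := by positivity
    linarith
  · rw [e g]
    have h1 : A ^ (n - 1) ≤ (4 * g) ^ (n - 1) := pow_le_pow_left₀ hA h _
    rw [mul_pow] at h1
    have h2 : A ^ (n - 1) * g ≤ 4 ^ (n - 1) * g ^ (n - 1) * g :=
      mul_le_mul_of_nonneg_right h1 hg
    have h3 : 0 ≤ (1 / 4) * A ^ n := by positivity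
    linarith

/-- Hardy's inequality for natural exponents `n ≥ 2` (with a crude constant). -/
lemma hardy (n : ℕ) (hn : 2 ≤ n) (g : ℕ → ℝ) (hg : ∀ i, 0 ≤ g i) (m : ℕ) :
    ∑ k ∈ range m, ((∑ i ∈ range (k + 1), g i) / (k + 1 : ℝ)) ^ n ≤
      4 ^ n * ∑ i ∈ range m, g i ^ n := by
  set A : ℕ → ℝ := fun k => (∑ i ∈ range (k + 1), g i) / (k + 1 : ℝ) with hAdef
  have hA : ∀ k, 0 ≤ A k := fun k => div_nonneg (sum_nonneg fun i _ => hg i) (by positivity)
  have hn1 : (1 : ℝ) ≤ (n : ℝ) - 1 := by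
    have : (2 : ℝ) ≤ n := by exact_mod_cast hn
    linarith
  -- telescoping
  have key : ∀ m : ℕ, ∑ k ∈ range m, ((n - 1 : ℝ) * A k ^ n - n * A k ^ (n - 1) * g k) ≤
      - (m : ℝ) * (if m = 0 then 0 else A (m - 1) ^ n) := by
    intro m
    induction m with
    | zero => simp
    | succ m ih =>
      rw [sum_range_succ]
      have e0 : (if m + 1 = 0 then (0 : ℝ) else A (m + 1 - 1) ^ n) = A m ^ n := by simp
      rw [e0]
      rcases Nat.eq_zero_or_pos m with h0 | hpos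
      · subst h0
        have hA0 : A 0 = g 0 := by simp [hAdef]
        simp only [range_zero, sum_empty, zero_add]
        have e : g 0 ^ n = g 0 ^ (n - 1) * g 0 := by
          obtain ⟨j, rfl⟩ : ∃ j, n = j + 1 := ⟨n - 1, by omega⟩
          simp [pow_succ]
        rw [hA0, e]
        push_cast
        nlinarith [pow_nonneg (hg 0) (n - 1), hg 0]
      · have hm0 : m ≠ 0 := by omega
        rw [if_neg hm0] at ih
        have hgm : g m = (m + 1 : ℝ) * A m - m * A (m - 1) := by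
          have e1 : (m + 1 : ℝ) * A m = ∑ i ∈ range (m + 1), g i := by
            simp only [hAdef]; field_simp
          have e2 : (m : ℝ) * A (m - 1) = ∑ i ∈ range m, g i := by
            obtain ⟨j, rfl⟩ : ∃ j, m = j + 1 := ⟨m - 1, by omega⟩
            simp only [hAdef, Nat.add_sub_cancel]
            push_cast
            field_simp
          rw [e1, e2, sum_range_succ]; ring
        have ham := amgm_pow n hn (A m) (A (m - 1)) (hA m) (hA (m - 1))
        have e : A m ^ n = A m ^ (n - 1) * A m := by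
          obtain ⟨j, rfl⟩ : ∃ j, n = j + 1 := ⟨n - 1, by omega⟩
          simp [pow_succ]
        have hmR : (0 : ℝ) ≤ m := by positivity
        have h3 := mul_le_mul_of_nonneg_left ham hmR
        rw [hgm]
        push_cast
        rw [e] at h3 ⊢
        nlinarith [ih, h3]
  have h1 : ∑ k ∈ range m, A k ^ n * (n - 1 : ℝ) ≤ ∑ k ∈ range m, n * A k ^ (n - 1) * g k := by
    have h := key m
    have h2 : - (m : ℝ) * (if m = 0 then 0 else A (m - 1) ^ n) ≤ 0 := by
      split_ifs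
      · simp
      · have : 0 ≤ (m : ℝ) * A (m - 1) ^ n := mul_nonneg (by positivity) (pow_nonneg (hA _) _)
        linarith
    rw [sum_sub_distrib] at h
    have e : ∑ k ∈ range m, A k ^ n * (n - 1 : ℝ) = ∑ k ∈ range m, (n - 1 : ℝ) * A k ^ n := by
      apply sum_congr rfl; intros; ring
    rw [e]; linarith
  have h2 : ∑ k ∈ range m, A k ^ n * (n - 1 : ℝ) ≤
      ∑ k ∈ range m, n * ((1 / 4) * A k ^ n + 4 ^ (n - 1) * g k ^ n) := by
    refine h1.trans (sum_le_sum fun k _ => ?_)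
    have := young_crude n hn (A k) (g k) (hA k) (hg k)
    have hnn : (0 : ℝ) ≤ n := by positivity
    calc (n : ℝ) * A k ^ (n - 1) * g k = n * (A k ^ (n - 1) * g k) := by ring
      _ ≤ _ := mul_le_mul_of_nonneg_left this hnn
  rw [← sum_mul] at h2
  rw [← mul_sum, sum_add_distrib, ← mul_sum, ← mul_sum] at h2
  set S := ∑ k ∈ range m, A k ^ n with hS
  set T := ∑ i ∈ range m, g i ^ n with hT
  have hS0 : 0 ≤ S := sum_nonneg fun k _ => pow_nonneg (hA k) _
  have hT0 : 0 ≤ T := sum_nonneg fun k _ => pow_nonneg (hg k) _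
  -- n ≤ 2 (n-1)
  have hn2 : (n : ℝ) ≤ 2 * (n - 1) := by linarith
  have h3 : (4 : ℝ) ^ n = 4 * 4 ^ (n - 1) := by
    obtain ⟨j, rfl⟩ : ∃ j, n = j + 1 := ⟨n - 1, by omega⟩
    simp [pow_succ]; ring
  have h4 : (n : ℝ) * (1 / 4 * S + 4 ^ (n - 1) * T) ≤ 2 * (n - 1) * (1 / 4 * S + 4 ^ (n - 1) * T) :=
    mul_le_mul_of_nonneg_right hn2 (by positivity)
  have h5 : (n - 1 : ℝ) * S ≤ (n - 1 : ℝ) * (1 / 2 * S + 2 * 4 ^ (n - 1) * T) := by nlinarith
  have h6 : S ≤ 1 / 2 * S + 2 * 4 ^ (n - 1) * T := le_of_mul_le_mul_left h5 (by linarith)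
  rw [h3]; nlinarith [h6]

/-- Summation of the recursion `G_{k+1} ≤ (2/3) G_k + D_k`. -/
lemma recursion_sum (n : ℕ) (hn : 2 ≤ n) (G D : ℕ → ℝ) (hG : ∀ i, 0 ≤ G i) (hD : ∀ i, 0 ≤ D i)
    (m : ℕ) (h : ∀ k < m, G (k + 1) ≤ (2 / 3) * G k + D k) :
    ∑ k ∈ range (m + 1), G k ^ n ≤ 3 * (G 0 ^ n) + 3 ^ n * ∑ k ∈ range m, D k ^ n := by
  have hstep : ∀ k < m, G (k + 1) ^ n ≤ (2 / 3) * G k ^ n + (1 / 3) * (3 ^ n * D k ^ n) := by
    intro k hk
    have h1 : G (k + 1) ^ n ≤ ((2 / 3) * G k + (1 / 3) * (3 * D k)) ^ n := by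
      apply pow_le_pow_left₀ (hG _)
      have := h k hk
      linarith
    refine h1.trans ?_
    have hD3 : (3 * D k) ∈ Set.Ici (0 : ℝ) := by
      have := hD k
      simp only [Set.mem_Ici]; positivity
    have hGk : G k ∈ Set.Ici (0 : ℝ) := hG k
    have := (convexOn_pow (𝕜 := ℝ) n).2 hGk hD3
      (show (0 : ℝ) ≤ 2 / 3 by norm_num) (show (0 : ℝ) ≤ 1 / 3 by norm_num) (by norm_num)
    simp only [smul_eq_mul] at this
    rw [mul_pow] at this
    linarith
  have h1 : ∑ k ∈ range m, G (k + 1) ^ n ≤ (2 / 3) * ∑ k ∈ range m, G k ^ n +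
      (1 / 3) * (3 ^ n * ∑ k ∈ range m, D k ^ n) := by
    rw [mul_sum, mul_sum, mul_sum, ← sum_add_distrib]
    apply sum_le_sum
    intro k hk
    exact hstep k (mem_range.mp hk)
  have h2 : ∑ k ∈ range m, G k ^ n ≤ ∑ k ∈ range (m + 1), G k ^ n := by
    rw [sum_range_succ]
    have := pow_nonneg (hG m) n
    linarith
  have h3 : ∑ k ∈ range (m + 1), G k ^ n = ∑ k ∈ range m, G (k + 1) ^ n + G 0 ^ n :=
    sum_range_succ' _ _
  linarith

end Pool.Lusin.H30
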