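import Pool.Agent.Work.MP_4112db_an.PosDefs
import Pool.Agent.Work.MP_4112db_an.PosReal

/-!
# MP_4112db_an : dyadic cubes, averages, energy
-/

open MeasureTheory Set

namespace Pool.Lusin.H30

variable {n : ℕ}

lemma continuous_coord (i : Fin n) : Continuous (fun y : En n => y i) := by fun_prop

lemma measurableSet_cube (k : ℕ) (z : Fin n → ℤ) : MeasurableSet (cube n k z) := by
  have : cube n k z = ⋂ i, ({y : En n | (z i : ℝ) ≤ 2 ^ k * y i} ∩
      {y : En n | 2 ^ k * y i < z i + 1}) := by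
    ext y; simp [cube]
  rw [this]
  apply MeasurableSet.iInter
  intro i
  have hm : Measurable (fun y : En n => (2 : ℝ) ^ k * y i) :=
    (continuous_const.mul (continuous_coord i)).measurable
  exact (measurableSet_le measurable_const hm).inter (measurableSet_lt hm measurable_const)

lemma isClosed_ccube (k : ℕ) (z : Fin n → ℤ) : IsClosed (ccube n k z) := by
  have : ccube n k z = ⋂ i, ({y : En n | (z i : ℝ) ≤ 2 ^ k * y i} ∩
      {y : En n | 2 ^ k * y i ≤ z i + 1}) := by
    ext y; simp [ccube]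
  rw [this]
  apply isClosed_iInter
  intro i
  have hm : Continuous (fun y : En n => (2 : ℝ) ^ k * y i) :=
    (continuous_const.mul (continuous_coord i))
  exact (isClosed_le continuous_const hm).inter (isClosed_le hm continuous_const)

/-- Euclidean norm is at most the sum of the coordinates -/
lemma norm_le_sum (v : En n) : ‖v‖ ≤ ∑ i, |v i| := by
  have h : v = ∑ i, v i • EuclideanSpace.single i (1 : ℝ) := by
    ext j
    simp [Finset.sum_apply, Pi.single_apply]
  calc ‖v‖ = ‖∑ i, v i • EuclideanSpace.single i (1 : ℝ)‖ := by rw [← h]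
    _ ≤ ∑ i, ‖v i • EuclideanSpace.single i (1 : ℝ)‖ := norm_sum_le _ _
    _ = ∑ i, |v i| := by
      apply Finset.sum_congr rfl
      intro i _
      rw [norm_smul]
      simp

lemma abs_coord_le_norm (v : En n) (i : Fin n) : |v i| ≤ ‖v‖ := by
  have := EuclideanSpace.norm_eq v
  rw [this]
  apply Real.le_sqrt_of_sq_le
  have h1 : |v i| ^ 2 = ‖v i‖ ^ 2 := by rw [Real.norm_eq_abs]
  rw [h1]
  exact Finset.single_le_sum (f := fun i => ‖v i‖ ^ 2) (fun i _ => by positivity)
    (Finset.mem_univ i)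

lemma dist_le_of_mem_ccube {k : ℕ} {z : Fin n → ℤ} {x y : En n} (hx : x ∈ ccube n k z)
    (hy : y ∈ ccube n k z) : ‖x - y‖ ≤ n * (1 / 2) ^ k := by
  refine (norm_le_sum _).trans ?_
  have h : ∀ i : Fin n, |(x - y) i| ≤ (1 / 2) ^ k := by
    intro i
    have h1 := hx i
    have h2 := hy i
    have h2k : (0 : ℝ) < 2 ^ k := by positivity
    have h3 : |2 ^ k * (x i - y i)| ≤ 1 := by
      rw [abs_le]; constructor <;> linarith [h1.1, h1.2, h2.1, h2.2, mul_sub ((2:ℝ)^k) (x i) (y i)]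
    rw [abs_mul, abs_of_pos h2k] at h3
    have h4 : (x - y) i = x i - y i := rfl
    rw [h4, one_div, inv_pow, ← one_div, le_div_iff₀ h2k]
    linarith
  calc ∑ i, |(x - y) i| ≤ ∑ i : Fin n, (1 / 2 : ℝ) ^ k := Finset.sum_le_sum fun i _ => h i
    _ = n * (1 / 2) ^ k := by simp

lemma isBounded_ccube (k : ℕ) (z : Fin n → ℤ) : Bornology.IsBounded (ccube n k z) := by
  rw [Metric.isBounded_iff]
  refine ⟨n * (1 / 2) ^ k, ?_⟩
  intro x hx y hy
  rw [dist_eq_norm]
  exact dist_le_of_mem_ccube hx hy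

lemma isCompact_ccube (k : ℕ) (z : Fin n → ℤ) : IsCompact (ccube n k z) :=
  Metric.isCompact_of_isClosed_isBounded (isClosed_ccube k z) (isBounded_ccube k z)

lemma cube_subset_ccube (k : ℕ) (z : Fin n → ℤ) : cube n k z ⊆ ccube n k z :=
  fun _ hy i => ⟨(hy i).1, (hy i).2.le⟩

lemma ccube_succ_subset (k : ℕ) (z : Fin n → ℤ) : ccube n (k + 1) z ⊆ ccube n k (dpar z) := by
  intro y hy i
  have h := hy i
  have h1 : 2 * (z i / 2) ≤ z i := by omega
  have h2 : z i ≤ 2 * (z i / 2) + 1 := by omega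
  have h1' : 2 * ((z i / 2 : ℤ) : ℝ) ≤ z i := by exact_mod_cast h1
  have h2' : (z i : ℝ) ≤ 2 * ((z i / 2 : ℤ) : ℝ) + 1 := by exact_mod_cast h2
  unfold dpar
  rw [pow_succ] at h
  constructor <;> nlinarith [h.1, h.2]

lemma convex_ccube (k : ℕ) (z : Fin n → ℤ) : Convex ℝ (ccube n k z) := by
  intro x hx y hy a b ha hb hab i
  have h1 := hx i
  have h2 := hy i
  have e : (a • x + b • y) i = a * x i + b * y i := rfl
  have e2 : (2 : ℝ) ^ k * (a * x i + b * y i) = a * (2 ^ k * x i) + b * (2 ^ k * y i) := by ring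
  have e3 : (z i : ℝ) = a * z i + b * z i := by rw [← add_mul, hab, one_mul]
  have e4 : (z i : ℝ) + 1 = a * (z i + 1) + b * (z i + 1) := by rw [← add_mul, hab, one_mul]
  rw [e, e2]
  constructor
  · rw [e3]
    exact add_le_add (mul_le_mul_of_nonneg_left h1.1 ha) (mul_le_mul_of_nonneg_left h2.1 hb)
  · rw [e4]
    exact add_le_add (mul_le_mul_of_nonneg_left h1.2 ha) (mul_le_mul_of_nonneg_left h2.2 hb)

/-- the dyadic children -/
def kids (z : Fin n → ℤ) : Finset (Fin n → ℤ) :=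
  Fintype.piFinset fun i => ({2 * z i, 2 * z i + 1} : Finset ℤ)

lemma mem_kids {z z' : Fin n → ℤ} : z' ∈ kids z ↔ dpar z' = z := by
  unfold kids dpar
  rw [Fintype.mem_piFinset]
  constructor
  · intro h
    funext i
    have := h i
    simp only [Finset.mem_insert, Finset.mem_singleton] at this
    omega
  · intro h i
    have := congrFun h i
    simp only [Finset.mem_insert, Finset.mem_singleton]
    omega

lemma card_kids (z : Fin n → ℤ) : (kids z).card = 2 ^ n := by
  unfold kids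
  rw [Fintype.card_piFinset]
  have : ∀ i : Fin n, ({2 * z i, 2 * z i + 1} : Finset ℤ).card = 2 := by
    intro i
    apply Finset.card_pair
    omega
  simp [this]

lemma mem_cube_iff {k : ℕ} {z : Fin n → ℤ} {y : En n} :
    y ∈ cube n k z ↔ ∀ i, ⌊(2 : ℝ) ^ k * y i⌋ = z i := by
  unfold cube
  simp only [mem_ofPred_eq]
  constructor
  · intro h i
    rw [Int.floor_eq_iff]
    exact h i
  · intro h i
    have := h i
    rw [Int.floor_eq_iff] at this
    exact this

lemma cube_disjoint {k : ℕ} {z z' : Fin n → ℤ} (h : z ≠ z') :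
    Disjoint (cube n k z) (cube n k z') := by
  rw [Set.disjoint_left]
  intro y hy hy'
  apply h
  funext i
  rw [mem_cube_iff] at hy hy'
  rw [← hy i, ← hy' i]

lemma cube_eq_iUnion (k : ℕ) (z : Fin n → ℤ) :
    cube n k z = ⋃ z' ∈ kids z, cube n (k + 1) z' := by
  ext y
  simp only [mem_iUnion, exists_prop]
  constructor
  · intro hy
    refine ⟨fun i => ⌊(2 : ℝ) ^ (k + 1) * y i⌋, ?_, ?_⟩
    · rw [mem_kids]
      funext i
      rw [mem_cube_iff] at hy
      show ⌊(2 : ℝ) ^ (k + 1) * y i⌋ / 2 = z i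
      rw [← hy i]
      have h1 := Int.floor_le ((2 : ℝ) ^ k * y i)
      have h2 := Int.lt_floor_add_one ((2 : ℝ) ^ k * y i)
      have h3 := Int.floor_le ((2 : ℝ) ^ (k + 1) * y i)
      have h4 := Int.lt_floor_add_one ((2 : ℝ) ^ (k + 1) * y i)
      set a := ⌊(2 : ℝ) ^ k * y i⌋
      set b := ⌊(2 : ℝ) ^ (k + 1) * y i⌋
      rw [pow_succ] at h3 h4
      have h5 : (2 * a : ℝ) < b + 1 := by linarith
      have h6 : (b : ℝ) < 2 * a + 2 := by linarith
      have h5' : 2 * a < b + 1 := by exact_mod_cast h5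
      have h6' : b < 2 * a + 2 := by exact_mod_cast h6
      omega
    · rw [mem_cube_iff]
      intro i; rfl
  · rintro ⟨z', hz', hy⟩
    rw [mem_kids] at hz'
    rw [mem_cube_iff] at hy ⊢
    intro i
    have hyi := hy i
    have hzi := congrFun hz' i
    unfold dpar at hzi
    rw [Int.floor_eq_iff] at hyi ⊢
    have h1 : 2 * z i ≤ z' i := by omega
    have h2 : z' i + 1 ≤ 2 * z i + 2 := by omega
    have h1' : (2 * z i : ℝ) ≤ z' i := by exact_mod_cast h1
    have h2' : (z' i + 1 : ℝ) ≤ 2 * z i + 2 := by exact_mod_cast h2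
    rw [pow_succ] at hyi
    constructor <;> linarith [hyi.1, hyi.2]

lemma volume_cube (k : ℕ) (z : Fin n → ℤ) : volume.real (cube n k z) = ((1 / 2 : ℝ) ^ k) ^ n := by
  have h1 : cube n k z = (@WithLp.ofLp 2 (Fin n → ℝ)) ⁻¹' (Set.pi univ fun i =>
      Ico ((z i : ℝ) / 2 ^ k) ((z i + 1) / 2 ^ k)) := by
    ext y
    have h2k : (0 : ℝ) < 2 ^ k := by positivity
    simp only [cube, mem_ofPred_eq, mem_preimage, mem_pi, mem_univ, true_imp_iff, mem_Ico]
    apply forall_congr'
    intro i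
    rw [div_le_iff₀ h2k, lt_div_iff₀ h2k, mul_comm]
  rw [measureReal_def, h1, (PiLp.volume_preserving_ofLp (Fin n)).measure_preimage
    (MeasurableSet.univ_pi fun i => measurableSet_Ico).nullMeasurableSet, Real.volume_pi_Ico]
  have h2 : ∀ i : Fin n, ((z i + 1 : ℝ) / 2 ^ k - (z i : ℝ) / 2 ^ k) = (1 / 2) ^ k := by
    intro i
    rw [← sub_div, one_div, inv_pow]
    simp
  simp only [h2]
  rw [Finset.prod_const, Finset.card_univ, Fintype.card_fin, ENNReal.toReal_pow,
    ENNReal.toReal_ofReal (by positivity)]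

lemma volume_cube_ne_top (k : ℕ) (z : Fin n → ℤ) : volume (cube n k z) ≠ ⊤ :=
  ((isBounded_ccube k z).subset (cube_subset_ccube k z)).measure_lt_top.ne

/-- average over a dyadic cube -/
noncomputable def hav (G : En n → ℝ) (k : ℕ) (z : Fin n → ℤ) : ℝ :=
  (2 ^ k) ^ n * ∫ y in cube n k z, G y

lemma hav_nonneg {G : En n → ℝ} (hG : ∀ y, 0 ≤ G y) (k : ℕ) (z : Fin n → ℤ) :
    0 ≤ hav G k z := mul_nonneg (by positivity) (integral_nonneg hG)

lemma sum_hav {G : En n → ℝ} (k : ℕ) (z : Fin n → ℤ) (hG : IntegrableOn G (cube n k z)) :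
    ∑ z' ∈ kids z, hav G (k + 1) z' = 2 ^ n * hav G k z := by
  unfold hav
  rw [← Finset.mul_sum, ← integral_biUnion_finset, ← cube_eq_iUnion]
  · rw [pow_succ, mul_pow]; ring
  · intro z' _; exact measurableSet_cube _ _
  · intro z1 _ z2 _ h12
    exact cube_disjoint h12
  · intro z' hz'
    apply hG.mono_set
    rw [cube_eq_iUnion k z]
    exact subset_biUnion_of_mem (u := fun z' => cube n (k + 1) z') hz'

/-- one step of the energy estimate -/
lemma energy_step (hn : 2 ≤ n) {G : En n → ℝ} (hG0 : ∀ y, 0 ≤ G y) (k : ℕ) (z : Fin n → ℤ)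
    (hG : IntegrableOn G (cube n k z)) :
    ((1 / 2 : ℝ) ^ k * hav G k z) ^ n +
      ∑ z' ∈ kids z, ((1 / 2 : ℝ) ^ (k + 1) * |hav G (k + 1) z' - hav G k z|) ^ n ≤
      ∑ z' ∈ kids z, ((1 / 2 : ℝ) ^ (k + 1) * hav G (k + 1) z') ^ n := by
  have h1 : ∀ z' ∈ kids z, hav G k z ^ n +
      n * hav G k z ^ (n - 1) * (hav G (k + 1) z' - hav G k z) +
      |hav G (k + 1) z' - hav G k z| ^ n ≤ hav G (k + 1) z' ^ n := by
    intro z' _
    have := pow_convex_strong n hn (hav G k z) (hav G (k + 1) z' - hav G k z)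
      (hav_nonneg hG0 k z) (by have := hav_nonneg hG0 (k + 1) z'; linarith)
    rw [add_sub_cancel] at this
    exact this
  have h2 := Finset.sum_le_sum h1
  rw [Finset.sum_add_distrib, Finset.sum_add_distrib, ← Finset.mul_sum,
    Finset.sum_sub_distrib, sum_hav k z hG, Finset.sum_const, Finset.sum_const, card_kids] at h2
  simp only [nsmul_eq_mul, Nat.cast_pow, Nat.cast_ofNat, sub_self, mul_zero, add_zero] at h2
  have h3 : (0 : ℝ) ≤ ((1 / 2 : ℝ) ^ (k + 1)) ^ n := by positivity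
  have h4 := mul_le_mul_of_nonneg_left h2 h3
  simp only [mul_pow]
  rw [← Finset.mul_sum, ← Finset.mul_sum]
  have h5 : ((1 / 2 : ℝ) ^ (k + 1)) ^ n * 2 ^ n = ((1 / 2 : ℝ) ^ k) ^ n := by
    rw [← mul_pow]
    congr 1
    rw [pow_succ]; ring
  calc _ = ((1 / 2 : ℝ) ^ (k + 1)) ^ n * 2 ^ n * hav G k z ^ n +
        ((1 / 2 : ℝ) ^ (k + 1)) ^ n * ∑ z' ∈ kids z, |hav G (k + 1) z' - hav G k z| ^ n := by
        rw [h5]
    _ ≤ _ := by linarith

/-- Jensen -/
lemma jensen_cube (hn : 2 ≤ n) {G : En n → ℝ} (hG0 : ∀ y, 0 ≤ G y) (k : ℕ) (z : Fin n → ℤ)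
    (hG : IntegrableOn G (cube n k z)) (hGn : IntegrableOn (fun y => G y ^ n) (cube n k z)) :
    ((1 / 2 : ℝ) ^ k * hav G k z) ^ n ≤ ∫ y in cube n k z, G y ^ n := by
  set h := hav G k z with hh
  have hh0 : 0 ≤ h := hav_nonneg hG0 k z
  have hv := volume_cube (n := n) k z
  have h1 : ∫ y in cube n k z, (h ^ n + n * h ^ (n - 1) * (G y - h)) ≤
      ∫ y in cube n k z, G y ^ n := by
    apply setIntegral_mono_on _ hGn (measurableSet_cube k z)
    · intro y _
      have := pow_convex_strong n hn h (G y - h) hh0 (by have := hG0 y; linarith)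
      rw [add_sub_cancel] at this
      have h2 : 0 ≤ |G y - h| ^ n := by positivity
      linarith
    · apply Integrable.add (integrableOn_const (volume_cube_ne_top k z))
      exact (hG.sub (integrableOn_const (volume_cube_ne_top k z))).const_mul _
  have h2 : ∫ y in cube n k z, (h ^ n + n * h ^ (n - 1) * (G y - h)) =
      ((1 / 2 : ℝ) ^ k * h) ^ n := by
    rw [integral_add, integral_const_mul, integral_sub hG, setIntegral_const, setIntegral_const,
      hv]
    · have h3 : ∫ y in cube n k z, G y = ((1 / 2 : ℝ) ^ k) ^ n * h := by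
        rw [hh]; unfold hav
        rw [← mul_assoc, ← mul_pow, ← mul_pow]
        norm_num
      rw [h3, mul_pow]
      simp only [smul_eq_mul]
      ring
    · exact integrableOn_const (volume_cube_ne_top k z)
    · exact integrableOn_const (volume_cube_ne_top k z)
    · exact (hG.sub (integrableOn_const (volume_cube_ne_top k z))).const_mul _
  rw [← h2]
  exact h1

/-- the descendants of a finite family of cubes -/
def desc (Z0 : Finset (Fin n → ℤ)) : ℕ → Finset (Fin n → ℤ)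
  | 0 => Z0
  | j + 1 => (desc Z0 j).biUnion kids

lemma mem_desc_succ {Z0 : Finset (Fin n → ℤ)} {j : ℕ} {z : Fin n → ℤ} :
    z ∈ desc Z0 (j + 1) ↔ dpar z ∈ desc Z0 j := by
  simp only [desc, Finset.mem_biUnion, mem_kids]
  constructor
  · rintro ⟨a, ha, rfl⟩; exact ha
  · intro h; exact ⟨_, h, rfl⟩

lemma sum_desc_succ (Z0 : Finset (Fin n → ℤ)) (j : ℕ) (φ : (Fin n → ℤ) → ℝ) :
    ∑ z ∈ desc Z0 (j + 1), φ z = ∑ z ∈ desc Z0 j, ∑ z' ∈ kids z, φ z' := by
  show ∑ z ∈ (desc Z0 j).biUnion kids, φ z = _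
  apply Finset.sum_biUnion
  intro z _ z' _ hne
  rw [Function.onFun, Finset.disjoint_left]
  intro x hx hx'
  rw [mem_kids] at hx hx'
  exact hne (hx.symm.trans hx')

/-- the union of the closed cubes of the family -/
def cup (k0 : ℕ) (Z0 : Finset (Fin n → ℤ)) : Set (En n) := ⋃ z ∈ Z0, ccube n k0 z

lemma isCompact_cup (k0 : ℕ) (Z0 : Finset (Fin n → ℤ)) : IsCompact (cup k0 Z0) :=
  Z0.isCompact_biUnion fun z _ => isCompact_ccube k0 z

lemma ccube_subset_cup (k0 : ℕ) (Z0 : Finset (Fin n → ℤ)) (j : ℕ) {z : Fin n → ℤ}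
    (hz : z ∈ desc Z0 j) : ccube n (k0 + j) z ⊆ cup k0 Z0 := by
  induction j generalizing z with
  | zero => exact subset_biUnion_of_mem (u := fun z => ccube n k0 z) hz
  | succ j ih =>
    rw [mem_desc_succ] at hz
    exact (ccube_succ_subset (k0 + j) z).trans (ih hz)

/-- the full energy estimate -/
lemma energy (hn : 2 ≤ n) {G : En n → ℝ} (hG0 : ∀ y, 0 ≤ G y) (k0 : ℕ)
    (Z0 : Finset (Fin n → ℤ)) (hG : IntegrableOn G (cup k0 Z0))
    (hGn : IntegrableOn (fun y => G y ^ n) (cup k0 Z0)) (m : ℕ) :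
    (∑ z ∈ desc Z0 0, ((1 / 2 : ℝ) ^ k0 * hav G k0 z) ^ n ≤ ∫ y in cup k0 Z0, G y ^ n) ∧
    ∑ j ∈ Finset.range m, ∑ z ∈ desc Z0 (j + 1),
      ((1 / 2 : ℝ) ^ (k0 + j + 1) * |hav G (k0 + j + 1) z - hav G (k0 + j) (dpar z)|) ^ n ≤
      ∫ y in cup k0 Z0, G y ^ n := by
  set E : ℕ → ℝ := fun j => ∑ z ∈ desc Z0 j, ((1 / 2 : ℝ) ^ (k0 + j) * hav G (k0 + j) z) ^ n
    with hE
  have hE0 : ∀ j, 0 ≤ E j := fun j => Finset.sum_nonneg fun z _ =>
    pow_nonneg (mul_nonneg (by positivity) (hav_nonneg hG0 _ _)) n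
  have hEle : ∀ j, E j ≤ ∫ y in cup k0 Z0, G y ^ n := by
    intro j
    have hsub : ∀ z ∈ desc Z0 j, cube n (k0 + j) z ⊆ cup k0 Z0 := fun z hz =>
      (cube_subset_ccube _ _).trans (ccube_subset_cup k0 Z0 j hz)
    calc E j ≤ ∑ z ∈ desc Z0 j, ∫ y in cube n (k0 + j) z, G y ^ n :=
          Finset.sum_le_sum fun z hz => jensen_cube hn hG0 _ _ (hG.mono_set (hsub z hz))
            (hGn.mono_set (hsub z hz))
      _ = ∫ y in ⋃ z ∈ desc Z0 j, cube n (k0 + j) z, G y ^ n := by
          rw [integral_biUnion_finset]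
          · intro z' _; exact measurableSet_cube _ _
          · intro z1 _ z2 _ h12
            exact cube_disjoint h12
          · intro z hz; exact hGn.mono_set (hsub z hz)
      _ ≤ _ := by
          apply setIntegral_mono_set hGn
          · filter_upwards with y
            exact pow_nonneg (hG0 y) n
          · exact (iUnion₂_subset hsub).eventuallyLE
  constructor
  · exact hEle 0
  · have hstep : ∀ j, ∑ z ∈ desc Z0 (j + 1),
        ((1 / 2 : ℝ) ^ (k0 + j + 1) * |hav G (k0 + j + 1) z - hav G (k0 + j) (dpar z)|) ^ n ≤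
        E (j + 1) - E j := by
      intro j
      have h1 : ∀ z ∈ desc Z0 j, ((1 / 2 : ℝ) ^ (k0 + j) * hav G (k0 + j) z) ^ n +
          ∑ z' ∈ kids z, ((1 / 2 : ℝ) ^ (k0 + j + 1) *
            |hav G (k0 + j + 1) z' - hav G (k0 + j) (dpar z')|) ^ n ≤
          ∑ z' ∈ kids z, ((1 / 2 : ℝ) ^ (k0 + j + 1) * hav G (k0 + j + 1) z') ^ n := by
        intro z hz
        have hsub : cube n (k0 + j) z ⊆ cup k0 Z0 :=
          (cube_subset_ccube _ _).trans (ccube_subset_cup k0 Z0 j hz)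
        have := energy_step hn hG0 (k0 + j) z (hG.mono_set hsub)
        have e : ∑ z' ∈ kids z, ((1 / 2 : ℝ) ^ (k0 + j + 1) *
            |hav G (k0 + j + 1) z' - hav G (k0 + j) (dpar z')|) ^ n =
            ∑ z' ∈ kids z, ((1 / 2 : ℝ) ^ (k0 + j + 1) *
            |hav G (k0 + j + 1) z' - hav G (k0 + j) z|) ^ n := by
          apply Finset.sum_congr rfl
          intro z' hz'
          rw [mem_kids] at hz'
          rw [hz']
        rw [e]
        exact this
      have h2 := Finset.sum_le_sum h1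
      rw [Finset.sum_add_distrib, ← sum_desc_succ, ← sum_desc_succ] at h2
      have e1 : E (j + 1) = ∑ z ∈ desc Z0 (j + 1),
        ((1 / 2 : ℝ) ^ (k0 + j + 1) * hav G (k0 + j + 1) z) ^ n := rfl
      rw [e1, hE]
      linarith
    calc _ ≤ ∑ j ∈ Finset.range m, (E (j + 1) - E j) := Finset.sum_le_sum fun j _ => hstep j
      _ = E m - E 0 := Finset.sum_range_sub E m
      _ ≤ _ := by linarith [hE0 0, hEle m]

end Pool.Lusin.H30
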