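import Pool.Agent.Work.MP_4112db_an.Defs

/-!
# MP_4112db_an : dyadic cubes (definitions for the positive direction)
-/

open MeasureTheory Set

namespace Pool.Lusin

/-- half-open dyadic cube of side `2^{-k}` with index `z` -/
def cube (n k : ℕ) (z : Fin n → ℤ) : Set (En n) :=
  {y | ∀ i, (z i : ℝ) ≤ 2 ^ k * y i ∧ 2 ^ k * y i < z i + 1}

/-- closed dyadic cube of side `2^{-k}` with index `z` -/
def ccube (n k : ℕ) (z : Fin n → ℤ) : Set (En n) :=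
  {y | ∀ i, (z i : ℝ) ≤ 2 ^ k * y i ∧ 2 ^ k * y i ≤ z i + 1}

/-- index of the dyadic parent -/
def dpar {n : ℕ} (z : Fin n → ℤ) : Fin n → ℤ := fun i => z i / 2

/-- Interface of module M1 (bump averages). -/
def AvgStatement (n : ℕ) : Prop :=
  ∃ C : ℝ, 0 < C ∧ ∀ (Ω : Set (En n)), IsOpen Ω → ∀ (f : En n → En n)
    (g : Fin n → Fin n → En n → ℝ), ContinuousOn f Ω →
    (∀ i j, IsWeakPartial n Ω (fun x => f x j) (g i j) i) →
    (∀ i j, MemLp (g i j) (n : ENNReal) (volume.restrict Ω)) →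
    ∃ F : ℕ → (Fin n → ℤ) → En n,
      (∀ k z, ccube n k z ⊆ Ω → ∀ (w : En n) (M : ℝ), (∀ y ∈ ccube n k z, ‖w - f y‖ ≤ M) →
        ‖w - F k z‖ ≤ C * M) ∧
      (∀ k z, ccube n k (dpar z) ⊆ Ω →
        ‖F (k + 1) z - F k (dpar z)‖ ≤
          C * ((2 : ℝ) ^ k) ^ n / 2 ^ k * ∫ y in cube n k (dpar z), ∑ i, ∑ j, |g i j y|)

end Pool.Lusin
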