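import Pool.Agent.Work.MP_4112db_an.PosReal

/-!
# MP_4112db_an : the final summation
-/

open Finset

namespace Pool.Lusin.H30

lemma final_sum (n : ℕ) (hn : 2 ≤ n) (L : ℕ → ℝ) (k0 : ℕ) (B1 B2 B3 B4 : ℝ)
    (hB2 : 0 ≤ B2) (hB3 : 0 ≤ B3) (hB4 : 0 ≤ B4)
    (h : ∀ m : ℕ, ∃ G : ℕ → ℝ, (∀ j, 0 ≤ G j) ∧ ∑ k ∈ range (m + 1), G k ^ n ≤ B1 ∧
      ∀ j ≤ m, L (k0 + j) ≤ B2 + B3 * ∑ i ∈ range j, G i)
    (hL : ∀ k, - B4 ≤ L (k + 1)) :
    Summable (fun k : ℕ => (|L (k + 1)| / ((k : ℝ) + 1)) ^ n) := by
  set B5 : ℝ := ∑ k ∈ range k0, |L k| with hB5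
  have hB50 : 0 ≤ B5 := sum_nonneg fun k _ => abs_nonneg _
  set c : ℝ := B4 + B5 + B2 with hc
  have hc0 : 0 ≤ c := by positivity
  apply summable_of_sum_range_le (c := 4 ^ n * (2 ^ (n - 1) * (c ^ n + B3 ^ n * B1)))
  · intro k; positivity
  intro m
  obtain ⟨G, hG0, hG1, hG2⟩ := h m
  set g : ℕ → ℝ := fun i => (if i = 0 then c else 0) + B3 * G i with hg
  have hg0 : ∀ i, 0 ≤ g i := by
    intro i
    simp only [hg]
    have := hG0 i
    split_ifs <;> positivity
  have hsumg : ∀ k, ∑ i ∈ range (k + 1), g i = c + B3 * ∑ i ∈ range (k + 1), G i := by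
    intro k
    simp only [hg]
    rw [sum_add_distrib, ← mul_sum]
    congr 1
    rw [sum_ite_eq' (range (k + 1)) 0 (fun _ => c)]
    simp
  have hpt : ∀ k ∈ range m, (|L (k + 1)| / ((k : ℝ) + 1)) ^ n ≤
      ((∑ i ∈ range (k + 1), g i) / ((k : ℝ) + 1)) ^ n := by
    intro k hk
    rw [mem_range] at hk
    apply pow_le_pow_left₀ (by positivity)
    apply div_le_div_of_nonneg_right _ (by positivity)
    rw [hsumg]
    have hS : 0 ≤ B3 * ∑ i ∈ range (k + 1), G i :=
      mul_nonneg hB3 (sum_nonneg fun i _ => hG0 i)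
    rw [abs_le]
    constructor
    · have := hL k
      linarith
    · rcases lt_or_ge (k + 1) k0 with hlt | hge
      · have : |L (k + 1)| ≤ B5 := by
          rw [hB5]
          exact single_le_sum (f := fun k => |L k|) (fun i _ => abs_nonneg _) (mem_range.mpr hlt)
        linarith [le_abs_self (L (k + 1))]
      · obtain ⟨j, hj⟩ : ∃ j, k + 1 = k0 + j := ⟨k + 1 - k0, by omega⟩
        have h1 := hG2 j (by omega)
        rw [← hj] at h1
        have h2 : ∑ i ∈ range j, G i ≤ ∑ i ∈ range (k + 1), G i := by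
          apply sum_le_sum_of_subset_of_nonneg
          · intro i hi
            rw [mem_range] at hi ⊢
            omega
          · intro i _ _; exact hG0 i
        have h3 := mul_le_mul_of_nonneg_left h2 hB3
        linarith
  refine (sum_le_sum hpt).trans ?_
  refine (hardy n hn g hg0 m).trans ?_
  apply mul_le_mul_of_nonneg_left _ (by positivity)
  calc ∑ i ∈ range m, g i ^ n
      ≤ ∑ i ∈ range m, 2 ^ (n - 1) * ((if i = 0 then c else 0) ^ n + (B3 * G i) ^ n) := by
        apply sum_le_sum
        intro i _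
        apply add_pow_le
        · split_ifs
          · exact hc0
          · exact le_rfl
        · exact mul_nonneg hB3 (hG0 i)
    _ = 2 ^ (n - 1) * (∑ i ∈ range m, (if i = 0 then c else 0) ^ n +
        ∑ i ∈ range m, (B3 * G i) ^ n) := by
        rw [← mul_sum, sum_add_distrib]
    _ ≤ _ := by
        apply mul_le_mul_of_nonneg_left _ (by positivity)
        apply add_le_add
        · have hn0 : n ≠ 0 := by omega
          have e : ∀ i : ℕ, (if i = 0 then c else 0) ^ n = if i = 0 then c ^ n else 0 := by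
            intro i
            split_ifs
            · rfl
            · exact zero_pow hn0
          simp only [e]
          rw [sum_ite_eq' (range m) 0 (fun _ => c ^ n)]
          split_ifs
          · exact le_rfl
          · positivity
        · simp only [mul_pow]
          rw [← mul_sum]
          apply mul_le_mul_of_nonneg_left _ (by positivity)
          refine le_trans ?_ hG1
          rw [sum_range_succ]
          have := pow_nonneg (hG0 m) n
          linarith

end Pool.Lusin.H30
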