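import Pool.Agent.Work.MP_4112db_an.Defs

/-!
# MP_4112db_an : reduction of the failure of (N) to compact null sets
-/

open MeasureTheory Set Filter Topology

namespace Pool.Lusin.H30

/-- An open set is an increasing union of compact sets. -/
lemma exists_compact_exhaustion (n : ℕ) {U : Set (En n)} (hU : IsOpen U) :
    ∃ C : ℕ → Set (En n), (∀ i, IsCompact (C i)) ∧ (∀ i, C i ⊆ U) ∧ (⋃ i, C i) = U ∧
      Monotone C := by
  obtain ⟨F, hF1, hF2, hF3, hF4⟩ := hU.exists_iUnion_isClosed
  refine ⟨fun i => F i ∩ Metric.closedBall 0 (i : ℝ), ?_, ?_, ?_, ?_⟩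
  · intro i
    exact (isCompact_closedBall _ _).inter_left (hF1 i)
  · intro i; exact inter_subset_left.trans (hF2 i)
  · apply Subset.antisymm
    · exact iUnion_subset fun i => inter_subset_left.trans (hF2 i)
    · intro x hx
      rw [← hF3] at hx
      obtain ⟨i, hi⟩ := mem_iUnion.mp hx
      obtain ⟨j, hj⟩ := exists_nat_ge ‖x‖
      refine mem_iUnion.mpr ⟨max i j, hF4 (le_max_left i j) hi, ?_⟩
      rw [mem_closedBall_zero_iff]
      refine hj.trans ?_
      exact_mod_cast le_max_right i j
  · intro i j hij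
    apply inter_subset_inter (hF4 hij)
    apply Metric.closedBall_subset_closedBall
    exact_mod_cast hij

/-- Failure of Lusin's condition is witnessed by a compact null set. -/
theorem exists_compact_of_not_lusin (n : ℕ) {Ω : Set (En n)} (hΩ : IsOpen Ω) {f : En n → En n}
    (hf : ContinuousOn f Ω) (hN : ¬ LusinN n Ω f) :
    ∃ K : Set (En n), IsCompact K ∧ K ⊆ Ω ∧ volume K = 0 ∧ 0 < volume (f '' K) := by
  unfold LusinN at hN
  push Not at hN
  obtain ⟨E, hEΩ, hE0, hfE⟩ := hN
  have hpos : 0 < volume (f '' E) := pos_iff_ne_zero.mpr hfE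
  obtain ⟨c, hc0, hc⟩ := exists_between hpos
  -- open supersets
  have hO : ∀ j : ℕ, ∃ O : Set (En n), E ⊆ O ∧ IsOpen O ∧
      volume O < ENNReal.ofReal (1 / ((j : ℝ) + 1)) := by
    intro j
    apply Set.exists_isOpen_lt_of_lt
    rw [hE0]
    apply ENNReal.ofReal_pos.mpr
    positivity
  choose O hEO hOo hOv using hO
  have hC : ∀ j : ℕ, ∃ C : ℕ → Set (En n), (∀ i, IsCompact (C i)) ∧ (∀ i, C i ⊆ Ω ∩ O j) ∧
      (⋃ i, C i) = Ω ∩ O j ∧ Monotone C := fun j =>
    exists_compact_exhaustion n (hΩ.inter (hOo j))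
  choose C hC1 hC2 hC3 hC4 using hC
  -- one step
  have hstep : ∀ (j : ℕ) (S : {S : Set (En n) // S ⊆ E ∧ c < volume (f '' S)}),
      ∃ i : ℕ, c < volume (f '' (S.1 ∩ C j i)) := by
    rintro j ⟨S, hSE, hS⟩
    have h1 : f '' S = ⋃ i, f '' (S ∩ C j i) := by
      rw [← image_iUnion, ← inter_iUnion, hC3 j]
      congr 1
      refine (inter_eq_left.mpr ?_).symm
      exact subset_inter (hSE.trans hEΩ) (hSE.trans (hEO j))
    have hmono : Monotone fun i => f '' (S ∩ C j i) := fun i i' hii' =>
      image_mono (inter_subset_inter_right _ (hC4 j hii'))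
    simp only at hS ⊢
    rw [h1, hmono.measure_iUnion] at hS
    exact lt_iSup_iff.mp hS
  choose I hI using hstep
  -- recursion
  let next : (j : ℕ) → {S : Set (En n) // S ⊆ E ∧ c < volume (f '' S)} →
      {S : Set (En n) // S ⊆ E ∧ c < volume (f '' S)} := fun j S =>
    ⟨S.1 ∩ C j (I j S), inter_subset_left.trans S.2.1, hI j S⟩
  let S : ℕ → {S : Set (En n) // S ⊆ E ∧ c < volume (f '' S)} := fun j =>
    Nat.rec ⟨E, Subset.rfl, hc⟩ (fun j s => next j s) j
  have hS : ∀ j, (S (j + 1)).1 = (S j).1 ∩ C j (I j (S j)) := fun j => rfl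
  let T : ℕ → Set (En n) := fun j => C j (I j (S j))
  -- partial intersections
  let K : ℕ → Set (En n) := fun j => Nat.rec (T 0) (fun j s => s ∩ T (j + 1)) j
  have hK0 : K 0 = T 0 := rfl
  have hKs : ∀ j, K (j + 1) = K j ∩ T (j + 1) := fun j => rfl
  have hKT : ∀ j, K j ⊆ T j := by
    intro j
    cases j with
    | zero => exact hK0.subset
    | succ j => rw [hKs]; exact inter_subset_right
  have hanti : Antitone K := antitone_nat_of_succ_le fun j => by
    rw [hKs]; exact inter_subset_left
  have hSK : ∀ j, (S (j + 1)).1 ⊆ K j := by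
    intro j
    induction j with
    | zero =>
      have h := hS 0
      rw [h, hK0]; exact inter_subset_right
    | succ j ih =>
      have h := hS (j + 1)
      rw [h, hKs]; exact inter_subset_inter ih Subset.rfl
  have hKcomp : ∀ j, IsCompact (K j) := by
    intro j
    induction j with
    | zero => rw [hK0]; exact hC1 _ _
    | succ j ih => rw [hKs]; exact ih.inter (hC1 _ _)
  have hKΩ : ∀ j, K j ⊆ Ω ∩ O j := fun j => (hKT j).trans (hC2 _ _)
  refine ⟨⋂ j, K j, ?_, ?_, ?_, ?_⟩
  · exact (hKcomp 0).of_isClosed_subset (isClosed_iInter fun j => (hKcomp j).isClosed)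
      (iInter_subset K 0)
  · exact (iInter_subset K 0).trans ((hKΩ 0).trans inter_subset_left)
  · -- null
    apply le_antisymm _ zero_le
    have h1 : ∀ j : ℕ, volume (⋂ j, K j) ≤ ENNReal.ofReal (1 / ((j : ℝ) + 1)) := fun j =>
      (measure_mono ((iInter_subset K j).trans ((hKΩ j).trans inter_subset_right))).trans
        (hOv j).le
    have h2 : Tendsto (fun j : ℕ => ENNReal.ofReal (1 / ((j : ℝ) + 1))) atTop (𝓝 0) := by
      rw [← ENNReal.ofReal_zero]
      exact ENNReal.tendsto_ofReal tendsto_one_div_add_atTop_nhds_zero_nat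
    exact ge_of_tendsto' h2 h1
  · have himg : f '' (⋂ j, K j) = ⋂ j, f '' (K j) := by
      apply Subset.antisymm
      · exact image_iInter_subset _ _
      · intro y hy
        rw [mem_iInter] at hy
        have hcl : ∀ j, IsClosed (K j ∩ f ⁻¹' {y}) := fun j =>
          (hf.mono ((hKΩ j).trans inter_subset_left)).preimage_isClosed_of_isClosed
            (hKcomp j).isClosed isClosed_singleton
        have hne : (⋂ j, K j ∩ f ⁻¹' {y}).Nonempty := by
          apply IsCompact.nonempty_iInter_of_sequence_nonempty_isCompact_isClosed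
          · intro j
            exact inter_subset_inter_left _ (hanti (Nat.le_succ j))
          · intro j
            obtain ⟨x, hx, hxy⟩ := hy j
            exact ⟨x, hx, hxy⟩
          · exact (hKcomp 0).of_isClosed_subset (hcl 0) inter_subset_left
          · exact hcl
        obtain ⟨x, hx⟩ := hne
        rw [mem_iInter] at hx
        exact ⟨x, mem_iInter.mpr fun j => (hx j).1, (hx 0).2⟩
    have hcompact : ∀ j, IsCompact (f '' K j) := fun j =>
      (hKcomp j).image_of_continuousOn (hf.mono ((hKΩ j).trans inter_subset_left))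
    have hlim : Tendsto (fun j => volume (f '' K j)) atTop (𝓝 (volume (⋂ j, f '' K j))) := by
      apply tendsto_measure_iInter_atTop
      · intro j; exact (hcompact j).isClosed.measurableSet.nullMeasurableSet
      · intro i j hij; exact image_mono (hanti hij)
      · exact ⟨0, (hcompact 0).measure_lt_top.ne⟩
    have hge : c ≤ volume (⋂ j, f '' K j) := by
      apply ge_of_tendsto' hlim
      intro j
      exact (S (j + 1)).2.2.le.trans (measure_mono (image_mono (hSK j)))
    rw [himg]
    exact lt_of_lt_of_le hc0 hge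

end Pool.Lusin.H30
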