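import Pool.Agent.Work.MP_4112db_an.PosCore
import Pool.Agent.Work.MP_4112db_an.PosCubes
import Pool.Agent.Work.MP_4112db_an.PosReduce
import Pool.Agent.Work.MP_4112db_an.PosFinal

/-!
# MP_4112db_an : assembly of the positive direction
-/

open MeasureTheory Set Filter Topology

namespace Pool.Lusin.H30

variable {n : ℕ}

/-- measurable choice of a cube containing a preimage -/
lemma exists_q {K : Set (En n)} (hK : IsCompact K) {f : En n → En n} (hf : ContinuousOn f K)
    (L : ℕ) : ∃ q : En n → (Fin n → ℤ), Measurable q ∧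
      ∀ w ∈ f '' K, w ∈ f '' (K ∩ ccube n L (q w)) := by
  classical
  obtain ⟨u, hu⟩ := exists_surjective_nat (Fin n → ℤ)
  let p : ℕ → En n → Prop := fun k w => w ∈ f '' (K ∩ ccube n L (u k)) ∨ w ∉ f '' K
  have hp : ∀ k, MeasurableSet {w | p k w} := by
    intro k
    have h1 : IsCompact (f '' (K ∩ ccube n L (u k))) :=
      (hK.inter_right (isClosed_ccube L (u k))).image_of_continuousOn (hf.mono inter_subset_left)
    have h2 : IsCompact (f '' K) := hK.image_of_continuousOn hf
    exact h1.isClosed.measurableSet.union h2.isClosed.measurableSet.compl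
  have hex : ∀ w, ∃ k, p k w := by
    intro w
    by_cases hw : w ∈ f '' K
    · obtain ⟨x, hx, rfl⟩ := hw
      obtain ⟨k, hk⟩ := hu (fun i => ⌊(2 : ℝ) ^ L * x i⌋)
      refine ⟨k, Or.inl ⟨x, ⟨hx, ?_⟩, rfl⟩⟩
      rw [hk]
      apply cube_subset_ccube
      rw [mem_cube_iff]
      intro i; rfl
    · exact ⟨0, Or.inr hw⟩
  refine ⟨fun w => u (Nat.find (hex w)), ?_, ?_⟩
  · exact Measurable.find (f := fun k _ => u k) (fun k => measurable_const) hp hex
  · intro w hw
    rcases Nat.find_spec (hex w) with h | h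
    · exact h
    · exact absurd hw h

/-- finitely many cubes meet a compact set -/
lemma exists_Z0 {K : Set (En n)} (hK : IsCompact K) (k : ℕ) :
    ∃ Z0 : Finset (Fin n → ℤ), ∀ z, z ∈ Z0 ↔ (ccube n k z ∩ K).Nonempty := by
  obtain ⟨R, hR⟩ := hK.isBounded.exists_norm_le
  have hfin : {z : Fin n → ℤ | (ccube n k z ∩ K).Nonempty}.Finite := by
    apply Set.Finite.subset (Set.Finite.pi' (fun _ : Fin n =>
      (Set.finite_Icc (⌊-(2 : ℝ) ^ k * R - 1⌋) (⌈(2 : ℝ) ^ k * R⌉))))
    rintro z ⟨y, hy, hyK⟩ i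
    have h1 := hy i
    have h2 := (abs_coord_le_norm y i).trans (hR y hyK)
    rw [abs_le] at h2
    have h2k : (0 : ℝ) < 2 ^ k := by positivity
    constructor
    · have h3 : -(2 : ℝ) ^ k * R - 1 ≤ z i := by nlinarith [h1.2, h2.1]
      exact Int.floor_le_iff.mpr (by linarith)
    · have h3 : (z i : ℝ) ≤ 2 ^ k * R := by nlinarith [h1.1, h2.2]
      exact Int.le_ceil_iff.mpr (by linarith)
  refine ⟨hfin.toFinset, fun z => ?_⟩
  simp

/-- chaining -/
lemma chain_bound (hn : 1 ≤ n) {ω : ℝ → ℝ} (hω : IsModulus ω) {S : Set (En n)} {f : En n → En n}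
    {CK : ℝ} (hCK : 0 ≤ CK) (hS : ∀ x ∈ S, ∀ y ∈ S, ‖f x - f y‖ ≤ CK * ω ‖x - y‖)
    {k : ℕ} {z : Fin n → ℤ} (hz : ccube n k z ⊆ S) {x y : En n} (hx : x ∈ ccube n k z)
    (hy : y ∈ ccube n k z) : ‖f x - f y‖ ≤ n * (CK * ω ((1 / 2) ^ k)) := by
  have hn0 : (n : ℝ) ≠ 0 := by
    have : n ≠ 0 := by omega
    exact_mod_cast this
  have hnpos : (0 : ℝ) < n := lt_of_le_of_ne (by positivity) (Ne.symm hn0)
  let p : ℕ → En n := fun i => x + ((i : ℝ) / n) • (y - x)
  have hp : ∀ i ≤ n, p i ∈ ccube n k z := by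
    intro i hi
    have h1 : p i = (1 - (i : ℝ) / n) • x + ((i : ℝ) / n) • y := by
      simp only [p]
      rw [smul_sub, sub_smul, one_smul]
      abel
    have hi1 : (i : ℝ) / n ≤ 1 := by
      rw [div_le_one hnpos]
      exact_mod_cast hi
    rw [h1]
    exact convex_ccube k z hx hy (by linarith) (by positivity) (by ring)
  have hstep : ∀ i, i < n → dist (f (p i)) (f (p (i + 1))) ≤ CK * ω ((1 / 2) ^ k) := by
    intro i hi
    rw [dist_eq_norm]
    refine (hS _ (hz (hp i hi.le)) _ (hz (hp (i + 1) hi))).trans ?_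
    apply mul_le_mul_of_nonneg_left _ hCK
    apply hω.mono (norm_nonneg _)
    · show (0 : ℝ) ≤ (1 / 2) ^ k
      positivity
    · have h1 : p i - p (i + 1) = (1 / (n : ℝ)) • (x - y) := by
        simp only [p]
        push_cast
        rw [add_sub_add_left_eq_sub, ← sub_smul]
        have : (i : ℝ) / n - (i + 1) / n = - (1 / n) := by ring
        rw [this, neg_smul, ← smul_neg, neg_sub]
      rw [h1, norm_smul, Real.norm_of_nonneg (by positivity)]
      have := dist_le_of_mem_ccube hx hy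
      calc 1 / (n : ℝ) * ‖x - y‖ ≤ 1 / (n : ℝ) * (n * (1 / 2) ^ k) :=
            mul_le_mul_of_nonneg_left this (by positivity)
        _ = _ := by field_simp
  have h0 : p 0 = x := by simp [p]
  have h1 : p n = y := by
    simp only [p]
    rw [div_self hn0, one_smul]
    abel
  have h2 := dist_le_range_sum_dist (fun i => f (p i)) n
  simp only [h0, h1] at h2
  rw [← dist_eq_norm]
  refine h2.trans ?_
  calc ∑ i ∈ Finset.range n, dist (f (p i)) (f (p (i + 1)))
      ≤ ∑ i ∈ Finset.range n, CK * ω ((1 / 2) ^ k) :=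
        Finset.sum_le_sum fun i hi => hstep i (Finset.mem_range.mp hi)
    _ = n * (CK * ω ((1 / 2) ^ k)) := by simp

/-- **Positive direction** (given the bump averages): if (N) fails for some continuous
`W^{1,n}` map with modulus `ω`, then the Dini type sum is finite. -/
theorem positive_of_avg (hn : 2 ≤ n) (hAvg : AvgStatement n) {ω : ℝ → ℝ} (hω : IsModulus ω)
    {Ω : Set (En n)} (hΩ : IsOpen Ω) {f : En n → En n} (hf : ContinuousOn f Ω)
    (hW : MemW1n n Ω f) (hm : HasModulus n Ω ω f) (hN : ¬ LusinN n Ω f) :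
    Summable (fun k : ℕ => (|Real.log (ω ((1 / 2 : ℝ) ^ (k + 1)))| / ((k : ℝ) + 1)) ^ n) := by
  have hn0 : n ≠ 0 := by omega
  -- compact set
  obtain ⟨K, hK, hKΩ, hK0, hfK⟩ := exists_compact_of_not_lusin n hΩ hf hN
  -- weak derivatives
  have hWd := hW.2
  choose g hgL hgw using hWd
  obtain ⟨C, hC, hAvg⟩ := hAvg
  obtain ⟨F, hF1, hF2⟩ := hAvg Ω hΩ f g hf (fun i j => hgw i j) (fun i j => hgL i j)
  -- the gradient majorant
  set G0 : En n → ℝ := fun y => ∑ i, ∑ j, |g i j y| with hG0def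
  have hG0L : MemLp G0 (n : ENNReal) (volume.restrict Ω) := by
    apply memLp_finsetSum
    intro i _
    apply memLp_finsetSum
    intro j _
    exact (hgL i j).norm
  set G : En n → ℝ := Ω.indicator G0 with hGdef
  have hGL : MemLp G (n : ENNReal) volume :=
    (memLp_indicator_iff_restrict hΩ.measurableSet).mpr hG0L
  have hG0nn : ∀ y, 0 ≤ G0 y := fun y =>
    Finset.sum_nonneg fun i _ => Finset.sum_nonneg fun j _ => abs_nonneg _
  have hGnn : ∀ y, 0 ≤ G y := fun y => indicator_nonneg (fun y _ => hG0nn y) y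
  have hGn : Integrable (fun y => G y ^ n) := by
    have h := hGL.integrable_norm_pow hn0
    refine h.congr ?_
    filter_upwards with y
    rw [Real.norm_of_nonneg (hGnn y)]
  have hGi : ∀ S : Set (En n), volume S ≠ ⊤ → IntegrableOn G S := by
    intro S hS
    have : IsFiniteMeasure (volume.restrict S) := ⟨by
      rw [Measure.restrict_apply_univ]; exact lt_top_iff_ne_top.mpr hS⟩
    exact (hGL.restrict S).integrable (by exact_mod_cast (by omega : 1 ≤ n))
  -- families of cubes
  choose Z0 hZ0 using fun k => exists_Z0 (n := n) hK k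
  have hcupK : ∀ k, cup k (Z0 k) ⊆ Metric.cthickening (n * (1 / 2) ^ k) K := by
    intro k y hy
    simp only [cup, mem_iUnion, exists_prop] at hy
    obtain ⟨z, hz, hyz⟩ := hy
    rw [hZ0] at hz
    obtain ⟨x, hxz, hxK⟩ := hz
    apply Metric.mem_cthickening_of_dist_le y x _ _ hxK
    rw [dist_eq_norm]
    exact dist_le_of_mem_ccube hyz hxz
  have hr0 : Tendsto (fun k : ℕ => (n : ℝ) * (1 / 2) ^ k) atTop (𝓝 0) := by
    have h := (tendsto_pow_atTop_nhds_zero_of_lt_one (r := (1 / 2 : ℝ)) (by norm_num)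
      (by norm_num)).const_mul (n : ℝ)
    rwa [mul_zero] at h
  have hmeas0 : Tendsto (fun k : ℕ => volume (Metric.cthickening ((n : ℝ) * (1 / 2) ^ k) K))
      atTop (𝓝 0) := by
    have h := (tendsto_measure_cthickening_of_isCompact (μ := volume) hK).comp hr0
    rw [hK0] at h
    exact h
  have hint0 : Tendsto (fun k : ℕ => ∫ y in Metric.cthickening ((n : ℝ) * (1 / 2) ^ k) K, G y ^ n)
      atTop (𝓝 0) := hGn.tendsto_setIntegral_nhds_zero hmeas0
  have hcupint : ∀ k, ∫ y in cup k (Z0 k), G y ^ n ≤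
      ∫ y in Metric.cthickening ((n : ℝ) * (1 / 2) ^ k) K, G y ^ n := by
    intro k
    apply setIntegral_mono_set hGn.integrableOn
    · filter_upwards with y
      exact pow_nonneg (hGnn y) n
    · exact (hcupK k).eventuallyLE
  -- the image set
  set A : Set (En n) := f '' K with hAdef
  have hAc : IsCompact A := hK.image_of_continuousOn (hf.mono hKΩ)
  have hAm : MeasurableSet A := hAc.isClosed.measurableSet
  have hAf : volume A ≠ ⊤ := hAc.measure_lt_top.ne
  have hApos : 0 < volume.real A := ENNReal.toReal_pos hfK.ne' hAf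
  -- choice of k0
  obtain ⟨δ, hδ, hδΩ⟩ := hK.exists_cthickening_subset_open hΩ hKΩ
  set cc : ℝ := 2 * (volume.real (Metric.ball (0 : En n) 1)) * (12 * C) ^ n with hcc
  have hcc0 : 0 ≤ cc := by
    have : 0 ≤ volume.real (Metric.ball (0 : En n) 1) := measureReal_nonneg
    positivity
  obtain ⟨k0, hk0Ω, hk0s⟩ : ∃ k0 : ℕ, cup k0 (Z0 k0) ⊆ Ω ∧
      cc * ∫ y in cup k0 (Z0 k0), G y ^ n ≤ volume.real A / 2 := by
    have h1 : ∀ᶠ k : ℕ in atTop, (n : ℝ) * (1 / 2) ^ k < δ := hr0.eventually (gt_mem_nhds hδ)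
    have h2 : Tendsto (fun k : ℕ => cc *
        ∫ y in Metric.cthickening ((n : ℝ) * (1 / 2) ^ k) K, G y ^ n) atTop (𝓝 0) := by
      have := hint0.const_mul cc
      rwa [mul_zero] at this
    have h3 : ∀ᶠ k : ℕ in atTop, cc *
        ∫ y in Metric.cthickening ((n : ℝ) * (1 / 2) ^ k) K, G y ^ n < volume.real A / 2 :=
      h2.eventually (gt_mem_nhds (by positivity))
    obtain ⟨k, hk1, hk2⟩ := (h1.and h3).exists
    refine ⟨k, ?_, ?_⟩
    · exact (hcupK k).trans ((Metric.cthickening_mono hk1.le K).trans hδΩ)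
    · exact (mul_le_mul_of_nonneg_left (hcupint k) hcc0).trans hk2.le
  set ε : ℝ := ∫ y in cup k0 (Z0 k0), G y ^ n with hε
  have hcupc : IsCompact (cup k0 (Z0 k0)) := isCompact_cup k0 (Z0 k0)
  obtain ⟨CK', hCK'⟩ := hm (cup k0 (Z0 k0)) hk0Ω hcupc
  set CK : ℝ := max CK' 0 with hCKdef
  have hCK0 : 0 ≤ CK := le_max_right _ _
  have hCK : ∀ x ∈ cup k0 (Z0 k0), ∀ y ∈ cup k0 (Z0 k0), ‖f x - f y‖ ≤ CK * ω ‖x - y‖ := by
    intro x hx y hy
    refine (hCK' x hx y hy).trans ?_
    apply mul_le_mul_of_nonneg_right (le_max_left _ _)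
    have h0 := hω.mono (show (0 : ℝ) ∈ Ici 0 from self_mem_Ici)
      (show ‖x - y‖ ∈ Ici 0 from norm_nonneg _) (norm_nonneg _)
    rwa [hω.zero] at h0
  set C4 : ℝ := C * (n * CK) + 1 with hC4
  have hC4pos : 0 < C4 := by positivity
  -- energy
  have hGcup : IntegrableOn G (cup k0 (Z0 k0)) := hGi _ hcupc.measure_lt_top.ne
  have hEn := energy hn hGnn k0 (Z0 k0) hGcup hGn.integrableOn
  -- pointwise oscillation bound
  have hω_pos : ∀ k : ℕ, 0 < ω ((1 / 2 : ℝ) ^ k) := fun k => hω.pos _ (by positivity)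
  have hosc : ∀ (j : ℕ) (z : Fin n → ℤ) (x : En n), z ∈ desc (Z0 k0) j → x ∈ ccube n (k0 + j) z →
      ‖f x - F (k0 + j) z‖ ≤ C4 * ω ((1 / 2 : ℝ) ^ (k0 + j)) := by
    intro j z x hz hx
    have hsub := ccube_subset_cup k0 (Z0 k0) j hz
    have h1 := hF1 (k0 + j) z (hsub.trans hk0Ω) (f x) (n * (CK * ω ((1 / 2) ^ (k0 + j))))
      (fun y hy => chain_bound (by omega) hω hCK0 hCK hsub hx hy)
    refine h1.trans ?_
    have h2 := hω_pos (k0 + j)
    rw [hC4]
    nlinarith
  have hmain : ∀ m : ℕ, ∃ G' : ℕ → ℝ, (∀ j, 0 ≤ G' j) ∧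
      ∑ k ∈ Finset.range (m + 1), G' k ^ n ≤
        3 * (volume.real A / (4 * C)) ^ n + 3 ^ n * ((volume.real A + potC n) ^ n * ε) ∧
      ∀ j ≤ m, (volume.real A / 2) * (- Real.log (C4 * ω ((1 / 2 : ℝ) ^ (k0 + j)))) ≤
        (Z0 k0).card * (volume.real A + potC n) + (4 / 3) * C * ∑ i ∈ Finset.range j, G' i := by
    intro m
    obtain ⟨q, hqm, hq⟩ := exists_q hK (hf.mono hKΩ) (k0 + m)
    -- iterated parents
    have hiter : ∀ (j : ℕ) (i : ℕ) (z : Fin n → ℤ), ccube n (i + j) z ⊆ ccube n i (dpar^[j] z) := by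
      intro j
      induction j with
      | zero => intro i z; exact Subset.rfl
      | succ j ih =>
        intro i z
        rw [Function.iterate_succ_apply]
        exact (ccube_succ_subset (i + j) z).trans (ih i (dpar z))
    have hqj : ∀ j ≤ m, ∀ w ∈ A, w ∈ f '' (K ∩ ccube n (k0 + j) (dpar^[m - j] (q w))) := by
      intro j hj w hw
      obtain ⟨x, ⟨hxK, hxc⟩, rfl⟩ := hq w hw
      refine ⟨x, ⟨hxK, ?_⟩, rfl⟩
      apply hiter (m - j) (k0 + j)
      have : k0 + j + (m - j) = k0 + m := by omega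
      rw [this]
      exact hxc
    have hpar : ∀ k < m, ∀ w ∈ A, dpar (dpar^[m - (k + 1)] (q w)) = dpar^[m - k] (q w) := by
      intro k hk w _
      rw [← Function.iterate_succ_apply' dpar]
      congr 2
      omega
    have hZ : ∀ k ≤ m, ∀ w ∈ A, dpar^[m - k] (q w) ∈ desc (Z0 k0) k := by
      intro k
      induction k with
      | zero =>
        intro hk w hw
        show _ ∈ Z0 k0
        rw [hZ0]
        obtain ⟨x, ⟨hxK, hxc⟩, _⟩ := hqj 0 hk w hw
        exact ⟨x, hxc, hxK⟩
      | succ k ih =>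
        intro hk w hw
        rw [mem_desc_succ, hpar k hk w hw]
        exact ih (by omega) w hw
    let T : CoreData n m (Fin n → ℤ) A C ε :=
      { par := dpar
        q := fun j w => dpar^[m - j] (q w)
        Z := desc (Z0 k0)
        F := fun j z => F (k0 + j) z
        a := fun j z => (1 / 2 : ℝ) ^ (k0 + j) * hav G (k0 + j) z
        e := fun j z => (1 / 2 : ℝ) ^ (k0 + j) * |hav G (k0 + j) z - hav G (k0 + j - 1) (dpar z)|
        hq := fun k => (Measurable.of_discrete (f := dpar^[m - k])).comp hqm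
        hpar := hpar
        hZ := hZ
        ha := fun k z => mul_nonneg (by positivity) (hav_nonneg hGnn _ _)
        he := fun k z => mul_nonneg (by positivity) (abs_nonneg _)
        hae := by
          intro k _ z _
          have e2 : k0 + (k + 1) = k0 + k + 1 := by omega
          simp only [e2, Nat.add_sub_cancel]
          rw [pow_succ (1 / 2 : ℝ) (k0 + k)]
          have h1 := le_abs_self (hav G (k0 + k + 1) z - hav G (k0 + k) (dpar z))
          have h2 : (0 : ℝ) < (1 / 2) ^ (k0 + k) := by positivity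
          nlinarith [mul_le_mul_of_nonneg_left h1 h2.le]
        hF := by
          intro k _ z hz
          have hz' : dpar z ∈ desc (Z0 k0) k := mem_desc_succ.mp hz
          have hsub := (ccube_subset_cup k0 (Z0 k0) k hz').trans hk0Ω
          have h1 := hF2 (k0 + k) z hsub
          have h2 : ∫ y in cube n (k0 + k) (dpar z), ∑ i, ∑ j, |g i j y| =
              ∫ y in cube n (k0 + k) (dpar z), G y := by
            apply setIntegral_congr_fun (measurableSet_cube _ _)
            intro y hy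
            have hyΩ : y ∈ Ω := hsub (cube_subset_ccube _ _ hy)
            rw [hGdef, indicator_of_mem hyΩ]
          rw [h2] at h1
          have h3 : C * ((2 : ℝ) ^ (k0 + k)) ^ n / 2 ^ (k0 + k) *
              ∫ y in cube n (k0 + k) (dpar z), G y =
              C * ((1 / 2 : ℝ) ^ (k0 + k) * hav G (k0 + k) (dpar z)) := by
            unfold hav
            rw [one_div, inv_pow]
            field_simp
          rw [h3] at h1
          exact h1
        hE0 := hEn m |>.1
        hE := by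
          have h := (hEn m).2
          refine le_trans (le_of_eq ?_) h
          apply Finset.sum_congr rfl
          intro j _
          apply Finset.sum_congr rfl
          intro z _
          have e2 : k0 + (j + 1) = k0 + j + 1 := by omega
          simp only [e2, Nat.add_sub_cancel] }
    obtain ⟨G', h1, h2, h3⟩ := T.core hn hC hAm hAf hk0s
    refine ⟨G', h1, h2, ?_⟩
    intro j hj
    apply h3 j hj
    intro w hw
    rw [neg_neg, Real.exp_log (mul_pos hC4pos (hω_pos _))]
    obtain ⟨x, ⟨hxK, hxc⟩, hxw⟩ := hqj j hj w hw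
    have h4 := hosc j _ x (hZ j hj w hw) hxc
    rw [hxw] at h4
    exact h4
  -- the final summation
  set Va := volume.real A with hVa
  have hpotC := potC_nonneg n
  set B2 : ℝ := |Real.log C4| + 2 / Va * ((Z0 k0).card * (Va + potC n)) with hB2
  set B3 : ℝ := 2 / Va * ((4 / 3) * C) with hB3
  have hfin := final_sum n hn (fun k => - Real.log (ω ((1 / 2 : ℝ) ^ k))) k0
    (3 * (Va / (4 * C)) ^ n + 3 ^ n * ((Va + potC n) ^ n * ε)) B2 B3
    |Real.log (ω (1 / 2))| (by positivity) (by positivity) (abs_nonneg _) ?_ ?_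
  · simpa only [abs_neg] using hfin
  · intro m
    obtain ⟨G', h1, h2, h3⟩ := hmain m
    refine ⟨G', h1, h2, ?_⟩
    intro j hj
    have h4 := h3 j hj
    rw [Real.log_mul hC4pos.ne' (hω_pos _).ne'] at h4
    have h5 : - Real.log (ω ((1 / 2 : ℝ) ^ (k0 + j))) ≤ Real.log C4 +
        2 / Va * ((Z0 k0).card * (Va + potC n) + (4 / 3) * C * ∑ i ∈ Finset.range j, G' i) := by
      have h6 : 2 / Va * ((Va / 2) * (-(Real.log C4 + Real.log (ω ((1 / 2 : ℝ) ^ (k0 + j)))))) ≤
          2 / Va * ((Z0 k0).card * (Va + potC n) + (4 / 3) * C * ∑ i ∈ Finset.range j, G' i) :=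
        mul_le_mul_of_nonneg_left h4 (by positivity)
      have h7 : 2 / Va * ((Va / 2) * (-(Real.log C4 + Real.log (ω ((1 / 2 : ℝ) ^ (k0 + j)))))) =
          -(Real.log C4 + Real.log (ω ((1 / 2 : ℝ) ^ (k0 + j)))) := by
        field_simp
      rw [h7] at h6
      linarith
    have h8 := le_abs_self (Real.log C4)
    rw [hB2, hB3]
    nlinarith
  · intro k
    have h1 : ω ((1 / 2 : ℝ) ^ (k + 1)) ≤ ω (1 / 2) := by
      apply hω.mono
      · show (0 : ℝ) ≤ (1 / 2) ^ (k + 1)
        positivity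
      · show (0 : ℝ) ≤ 1 / 2
        norm_num
      · calc (1 / 2 : ℝ) ^ (k + 1) ≤ (1 / 2) ^ 1 :=
            pow_le_pow_of_le_one (by norm_num) (by norm_num) (by omega)
          _ = 1 / 2 := pow_one _
    have h2 := Real.log_le_log (hω_pos (k + 1)) h1
    have h3 := le_abs_self (Real.log (ω (1 / 2)))
    linarith

end Pool.Lusin.H30
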