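import Pool.Agent.Work.MP_4112db_an.PosMain
import Pool.Agent.Work.MP_4112db_an.PosAvg
import Pool.Agent.Work.MP_4112db_an.Crit3

/-!
# MP_4112db_an : the positive direction
-/

open MeasureTheory Set Filter Topology

namespace Pool.Lusin

/-- **Positive direction**: if some continuous `W^{1,n}` map with modulus `ω` fails (N), then
the sum `∑ (log⁺ (1/ω(2^{-k})) / (k+1))^n` is finite. -/
theorem positive {n : ℕ} (hn : 2 ≤ n) {ω : ℝ → ℝ} (hω : IsModulus ω)
    {Ω : Set (En n)} (hΩ : IsOpen Ω) {f : En n → En n} (hf : ContinuousOn f Ω)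
    (hW : MemW1n n Ω f) (hm : HasModulus n Ω ω f) (hN : ¬ LusinN n Ω f) : SumCrit n ω := by
  have h := H30.positive_of_avg hn (avgStatement n hn) hω hΩ hf hW hm hN
  unfold SumCrit
  rw [← summable_nat_add_iff 1]
  refine Summable.of_nonneg_of_le ?_ ?_ h
  · intro k
    positivity
  · intro k
    apply pow_le_pow_left₀ (by positivity)
    have h1 : Real.log (1 / ω ((1 / 2 : ℝ) ^ (k + 1))) = - Real.log (ω ((1 / 2 : ℝ) ^ (k + 1))) := by
      rw [one_div, Real.log_inv]
    have h2 : max (Real.log (1 / ω ((1 / 2 : ℝ) ^ (k + 1)))) 0 ≤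
        |Real.log (ω ((1 / 2 : ℝ) ^ (k + 1)))| := by
      rw [h1]
      exact max_le (neg_le_abs _) (abs_nonneg _)
    have h3 : ((k : ℝ) + 1) ≤ (((k + 1 : ℕ) : ℝ) + 1) := by push_cast; linarith
    exact div_le_div₀ (abs_nonneg _) h2 (by positivity) h3

end Pool.Lusin
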